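import Pool.Agent.Work.MP_a11cf9_nt.Win.Defs

/-!
# Beyond the first window: the statements of the items

Every docstring contains the complete proof. In the proofs: `a = odds m K`, `x = T^[K] m`,
`b = odds x L`, `J = K + L`, `y = T^[J] m`, `z = zz`.
-/

set_option autoImplicit false

open Finset

namespace Pool.Agent.Work.MP_a11cf9_nt.Win

open Pool.Agent.Work.MP_a11cf9_nt

/-! ## Parity words -/

/-- ITEM Aff (short). Induction on `k`: if `t = T^[k] x` is even then `2 * T t = t`, if it is odd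
then `2 * T t = 3 * t + 1` (`T_even`, `T_odd`, `odds_succ`, `Function.iterate_succ_apply'`). -/
def S_Aff : Prop := ∀ x k : ℕ, 2 ^ k * T^[k] x = 3 ^ odds x k * x + rem x k

/-- ITEM RemLe (short). Induction: `3 (3 ^ k - 2 ^ k) + 2 ^ k = 3 ^ (k+1) - 2 ^ (k+1)`, and
`3 ^ k + 2 ^ k ≤ 3 ^ (k + 1)`. -/
def S_RemLe : Prop := ∀ x k : ℕ, rem x k + 2 ^ k ≤ 3 ^ k

/-- ITEM RemAdd (short). Induction on `t` from the recursion of `rem`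
(`Function.iterate_add_apply`). -/
def S_RemAdd : Prop := ∀ x s t : ℕ,
  rem x (s + t) = 3 ^ odds (T^[s] x) t * rem x s + 2 ^ s * rem (T^[s] x) t

/-- ITEM Shift (short). Induction on `k` (generalising `t`; `x + 2 ^ (k+1) t = x + 2 ^ k (2 t)`; so
`T^[k] (x + 2 ^ (k+1) t) = T^[k] x + 2 * (3 ^ odds x k * t)` has the same parity as `T^[k] x`). -/
def S_Shift : Prop := ∀ x k t : ℕ,
  T^[k] (x + 2 ^ k * t) = T^[k] x + 3 ^ odds x k * t ∧ odds (x + 2 ^ k * t) k = odds x k ∧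
    rem (x + 2 ^ k * t) k = rem x k ∧ ∀ j < k, T^[j] (x + 2 ^ k * t) % 2 = T^[j] x % 2

/-- ITEM Inj (short). By `S_Aff`, `3 ^ a * x + r` and `3 ^ a * y + r` are divisible by `2 ^ k`, and
`3 ^ a` is invertible modulo `2 ^ k`. -/
def S_Inj : Prop := ∀ x y k : ℕ, odds x k = odds y k → rem x k = rem y k → x % 2 ^ k = y % 2 ^ k

/-- ITEM Par (short). If the parities agree for `j < k` then `odds` and `rem` agree
(by induction), use `S_Inj`. Conversely `x = x % 2 ^ k + 2 ^ k * (x / 2 ^ k)` and `S_Shift`. -/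
def S_Par : Prop := ∀ x y k : ℕ,
  (∀ j < k, T^[j] x % 2 = T^[j] y % 2) ↔ x % 2 ^ k = y % 2 ^ k

/-- ITEM RemTyp (short). Induction on `k ≤ K`: `rem x (k+1) = 3 rem x k + 2 ^ k ≤
3 k P 3 ^ (a_k) + P 3 ^ (a_k) ≤ (k+1) P 3 ^ (a_k + 1)` in the odd case. -/
def S_RemTyp : Prop := ∀ (x K : ℕ) (P : ℝ), 0 < P → (∀ j ≤ K, (2 : ℝ) ^ j ≤ P * 3 ^ odds x j) →
  (rem x K : ℝ) ≤ K * P * 3 ^ odds x K

/-- ITEM BlkInj (short). The parities of `m` and `m'` agree for `j < K` (`S_Par`), and for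
`K ≤ j < K + L` (`S_Par` for `T^[K] m`, `T^[K] m'`), so `m` and `m'` are congruent modulo
`2 ^ (K+L)`, and the block has length `2 ^ (K+L)`. -/
def S_BlkInj : Prop := ∀ K L m m' : ℕ, m ∈ Blk (K + L) → m' ∈ Blk (K + L) →
  m % 2 ^ K = m' % 2 ^ K → T^[K] m % 2 ^ L = T^[K] m' % 2 ^ L → m = m'

/-- ITEM BlkSum (short). `m ↦ (m % 2 ^ K, T^[K] m % 2 ^ L)` is injective on the block (`S_BlkInj`),
the block has `2 ^ (K+L)` elements, so this is a bijection onto the product. -/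
def S_BlkSum : Prop := ∀ (K L : ℕ) (f g : ℕ → ℝ),
  ∑ m ∈ Blk (K + L), f (m % 2 ^ K) * g (T^[K] m % 2 ^ L) =
    (∑ u ∈ range (2 ^ K), f u) * ∑ s ∈ range (2 ^ L), g s

/-- ITEM Two (medium). Write `m = m' + 2 ^ K e`, `0 ≤ e < 2 ^ L` (`m' ≤ m`, both in the block), so
`T^[K] m = T^[K] m' + 3 ^ a e` (`S_Shift` in the form
`T^[K] (m' + 2 ^ K * e) = T^[K] m' + 3 ^ odds m' K * e`). Similarly `n = n' + 2 ^ K e'` and
`T^[K] n = T^[K] n' + 3 ^ a e'` with the same `a`. Modulo `2 ^ L` the left hand sides and the first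
terms agree, so `3 ^ a e` and `3 ^ a e'` are congruent modulo `2 ^ L`, so `e = e'`.
Next with `x = T^[K] m`, `x' = T^[K] m'`, `b = odds x L = odds x' L`, by `S_Aff`,
`2 ^ L (y - y') = 3 ^ b (x - x') + rem x L - rem x' L = 3 ^ b 3 ^ a e + rem x L - rem x' L`, and
`rem x L`, `b` only depend on `x % 2 ^ L` (`S_Shift`), so the right hand side is the same for
`n`, `n'`. -/
def S_Two : Prop := ∀ K L m m' n n' : ℕ, m ∈ Blk (K + L) → m' ∈ Blk (K + L) → n ∈ Blk (K + L) →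
  n' ∈ Blk (K + L) → m % 2 ^ K = m' % 2 ^ K → n % 2 ^ K = n' % 2 ^ K →
  T^[K] m % 2 ^ L = T^[K] n % 2 ^ L → T^[K] m' % 2 ^ L = T^[K] n' % 2 ^ L →
  odds m K = odds n K → odds (T^[K] m) L = odds (T^[K] m') L → m' ≤ m → n' ≤ n →
  (T^[K + L] m : ℤ) - T^[K + L] m' = T^[K + L] n - T^[K + L] n'

/-- ITEM Mult (medium). Let `m, m₀` be in the set. By `S_Aff` for `m, K + L` and `S_RemAdd`,
`2 ^ J y = 3 ^ (a+b) m + 3 ^ b rem m K + 2 ^ K rem x L`, and `b`, `rem x L` are the same for all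
elements (they depend on `x % 2 ^ L = s`, `S_Shift`). So
`2 ^ J (y - y₀) = 3 ^ b (3 ^ a (m - m₀) + rem m K - rem m₀ K)`, and `2 ^ K ∣ y - y₀`: there is an
integer `G` with `3 ^ a (m - m₀) + rem m K - rem m₀ K = 2 ^ (J+K) G`. As `|m - m₀| < 2 ^ J`,
`3 ^ a ≤ P 2 ^ K`, `rem < 3 ^ K ≤ 4 ^ K ≤ 2 ^ (J+K)` (`S_RemLe`), `|G| < P + 1`: at most `2 P + 3`
values of `G`. For fixed `G`, `rem m K` lies in one class modulo `3 ^ a` and in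
`[0, K P 3 ^ a]` (`S_RemTyp`): at most `K P + 1` values. Given `rem m K` (and `a`) `m % 2 ^ K` is
determined (`S_Inj`) and then `m` (`S_BlkInj`). -/
def S_Mult : Prop := ∀ (K L l : ℕ) (P : ℝ) (a s y : ℕ), 1 ≤ P →
  ((Fib2 K L l P a s y).card : ℝ) ≤ (2 * P + 3) * (K * P + 1)

/-! ## Correlations -/

/-- ITEM CorrSum (medium). Induction on `K` (`D` fixed). `range (2 ^ (K+1))` is the union of the
`y` and the `y + 2 ^ K` with `y < 2 ^ K`. For `y' = y + 2 ^ K t`, `t ≤ 1`, the first `K` parities of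
`y'` and of `y' + D = (y + D) + 2 ^ K t` are those of `y` and `y + D` (`S_Shift`), and
`T^[K] y' = T^[K] y + 3 ^ _ * t`, `T^[K] (y' + D) = T^[K] (y + D) + 3 ^ _ * t`: if `T^[K] y`,
`T^[K] (y+D)` have the same parity the two new pairs of parities are `(0,0)`, `(1,1)`, factor
`1 + w ^ 2`; otherwise they are `(0,1)`, `(1,0)`, factor `2 w c = 1 + w ^ 2`. -/
def S_CorrSum : Prop := ∀ (w c : ℝ) (D K : ℕ), 2 * w * c = 1 + w ^ 2 →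
  ∑ y ∈ range (2 ^ K), w ^ (odds y K + odds (y + D) K) * c ^ ham y (y + D) K = (1 + w ^ 2) ^ K

/-- ITEM Corr (short). From `S_CorrSum` with `c = (1 + w ^ 2) / (2 w) ≥ 1`: the terms of the set
`CorrSet` are at least `w ^ (2 g) * c ^ h`, the other terms are nonnegative. -/
def S_Corr : Prop := ∀ (w : ℝ) (K D g h : ℕ), 1 ≤ w →
  ((CorrSet K D g h).card : ℝ) * (w ^ (2 * g) * ((1 + w ^ 2) / (2 * w)) ^ h) ≤ (1 + w ^ 2) ^ K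

/-- ITEM BallSum (short). Induction on `K` as in `S_CorrSum`: of `y` and `y + 2 ^ K` exactly one
has the parity of `T^[K] x` at the time `K`: factor `1 + t`. -/
def S_BallSum : Prop := ∀ (t : ℝ) (x K : ℕ), ∑ y ∈ range (2 ^ K), t ^ ham x y K = (1 + t) ^ K

/-- ITEM Ball (short). `t ^ h ≤ t ^ ham` on the ball. -/
def S_Ball : Prop := ∀ (t : ℝ) (K h x : ℕ), 0 < t → t ≤ 1 →
  ((Ball K h x).card : ℝ) * t ^ h ≤ (1 + t) ^ K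

/-- ITEM Wt (short). `sum_pow_odds`. -/
def S_Wt : Prop := ∀ (z : ℝ) (K a : ℕ), 0 ≤ z → ((Wt K a).card : ℝ) * z ^ a ≤ (1 + z) ^ K

/-! ## A corner which is not bad -/

/-- ITEM InjC (medium). `x = T^[K] m`, `x' = T^[K] m'`, `M = K + L - t`. The first `K + t` parities
of `m` and `m'` agree (`S_Par` twice), so `m - m' = 2 ^ (K+t) E`, `|E| < 2 ^ (L-t) = 2 ^ (M-K)`, and
`w - w' = 3 ^ (a + c₁) E` for `w = T^[t] x`, `w' = T^[t] x'`, `a + c₁ = odds m (K+t)`. With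
`e = odds w l = odds w' l`, `v = T^[l] w`, `v' = T^[l] w'`:
`2 ^ l (v - v') = 3 ^ e (w - w') + rem w l - rem w' l`. As `v % 2 ^ (L-t-l) = v' % 2 ^ (L-t-l)`,
`v - v' = 2 ^ (L-t-l) u'` and `T^[K+L] m - T^[K+L] m' = 3 ^ c₃ u'`, so `2 ^ K ∣ u'` and
`2 ^ l (v - v') = 2 ^ M F`. So `3 ^ i E = c + 2 ^ M F` with `i = a + c₁ + e = odds m K + odds x (t+l)`
and `c = rem w' l - rem w l`, `|c| < 3 ^ l` (`S_RemLe`). As the corner is not bad, `c = 0`, so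
`w % 2 ^ l = w' % 2 ^ l` (`S_Inj`), and with the last hypothesis all `K + L` parities agree, so
`m = m'`. -/
def S_InjC : Prop := ∀ K L l t m m' : ℕ, t + l ≤ L → m ∈ Blk (K + L) → m' ∈ Blk (K + L) →
  m % 2 ^ K = m' % 2 ^ K → T^[K + L] m % 2 ^ K = T^[K + L] m' % 2 ^ K →
  T^[K] m % 2 ^ t = T^[K] m' % 2 ^ t → odds (T^[K + t] m) l = odds (T^[K + t] m') l →
  T^[K + t + l] m % 2 ^ (L - t - l) = T^[K + t + l] m' % 2 ^ (L - t - l) →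
  ¬ BadAt K L l m t → m = m'

open Classical in
/-- ITEM SpreadT (medium). By `S_InjC` the map
`m ↦ (x % 2 ^ t, odds (T^[t] x) l, T^[t+l] x % 2 ^ (L-t-l))` is injective on the set. With
`b = odds x L = odds x t + odds (T^[t] x) l + odds (T^[t+l] x) (L-t-l)` (`odds_add`, `odds_mod`),
`card * z ^ b ≤ (∑ s₁ < 2 ^ t, z ^ odds s₁ t) (∑ w ≤ l, z ^ w) (∑ s₃ < 2 ^ (L-t-l), z ^ odds s₃ _)`
`≤ (1+z) ^ t (l+1) z ^ l (1+z) ^ (L-t-l)` (`sum_pow_odds`). -/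
def S_SpreadT : Prop := ∀ (K L l t : ℕ) (P z : ℝ) (u b y : ℕ), 1 ≤ z → t + l ≤ L →
  (((Fib K L l P u b y).filter fun m => ¬ BadAt K L l m t).card : ℝ) * z ^ b ≤
    (1 + z) ^ (L - l) * ((l + 1) * z ^ l)

/-- ITEM Spread (short). Every element of `Fib` is in one of the `L + 1` sets of `S_SpreadT`. -/
def S_Spread : Prop := ∀ (K L l : ℕ) (P z : ℝ) (u b y : ℕ), 1 ≤ z →
  (∀ m ∈ Blk (K + L), Typ K l P m → ∃ t, t + l ≤ L ∧ ¬ BadAt K L l m t) →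
  ((Fib K L l P u b y).card : ℝ) * z ^ b ≤ (L + 1) * ((1 + z) ^ (L - l) * ((l + 1) * z ^ l))

/-! ## Consecutive bad corners -/

/-- ITEM Step (short). `3 ^ i (E c' - 3 ^ S E' c) = 2 ^ (M-1) (2 F c' - F' c)` so `2 ^ (M-1)` divides
`E c' - 3 ^ S E' c`, of absolute value `< 2 ^ (M-K) 3 ^ l + 3 * 2 ^ (M-1-K) 3 ^ l =
5 * 3 ^ l * 2 ^ (M-1-K) ≤ 2 ^ (M-1)`; so it is `0` and then `2 F c' = F' c`. -/
def S_Step : Prop := ∀ (K l i S M : ℕ) (c E F c' E' F' : ℤ), S ≤ 1 → K + 1 ≤ M → 5 * 3 ^ l ≤ 2 ^ K →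
  |c| < 3 ^ l → |c'| < 3 ^ l → |E| < 2 ^ (M - K) → |E'| < 2 ^ (M - 1 - K) →
  3 ^ i * E = c + 2 ^ M * F → 3 ^ (i + S) * E' = c' + 2 ^ (M - 1) * F' →
  E * c' = 3 ^ S * E' * c ∧ F' * c = 2 * F * c'

/-- ITEM Chain (medium). Let `(c_t, E_t, F_t)` be the data of the bad corner at `t`, `0 ≤ t ≤ L-l`,
`i_t = a + odds x (t+l)`, `M_t = K + L - t`. By `S_Step` (with `S = odds x (t+1+l) - odds x (t+l)`)
`E_t c_(t+1) = 3 ^ S_t E_(t+1) c_t`, `F_(t+1) c_t = 2 F_t c_(t+1)`; by induction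
`E_0 c_t = 3 ^ (i_t - i_0) E_t c_0` and `F_t c_0 = 2 ^ t F_0 c_t` (all `c_t ≠ 0`). At `t = L-l`:
`3 ^ (a+b) E_t = c_t + 2 ^ (K+l) F_t`; multiply by `c_0`: with `V = E_t c_0`, `D = c_t c_0`,
`F = F_0 c_t`: `3 ^ (a+b) V = D + 2 ^ (K+L) F`, `|E_t| < 2 ^ l`. `F_0 ≠ 0` because otherwise
`3 ^ i_0 E_0 = c_0`, `0 < |c_0| < 3 ^ l ≤ 3 ^ i_0` (`l ≤ a`). And
`2 ^ J |F_0| ≤ 3 ^ (a + l) 2 ^ L + 3 ^ l`, `3 ^ a ≤ P 2 ^ K`, `3 ^ l ≤ 2 ^ J` so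
`|F_0| ≤ P 3 ^ l + 1`. -/
def S_Chain : Prop := ∀ (K L l : ℕ) (P : ℝ) (m : ℕ), l ≤ L → 5 * 3 ^ l ≤ 2 ^ K → 1 ≤ P →
  Typ K l P m → (∀ t, t + l ≤ L → BadAt K L l m t) →
  ∃ V D F : ℤ, D ≠ 0 ∧ F ≠ 0 ∧ |V| < 6 ^ l ∧ |D| < 9 ^ l ∧
    (|F| : ℝ) ≤ 3 ^ l * (P * 3 ^ l + 1) ∧ 3 ^ odds m (K + L) * V = D + 2 ^ (K + L) * F

/-! ## Pade approximants -/

open Polynomial in
/-- ITEM PadeId (long). Put `n = k + N` and for `s ≤ N` let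
`G_s = ∑ j ≤ s, g s j X ^ j` in `ℤ[X]` (or `ℚ[X]`),
`g s j = s.choose j * (2N-j)! / (2N-s)! * ∏ i ∈ Icc 1 j, (k - N + i - 1)`. CLAIM:
`(1 - X) ^ (n - s) * G_s = F_s` where `F_s = ∑ i ≤ n, (∏ c ∈ Icc (2N-s+1) (2N), (c - i)) *
(-1) ^ i * n.choose i X ^ i` (product of integers). Induction on `s`: the operator
`Θ F = c F - X F'` with `c = 2N-s` multiplies the coefficient of `X ^ i` by `c - i`, so
`F_(s+1) = Θ F_s`; and `Θ ((1-X) ^ m G) = (1-X) ^ (m-1) ((1-X) (c G - X G') + m X G)` with `m = n-s`;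
the coefficient of `X ^ j` in the last bracket is
`(2N-s-j) g s j + (k-N+j-1) g s (j-1)`, and this is `g (s+1) j` because
`(s+1).choose j (2N-s) = (2N-s-j) s.choose j + (2N-j+1) s.choose (j-1)`
(`j s.choose j = (s-j+1) s.choose (j-1)`). At `s = N` divide by `N!`:
`g N j = N! (2N-j).choose N (k-N+j-1).choose j`, and `∏ c ∈ Icc (N+1) (2N), (c - i)` is
`N! (2N-i).choose N` for `i ≤ N`, `0` for `N < i ≤ 2N`, `(-1) ^ N N! (i-N-1).choose N` for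
`2N < i`. (Checked numerically for all `N < k < 12`.) Any other proof is fine. -/
def S_PadeId : Prop := ∀ k N : ℕ, N < k → (1 - X) ^ k * Qp k N = Pp k N + Rp k N

/-- ITEM PadeNum (short). Evaluate `S_PadeId` at `X = 1/9` (in `ℚ`) and multiply by `9 ^ (k+N)`
(for `N < k`, `j ≤ N` so `9 ^ (N - j)` is `9 ^ N * (1/9) ^ j`, for the remainder `i ≤ k + N`). -/
def S_PadeNum : Prop := ∀ k N : ℕ, N < k → qz k N * 8 ^ k = pz k N * 9 ^ k + rz k N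

/-- ITEM PadeDet (medium). With `S_PadeId` for `N` and `N+1`:
`Pp k N * Qp k (N+1) - Pp k (N+1) * Qp k N = Rp k (N+1) * Qp k N - Rp k N * Qp k (N+1)` is divisible
by `X ^ (2N+1)` and has degree `≤ 2N+1`, so it is `d X ^ (2N+1)` with
`d = - (coefficient of X ^ (2N+1) in Rp k N) * (Qp k (N+1)).coeff 0
= - (-1) ^ (N + 2N+1) (k+N).choose (2N+1) * N.choose N * (2N+2).choose (N+1) ≠ 0` as `N+1 ≤ k`.
Evaluate at `1/9` and multiply by `9 ^ (2N+1)`. -/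
def S_PadeDet : Prop := ∀ k N : ℕ, N + 1 < k → pz k N * qz k (N + 1) ≠ pz k (N + 1) * qz k N

/-- ITEM PadeQ (short). `(2N-j).choose N ≤ 2 ^ (2N-j)`, so with `n = k - N ≥ 1`
`qz ≤ ∑ j, (n+j-1).choose j 2 ^ (2N-j) 9 ^ (N-j) = 36 ^ N ∑ j ≤ N, (n+j-1).choose j (1/18) ^ j ≤
36 ^ N (1 - 1/18) ^ (-n)` (partial sum of the series of `(1-x) ^ (-n)`; or by induction on `n`). -/
def S_PadeQ : Prop := ∀ k N : ℕ, N < k → 0 < qz k N ∧ (qz k N : ℝ) ≤ 36 ^ N * (18 / 17) ^ (k - N)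

/-- ITEM PadeR (short). For `2N+1 ≤ i`, `(i-N-1).choose N * (1/9) ^ (i-N) ≤ (1/8) ^ (N+1)` (a single
term of `∑ n ≥ N, n.choose N x ^ (n+1) = (x/(1-x)) ^ (N+1)` at `x = 1/9`; or:
`n.choose N 8 ^ (n-N) ≤ 9 ^ n`, a term of the binomial formula for `(1+8) ^ n`, with `n = i-N-1`).
So `|rz| ≤ ∑ i, (k+N).choose i * 9 ^ k / 8 ^ (N+1) ≤ 2 ^ (k+N) 9 ^ k / 8 ^ (N+1)`. -/
def S_PadeR : Prop := ∀ k N : ℕ, N < k → (|rz k N| : ℝ) ≤ 2 ^ (k + N) * 9 ^ k / 8 ^ (N + 1)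

/-- ITEM W (medium). Suppose `3 ^ B V = D + 2 ^ A F`. Put `V' = 3 ^ (B-2k) V`,
`F' = 2 ^ (A-3k) F`: `9 ^ k V' = D + 8 ^ k F'`, `|V'| ≤ 3 * 1.01 ^ k`, so
`8 ^ k |F'| ≤ 4 * 9 ^ k * 1.01 ^ k`. For `N < k` with `q = qz k N` etc. (`S_PadeNum`):
`9 ^ k (q V' - p F') = q D + r F'`. For `N = 3k/5` or `N = 3k/5 + 1` (`k` large):
`|q D| ≤ 36 ^ N (18/17) ^ (k-N) 1.01 ^ k` and `36 ^ 0.6 (18/17) ^ 0.4 * 1.01 < 8.88 < 9` (for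
integers: `N ≤ 3k/5 + 1`; `36 ^ 3 (18/17) ^ 2 1.01 ^ 5 < 8.9 ^ 5`), and
`|r F'| ≤ 2 ^ (k+N) 9 ^ k / 8 ^ (N+1) * 4 (9/8) ^ k 1.01 ^ k ≤ 9 ^ k (2 * 9/8 * 1.01) ^ k / 4 ^ N` with
`2.2725 ^ 5 < 61 < 64 = 4 ^ 3`: both are `< 9 ^ k / 2` for large `k`. So the integer
`q V' - p F'` is `0` for both `N`, and `V' F' ≠ 0` gives `p_N q_(N+1) = p_(N+1) q_N`, contradicting
`S_PadeDet`. -/
def S_W : Prop := ∃ k₀ : ℕ, ∀ k : ℕ, k₀ ≤ k → ∀ A B : ℕ, (B = 2 * k ∨ B = 2 * k + 1) → 3 * k ≤ A →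
  ∀ V D F : ℤ, V ≠ 0 → F ≠ 0 → (|V| : ℝ) ≤ 1.01 ^ k → (|D| : ℝ) ≤ 1.01 ^ k →
    3 ^ B * V ≠ D + 2 ^ A * F

/-- ITEM NoBad (medium). Otherwise `S_Chain` gives `3 ^ B V = D + 2 ^ J F`, `B = odds m (K+L)`,
`J = K + L`. `V ≠ 0` because `|D| < 9 ^ l ≤ 9 ^ (J/2000) < 2 ^ J ≤ |2 ^ J F|`. Lower bound for `B`:
`3 ^ B 6 ^ l ≥ 2 ^ J - 9 ^ l ≥ 2 ^ (J-1)` so (`J` large) `B ≥ 3 J / 5 + 2`
(`3 ^ 0.6 < 2 ^ 0.96`); upper bound: `3 ^ B ≤ 9 ^ l + 2 ^ J 3 ^ l (P 3 ^ l + 1)` so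
`3 ^ B ≤ 2 ^ J * 4 * 9 ^ (J/2000) 2 ^ (J/1000)` and `2 * 9 ^ (1/2000) 2 ^ (1/1000) < 9 ^ (1/3)`
gives `3 B ≤ 2 J`. Put `k = B / 2`: `3 k ≤ J`, `k ≥ 3 J / 10`, and `9 ^ l ≤ 9 ^ (J/2000) ≤ 1.01 ^ k`
since `9 ^ (10) ≤ 1.01 ^ (6000)`. Apply `S_W`. -/
def S_NoBad : Prop := ∃ J₀ : ℕ, ∀ (K L l : ℕ) (P : ℝ), J₀ ≤ K + L → 2000 * l ≤ K + L → l ≤ L →
  5 * 3 ^ l ≤ 2 ^ K → 1 ≤ P → P ≤ (2 : ℝ) ^ (((K + L : ℕ) : ℝ) / 1000) →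
  ∀ m ∈ Blk (K + L), Typ K l P m → ∃ t, t + l ≤ L ∧ ¬ BadAt K L l m t

/-! ## Cauchy-Schwarz -/

/-- ITEM CSa (short). `S` is the disjoint union of its fibres over `u = m % 2 ^ K`, which lies in
`Wt K a` (`odds_mod`); `sq_sum_le_card_mul_sum_sq`; the pairs are the disjoint union of the squares
of the fibres. -/
def S_CSa : Prop := ∀ (S : Finset ℕ) (K a : ℕ), (∀ m ∈ S, odds m K = a) →
  S.card ^ 2 ≤ (Wt K a).card * ((S ×ˢ S).filter fun p => p.1 % 2 ^ K = p.2 % 2 ^ K).card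

/-- ITEM SabLe (short). `m ↦ (m % 2 ^ K, T^[K] m % 2 ^ L)` is injective (`S_BlkInj`) into
`Wt K a ×ˢ Wt L b`. -/
def S_SabLe : Prop := ∀ (K L l : ℕ) (P : ℝ) (g a b : ℕ),
  (Sab K L l P g a b).card ≤ (Wt K a).card * (Wt L b).card

/-- ITEM Far (medium). By symmetry (`ham` is symmetric) it is enough to count the pairs `(m, m')`
with `m' ≤ m`, without the factor `2`. Map such a pair to `(s, s', v, m')`, `s = T^[K] m % 2 ^ L`,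
`s' = T^[K] m' % 2 ^ L` (both in `Wt L b`), `v = T^[K+L] m' % 2 ^ K`. This is injective (`S_BlkInj`:
`m % 2 ^ K = m' % 2 ^ K`). For given `(s, s')` the difference `T^[K+L] m - T^[K+L] m'` is the same
for all pairs (`S_Two`); let `D` be a natural number congruent to it modulo `2 ^ K`. Then
`v ∈ CorrSet K D g h`: `v + D` and `T^[K+L] m` are congruent modulo `2 ^ K`, and `odds _ K`,
`ham _ _ K` only depend on residues modulo `2 ^ K` (`S_Par`). For given `(s', v)`, `m'` is in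
`Fib2 K L l P a s' v`. -/
def S_Far : Prop := ∀ (K L l : ℕ) (P : ℝ) (g h a b : ℕ) (Cm Mm : ℝ), 0 ≤ Cm → 0 ≤ Mm →
  (∀ D, ((CorrSet K D g h).card : ℝ) ≤ Cm) →
  (∀ s y, ((Fib2 K L l P a s y).card : ℝ) ≤ Mm) →
  ((((Sab K L l P g a b) ×ˢ (Sab K L l P g a b)).filter fun p => p.1 % 2 ^ K = p.2 % 2 ^ K ∧
    h ≤ ham (T^[K + L] p.1) (T^[K + L] p.2) K).card : ℝ) ≤ 2 * ((Wt L b).card : ℝ) ^ 2 * Cm * Mm

/-- ITEM Near (short). For every `m` in `Sab`, `v = T^[K+L] m' % 2 ^ K` is in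
`Ball K h (T^[K+L] m)` (`ham x y K` only depends on `y % 2 ^ K`, `S_Par`), and for given `v`, `m'`
is in `Fib K L l P (m % 2 ^ K) b v`. -/
def S_Near : Prop := ∀ (K L l : ℕ) (P : ℝ) (g h a b : ℕ) (Bm Sp : ℝ), 0 ≤ Bm → 0 ≤ Sp →
  (∀ x, ((Ball K h x).card : ℝ) ≤ Bm) →
  (∀ u y, ((Fib K L l P u b y).card : ℝ) ≤ Sp) →
  ((((Sab K L l P g a b) ×ˢ (Sab K L l P g a b)).filter fun p => p.1 % 2 ^ K = p.2 % 2 ^ K ∧
    ham (T^[K + L] p.1) (T^[K + L] p.2) K < h).card : ℝ) ≤ ((Sab K L l P g a b).card : ℝ) * Bm * Sp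

/-- ITEM ZZ (short). `2 ^ 3 < 3 ^ 2` and `3 ^ 3 < 2 ^ 5` give `3/5 < rho < 2/3`; the rest is algebra;
the last statement is `binEntropy rho = - rho log rho - (1-rho) log (1-rho)` with
`log zz = log rho - log (1-rho)`, `log (1 + zz) = - log (1 - rho)`. -/
def S_ZZ : Prop := 3 / 5 < rho ∧ rho < 2 / 3 ∧ 3 / 2 < zz ∧ zz < 2 ∧ zz / (1 + zz) = rho ∧
  2 * √zz / (1 + zz) ≤ 49 / 50 ∧ hh = Real.log (1 + zz) - rho * Real.log zz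

/-- ITEM Core (medium). Let `N = (Sab ..).card`, `z = zz`. `S_CSa` (with `a = odds m K`), the pairs are
the union of the sets of `S_Far` and `S_Near`, so with `Ua = (Wt K a).card`, `Sb = (Wt L b).card`,
`N ≤ Ua Sb` (`S_SabLe`): `N ^ 2 ≤ Ua (2 Sb ^ 2 Cm Mm + Ua Sb Bm Sp)` where
`Cm = (1+z) ^ K (49/50) ^ h / z ^ g` (`S_Corr` with `w = √z`, `((1+z)/(2√z)) ≥ 50/49`),
`Mm = (2P+3)(KP+1)` (`S_Mult`), `Bm = 50 ^ h (51/50) ^ K` (`S_Ball`, `t = 1/50`),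
`Sp = (L+1) (1+z) ^ (L-l) (l+1) z ^ l / z ^ b` (`S_Spread`). Multiply by `z ^ (2a+2b)` and use
`Ua z ^ a ≤ (1+z) ^ K`, `Sb z ^ b ≤ (1+z) ^ L` (`S_Wt`), `z ^ l / (1+z) ^ l = rho ^ l ≤ (2/3) ^ l`. -/
def S_Core : Prop := ∀ (K L l : ℕ) (P : ℝ) (g h a b : ℕ), 1 ≤ P → l ≤ L →
  (∀ m ∈ Blk (K + L), Typ K l P m → ∃ t, t + l ≤ L ∧ ¬ BadAt K L l m t) →
  (zz ^ (a + b) * ((Sab K L l P g a b).card : ℝ)) ^ 2 ≤ ((1 + zz) ^ (K + L)) ^ 2 *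
    (2 * (zz ^ a / zz ^ g) * (49 / 50) ^ h * ((2 * P + 3) * (K * P + 1)) +
      50 ^ h * (51 / 50) ^ K * ((L + 1) * ((l + 1) * (2 / 3) ^ l)))

/-! ## The typical first words -/

/-- ITEM Chern (medium). `φ τ = τ log 2 + log (1 + z 3 ^ (-τ)) - log (1 + z)` has `φ 0 = 0` and
`φ' 0 = log 2 - z / (1+z) log 3 = 0` (`zz/(1+zz) = rho`, `S_ZZ`), so `φ τ ≤ η τ` for small `τ > 0`;
the same for `- τ log 2 + log (1 + z 3 ^ τ) - log (1+z)`. (Or use the explicit inequality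
`exp x ≤ 1 + x + x ^ 2` for `|x| ≤ 1` : `(1-rho) exp(τ log 2) + rho exp(τ (log 2 - log 3)) ≤
1 + C τ ^ 2`.) -/
def S_Chern : Prop := ∀ η : ℝ, 0 < η → ∃ τ : ℝ, 0 < τ ∧
  (2 : ℝ) ^ τ * (1 + zz * (3 : ℝ) ^ (-τ)) ≤ (1 + zz) * Real.exp (η * τ) ∧
  (2 : ℝ) ^ (-τ) * (1 + zz * (3 : ℝ) ^ τ) ≤ (1 + zz) * Real.exp (η * τ)

/-- ITEM TypU (medium). Take `η = log p / 2`, `τ` from `S_Chern`, `r = exp (-η τ)`, `C = 2`. The set is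
contained in the union of `{2 ^ j > p ^ K 3 ^ (odds u j)}` (`j ≤ K`) and
`{3 ^ odds u K > p ^ K 2 ^ K}`. For the first: `1 ≤ (2 ^ j / (p ^ K 3 ^ odds u j)) ^ τ`, and
`∑ u < 2 ^ K, F (u % 2 ^ j) z ^ odds u K = (1+z) ^ (K-j) ∑ u < 2 ^ j, F u z ^ odds u j` (split
`u` as in `BlkSum`, or induction on `K`), so its sum is at most
`(1+z) ^ (K-j) p ^ (-K τ) 2 ^ (j τ) (1 + z 3 ^ (-τ)) ^ j ≤ (1+z) ^ K p ^ (-Kτ) exp (η τ j)` and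
`j ≤ K`, `p ^ (-Kτ) = exp (-2 η τ K)`. The second in the same way
(`sum_pow_odds` with `z * 3 ^ (-τ)`, `z * 3 ^ τ`). -/
def S_TypU : Prop := ∀ p : ℝ, 1 < p → ∃ r C : ℝ, 0 < r ∧ r < 1 ∧ 0 < C ∧ ∀ K : ℕ,
  ∑ u ∈ (range (2 ^ K)).filter (fun u => ¬ ((∀ j ≤ K, (2 : ℝ) ^ j ≤ p ^ K * 3 ^ odds u j) ∧
    (3 : ℝ) ^ odds u K ≤ p ^ K * 2 ^ K)), zz ^ odds u K ≤ C * (K + 1) * r ^ K * (1 + zz) ^ K

/-- ITEM Small (medium). Real analysis only. With `P = 2 ^ (K/10000)` (real power), `h = K/50`,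
`l = K/2` (floors), `z ^ a / z ^ g ≤ 2 ^ (K/6000)`:
`2 * 2 ^ (K/6000) (49/50) ^ h (2P+3)(KP+1) ≤ 2 * (50/49) * 10 K' 2 ^ (K/6000 + K/5000) (49/50) ^ (K/50)`
and `2 ^ (11/30000) (49/50) ^ (1/50) < 1` (i.e. `2 ^ 11 (49/50) ^ 600 < 1`), and
`50 ^ (K/50) (51/50) ^ K (2/3) ^ (K/2 - 1)`, `50 * (51/50) ^ 50 * (2/3) ^ 25 < 1`. -/
def S_Small : Prop := ∃ η C : ℝ, 0 < η ∧ 0 < C ∧ ∀ (K L : ℕ) (P A : ℝ),
  P = (2 : ℝ) ^ ((K : ℝ) / 10000) → A ≤ (2 : ℝ) ^ ((K : ℝ) / 6000) → 0 ≤ A →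
  2 * A * (49 / 50) ^ (K / 50) * ((2 * P + 3) * (K * P + 1)) +
      50 ^ (K / 50) * (51 / 50) ^ K * ((L + 1) * (((K / 2 : ℕ) + 1) * (2 / 3) ^ (K / 2))) ≤
    C * (L + 1) * Real.exp (-η * K)

/-- ITEM E (long). THEOREM E. `K = ⌊δ J⌋`, `L = J - K`, `l = K / 2`, `P = 2 ^ (K/10000) = p ^ K`,
`h = K / 50`, `g = ⌈(rho - 1/10000) K⌉`. For `J` small (bounded) the sum is at most `(1+z) ^ J`
(`sum_pow_odds_Ico`). For large `J`: `K ≥ 12` gives `5 * 3 ^ l ≤ 2 ^ K`, `2000 l ≤ 1000 K ≤ J`,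
`P ≤ 2 ^ (J/1000)`: `S_NoBad` applies. The sum over the `m` with `¬ Typ K l P m` is (by `S_BlkSum`;
`odds m J = odds m K + odds x L`, all conditions in `Typ` depend on `m % 2 ^ K`) at most
`(1+z) ^ L * ∑ u < 2 ^ K, ¬ Typ, z ^ odds u K`, and `S_TypU` (the condition `l ≤ odds u K` follows
from `2 ^ K ≤ P 3 ^ odds u K`). The `m` with `Typ` are in `Sab K L l P g a b` for
`a = odds m K ≤ K`, `b = odds x L ≤ L`, and if it is not empty `3 ^ a ≤ P 2 ^ K`, so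
`a - g ≤ (5/3) K / 10000`, `z ^ a / z ^ g ≤ 2 ^ (K/6000)` (`1 < z < 2`): `S_Core` and `S_Small` give
`z ^ (a+b) card ≤ (1+z) ^ J √(C (L+1) exp (-η K))`, sum over the `(K+1)(L+1)` pairs `(a,b)`, and
`K ≥ δ J - 1`. -/
def S_E : Prop := ∀ δ : ℝ, 0 < δ → δ ≤ 1 / 1000 → ∃ η C : ℝ, 0 < η ∧ 0 < C ∧ ∀ J : ℕ,
  ∑ m ∈ (Blk J).filter (fun m => (rho - 1 / 10000) * (⌊δ * J⌋₊ : ℝ) ≤
    (odds (T^[J] m) ⌊δ * J⌋₊ : ℝ)), zz ^ odds m J ≤ C * (1 + zz) ^ J * Real.exp (-η * J)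

/-! ## Applications -/

/-- ITEM NA (medium). `K = ⌊δ J⌋`. For `n` in the set, `odds n J ≥ rho J` and
`odds n (J+K) ≥ rho (J+K)` (take logarithms in `2 ^ k ≤ 3 ^ odds n k`; `J ≥ 1`). If
`odds (T^[J] n) K ≥ (rho - 1/10000) K`: the number of these `n` is at most
`z ^ (-rho J) ∑ z ^ odds n J ≤ C z ^ (-rho J) (1+z) ^ J exp (-η J) = C exp ((hh - η) J)` (`S_E`,
`S_ZZ`). Otherwise `odds n J ≥ rho (J+K) - (rho - 1/10000) K = rho J + K/10000`, and the number of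
these is at most `z ^ (-rho J - K/10000) (1+z) ^ J = exp (hh J - (log z) K / 10000)`
(`sum_pow_odds_Ico`), `K ≥ δ J - 1`. -/
def S_NA : Prop := ∀ δ : ℝ, 0 < δ → δ ≤ 1 / 1000 → ∃ η C : ℝ, 0 < η ∧ 0 < C ∧ ∀ J : ℕ,
  (((Blk J).filter fun n => ∀ k, 1 ≤ k → k ≤ J + ⌊δ * J⌋₊ → 2 ^ k ≤ 3 ^ odds n k).card : ℝ) ≤
    C * Real.exp ((hh - η) * J)

/-- ITEM SigK (short). By `main_ineq` (with `c = 1/24`) a counterexample has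
`k log 2 - a log 3 ≤ C n ^ (-1/24)`, and `3 ^ a < 2 ^ k`, `a = odds n k ≤ k`; by `Pade.log_lower`
(file Measure) it is at least `c / (2k) ^ 80`; `n ≥ 2 ^ J`, `k ≤ 2 J`: contradiction for large
`J`. -/
def S_SigK : Prop := ∃ J₀ : ℕ, ∀ J : ℕ, J₀ ≤ J → ∀ n ∈ Blk J, ∀ k : ℕ, k ≤ 2 * J →
  kappa n = k → sigma n = k

open Classical in
/-- ITEM FinA (medium). Choose `δ ≤ 1/1000` with `1 + δ ≤ lam`. If `n ∈ Blk J`, `J ≥ J₀`, is not in the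
set of `S_NA` then there is `k ≤ J + ⌊δ J⌋ ≤ 2 J` with `3 ^ odds n k < 2 ^ k`, so `kappa n = k'` with
`k' ≤ k` and `sigma n = k'` (`S_SigK`), `k' ≤ (1+δ) J ≤ lam * logb 2 n`. Sum over the blocks
`J ≤ logb 2 N` (`J = Nat.log 2 n`); `θ = max ((hh - η)/log 2) (hh/(2 log 2)) < hh / log 2`
(`hh > 0`), geometric series. -/
def S_FinA : Prop := ∀ lam : ℝ, 1 < lam → ∃ θ C : ℝ, θ < hh / Real.log 2 ∧ ∀ N : ℕ,
  ((((Icc 2 N).filter fun n => ¬ (kappa n = sigma n ∧ ∃ k : ℕ, sigma n = k ∧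
    (k : ℝ) ≤ lam * Real.logb 2 n)).card : ℕ) : ℝ) ≤ C * (N : ℝ) ^ θ

/-- ITEM NB (medium). `δ = 1/1000`, `ε₂ = δ/20000`, `η₀, C₀` from `S_E`. The `m` with
`odds m J ≥ (rho + ε₂) J`: at most `z ^ (-(rho+ε₂) J) (1+z) ^ J = exp ((hh - ε₂ log z) J)`. The `m` with
`odds m J ≥ (rho - ε₁) J` and good second window: at most
`z ^ (-(rho - ε₁) J) C₀ (1+z) ^ J exp (-η₀ J) = C₀ exp ((hh + ε₁ log z - η₀) J)`; take
`ε₁ = η₀ / 2` (`0 < log z < 1`). -/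
def S_NB : Prop := ∃ δ ε₁ ε₂ η C : ℝ, 0 < δ ∧ δ ≤ 1 / 1000 ∧ 0 < ε₁ ∧ 0 < ε₂ ∧ ε₂ ≤ δ / 20000 ∧
  0 < η ∧ 0 < C ∧ ∀ J : ℕ, (((Blk J).filter fun m => (rho - ε₁) * J ≤ (odds m J : ℝ) ∧
    ((rho + ε₂) * J ≤ (odds m J : ℝ) ∨ (rho - 1 / 10000) * (⌊δ * J⌋₊ : ℝ) ≤
      (odds (T^[J] m) ⌊δ * J⌋₊ : ℝ))).card : ℝ) ≤ C * Real.exp ((hh - η) * J)

/-- ITEM Blk2 (medium). Follow `blk_le` (file Count). Indices `i ∈ [s,t)` with `m = T^[i] n` in the block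
`J`; `K = ⌊δ J⌋`. (0) `i + J + K ≥ t`: at most `J + K ≤ 2 J` indices. (1) `m` in the set of `S_NB`:
at most `C exp ((hh-η) J)` (injectivity). (2) `odds m J < (rho - ε₁) J`: `T^[i+J] n <
3 ^ (odds m J + 1)` (`iter_lt`) so `Nat.log 2 (T^[i+J] n) ≤ (1 - ε₁) J + 2`; as `i ↦ i + J` is
injective, at most `∑ blk` over lower blocks. (3) otherwise `odds m J < (rho + ε₂) J` and
`odds (T^[J] m) K < (rho - 1/10000) K`; with `y = T^[J] m < 3 ^ (odds m J + 1)` and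
`two_pow_mul_iter_le` for `y, K`: `T^[K] y ≤ 3 ^ odds y K * (y / 2 ^ K + 1)`,
`3 ^ odds y K ≤ 2 ^ K 3 ^ (-K/10000)`, so `T^[J+K] m ≤ 3 * 2 ^ J * 3 ^ (ε₂ J - K/10000) + 2 ^ K` and
`ε₂ J - K/10000 ≤ δ J/20000 - (δ J - 1)/10000`: `Nat.log 2 (T^[i+J+K] n) ≤ (1 - δ/20000) J + 4` or so
(`2 ^ K ≤ 2 ^ (J/1000)`), and `i ↦ i + J + K` is injective. -/
def S_Blk2 : Prop := ∃ q D η C : ℝ, 0 ≤ q ∧ q < 1 ∧ 0 ≤ D ∧ 0 < η ∧ 0 < C ∧ ∀ n s t : ℕ, 1 ≤ n →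
  Set.InjOn (fun i => T^[i] n) (Finset.Ico s t : Set ℕ) → ∀ J : ℕ,
    (blk n s t J : ℝ) ≤ C * Real.exp ((hh - η) * J) +
      2 * ∑ i ∈ Finset.range (⌊q * J + D⌋₊ + 1), (blk n s t i : ℝ) + 2 * J

/-- ITEM Grow2 (medium). Adapt `growth` (file Count): strong induction with
`∑ i ≤ q J + D, 2 C₁ exp (g i) ≤ C₁ exp (g J) / 3` for `J ≥ J₁`. -/
def S_Grow2 : Prop := ∀ q D h g C₀ : ℝ, 0 ≤ q → q < 1 → 0 ≤ D → 0 < g → h ≤ g → 0 < C₀ →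
  ∃ C : ℝ, 0 < C ∧ ∀ v : ℕ → ℝ, (∀ J, v J ≤ 2 ^ J) →
    (∀ J : ℕ, v J ≤ C₀ * Real.exp (h * J) +
      2 * ∑ i ∈ Finset.range (⌊q * J + D⌋₊ + 1), v i + 2 * J) →
    ∀ J : ℕ, v J ≤ C * Real.exp (g * J)

/-- ITEM Key2 (medium). Adapt `sum_inv_le` (file Key): by `S_Blk2`, `S_Grow2` with
`g = max (hh - η) (hh / 2)` (`hh > 0`), `h = hh - η`, every block has at most `C exp (g J)` indices;
`c = 1 - g / log 2 > cexp = 1 - hh / log 2` (`g < hh`; `c < 1` as `g > 0`). -/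
def S_Key2 : Prop := ∃ c : ℝ, cexp < c ∧ ∃ C : ℝ, 0 < C ∧ ∀ n s t m : ℕ, 1 ≤ n → 1 ≤ m →
  Set.InjOn (fun i => T^[i] n) (Finset.Ico s t : Set ℕ) →
  (∀ i ∈ Finset.Ico s t, m ≤ T^[i] n) →
  ∑ i ∈ Finset.Ico s t, 1 / (T^[i] n : ℝ) ≤ C * (m : ℝ) ^ (-c)

/-- ITEM FinB (medium). Adapt `main_ineq` (file Key) and `near_ineq` (file Near), using `S_Key2` in place
of `sum_inv_le` (the exponent `c` of `S_Key2` directly, no `c'`). For the second part use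
`exists_of_ne` (file Num). -/
def S_FinB : Prop := ∃ c : ℝ, 1 - Real.binEntropy (Real.log 2 / Real.log 3) / Real.log 2 < c ∧
  ∃ C : ℝ, ∀ n : ℕ, 2 ≤ n →
    (∀ j : ℕ, 1 ≤ j → (j : ℕ∞) < sigma n → (sigma n ≠ ⊤ ∨ (j : ℕ∞) ≤ kappa n) →
      j * Real.log 2 - odds n j * Real.log 3 ≤ C * (n : ℝ) ^ (-c)) ∧
    (kappa n ≠ sigma n → ∃ k : ℕ, kappa n = k ∧ 3 ^ odds n k < 2 ^ k ∧
      k * Real.log 2 - odds n k * Real.log 3 ≤ C * (n : ℝ) ^ (-c))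

end Pool.Agent.Work.MP_a11cf9_nt.Win
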