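import Mathlib
import Pool.Agent.Work.MP_a11cf9_nt.Win.Stmts

set_option autoImplicit false

section

namespace Pool.Agent.Work.MP_a11cf9_nt.Win

open Pool.Agent.Work.MP_a11cf9_nt

theorem pr_Aff : S_Aff := by
  intro x k
  induction k with
  | zero => simp [odds, rem]
  | succ k ih =>
    rw [Function.iterate_succ_apply', odds_succ]
    rcases Nat.mod_two_eq_zero_or_one (T^[k] x) with h | h
    · have hr : rem x (k + 1) = rem x k := by
        show (if T^[k] x % 2 = 1 then 3 * rem x k + 2 ^ k else rem x k) = rem x k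
        rw [if_neg (by omega)]
      rw [hr, h, add_zero, T_even h, ← ih, pow_succ, mul_assoc]
      congr 1
      omega
    · have hr : rem x (k + 1) = 3 * rem x k + 2 ^ k := by
        show (if T^[k] x % 2 = 1 then 3 * rem x k + 2 ^ k else rem x k) = 3 * rem x k + 2 ^ k
        rw [if_pos h]
      have h2 : 2 * ((3 * T^[k] x + 1) / 2) = 3 * T^[k] x + 1 := by omega
      rw [hr, h, T_odd h, pow_succ, mul_assoc, h2, pow_succ]
      calc 2 ^ k * (3 * T^[k] x + 1) = 3 * (2 ^ k * T^[k] x) + 2 ^ k := by ring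
        _ = 3 * (3 ^ odds x k * x + rem x k) + 2 ^ k := by rw [ih]
        _ = 3 ^ odds x k * 3 * x + (3 * rem x k + 2 ^ k) := by ring

end Pool.Agent.Work.MP_a11cf9_nt.Win

end

section

/-!
# Item RemLe (helper17)
-/


namespace Pool.Agent.Work.MP_a11cf9_nt.Win

open Pool.Agent.Work.MP_a11cf9_nt

theorem pr_RemLe : S_RemLe := by
  intro x k
  induction k with
  | zero => simp [rem]
  | succ k ih =>
    have h1 : 2 ^ k ≤ 3 ^ k := Nat.pow_le_pow_left (by norm_num) k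
    rw [rem, pow_succ, pow_succ]
    split_ifs <;> omega

end Pool.Agent.Work.MP_a11cf9_nt.Win

end

section

/-!
# `rem` of a sum
-/


namespace Pool.Agent.Work.MP_a11cf9_nt.Win

open Pool.Agent.Work.MP_a11cf9_nt

theorem pr_RemAdd : S_RemAdd := by
  intro x s t
  induction t with
  | zero => simp [rem, odds_zero]
  | succ t ih =>
    have e1 : s + (t + 1) = (s + t) + 1 := by ring
    have e2 : T^[s + t] x = T^[t] (T^[s] x) := by
      rw [← Function.iterate_add_apply, add_comm s t]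
    rw [e1]
    show (if T^[s + t] x % 2 = 1 then 3 * rem x (s + t) + 2 ^ (s + t) else rem x (s + t)) =
      3 ^ odds (T^[s] x) (t + 1) * rem x s + 2 ^ s *
        (if T^[t] (T^[s] x) % 2 = 1 then 3 * rem (T^[s] x) t + 2 ^ t else rem (T^[s] x) t)
    rw [e2, odds_succ]
    by_cases h : T^[t] (T^[s] x) % 2 = 1
    · rw [if_pos h, if_pos h, h, ih, pow_succ, pow_add]
      ring
    · have h0 : T^[t] (T^[s] x) % 2 = 0 := by omega
      rw [if_neg h, if_neg h, h0, ih, add_zero]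

end Pool.Agent.Work.MP_a11cf9_nt.Win

end

section

namespace Pool.Agent.Work.MP_a11cf9_nt.Win

open Pool.Agent.Work.MP_a11cf9_nt

theorem Shift_T_even (m s : ℕ) (h : m % 2 = 0) : T (m + 2 * s) = T m + s := by
  rw [T_even h, T_even (by omega)]
  omega

theorem Shift_T_odd (m s : ℕ) (h : m % 2 = 1) : T (m + 2 * s) = T m + 3 * s := by
  rw [T_odd h, T_odd (by omega)]
  omega

theorem pr_Shift : S_Shift := by
  intro x k
  induction k with
  | zero =>
    intro t
    refine ⟨?_, ?_, ?_, ?_⟩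
    · simp [odds_zero]
    · rw [odds_zero, odds_zero]
    · rfl
    · intro j hj
      exact absurd hj (Nat.not_lt_zero j)
  | succ k ih =>
    intro t
    obtain ⟨h1, h2, h3, h4⟩ := ih (2 * t)
    have hx : x + 2 ^ (k + 1) * t = x + 2 ^ k * (2 * t) := by ring
    rw [hx]
    have e : T^[k] (x + 2 ^ k * (2 * t)) = T^[k] x + 2 * (3 ^ odds x k * t) := by
      rw [h1]; ring
    have par : T^[k] (x + 2 ^ k * (2 * t)) % 2 = T^[k] x % 2 := by
      rw [e]; omega
    refine ⟨?_, ?_, ?_, ?_⟩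
    · rw [Function.iterate_succ_apply', Function.iterate_succ_apply', e, odds_succ]
      rcases Nat.mod_two_eq_zero_or_one (T^[k] x) with h | h
      · rw [Shift_T_even _ _ h, h, add_zero]
      · rw [Shift_T_odd _ _ h, h]
        ring
    · rw [odds_succ, odds_succ, h2, par]
    · show (if T^[k] (x + 2 ^ k * (2 * t)) % 2 = 1 then 3 * rem (x + 2 ^ k * (2 * t)) k + 2 ^ k
          else rem (x + 2 ^ k * (2 * t)) k) = (if T^[k] x % 2 = 1 then 3 * rem x k + 2 ^ k
          else rem x k)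
      rw [par, h3]
    · intro j hj
      rcases Nat.lt_succ_iff_lt_or_eq.1 hj with hj | rfl
      · exact h4 j hj
      · exact par

end Pool.Agent.Work.MP_a11cf9_nt.Win

end

section

namespace Pool.Agent.Work.MP_a11cf9_nt.Win

open Pool.Agent.Work.MP_a11cf9_nt

theorem pr_Inj (h1 : S_Aff) : S_Inj := by
  intro x y k ho hr
  have hx : 3 ^ odds x k * x + rem x k ≡ 3 ^ odds x k * y + rem x k [MOD 2 ^ k] := by
    have e1 : 2 ^ k ∣ 3 ^ odds x k * x + rem x k := ⟨_, (h1 x k).symm⟩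
    have e2 : 2 ^ k ∣ 3 ^ odds x k * y + rem x k := by
      rw [ho, hr]; exact ⟨_, (h1 y k).symm⟩
    exact ((Nat.modEq_zero_iff_dvd).2 e1).trans ((Nat.modEq_zero_iff_dvd).2 e2).symm
  have h2 : 3 ^ odds x k * x ≡ 3 ^ odds x k * y [MOD 2 ^ k] := Nat.ModEq.add_right_cancel' _ hx
  have hc : Nat.gcd (2 ^ k) (3 ^ odds x k) = 1 := by
    apply Nat.Coprime.pow
    norm_num
  exact Nat.ModEq.cancel_left_of_coprime hc h2

end Pool.Agent.Work.MP_a11cf9_nt.Win

end

section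

open Finset

namespace Pool.Agent.Work.MP_a11cf9_nt.Win

open Pool.Agent.Work.MP_a11cf9_nt

theorem Par_aux (x y k : ℕ) (h : ∀ j < k, T^[j] x % 2 = T^[j] y % 2) :
    odds x k = odds y k ∧ rem x k = rem y k := by
  induction k with
  | zero => exact ⟨by rw [odds_zero, odds_zero], rfl⟩
  | succ k ih =>
    obtain ⟨h1, h2⟩ := ih (fun j hj => h j (Nat.lt_succ_of_lt hj))
    have h3 := h k (Nat.lt_succ_self k)
    refine ⟨by rw [odds_succ, odds_succ, h1, h3], ?_⟩
    simp only [rem, h3, h2]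

theorem pr_Par (h1 : S_Shift) (h2 : S_Inj) : S_Par := by
  intro x y k
  constructor
  · intro h
    obtain ⟨h3, h4⟩ := Par_aux x y k h
    exact h2 x y k h3 h4
  · intro h j hj
    have hx := (h1 (x % 2 ^ k) k (x / 2 ^ k)).2.2.2 j hj
    have hy := (h1 (y % 2 ^ k) k (y / 2 ^ k)).2.2.2 j hj
    rw [Nat.mod_add_div] at hx hy
    rw [hx, hy, h]

end Pool.Agent.Work.MP_a11cf9_nt.Win

end

section

open Finset

namespace Pool.Agent.Work.MP_a11cf9_nt.Win

open Pool.Agent.Work.MP_a11cf9_nt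

theorem RemTyp_aux (x K : ℕ) (P : ℝ) (hP : 0 < P) (h : ∀ j ≤ K, (2 : ℝ) ^ j ≤ P * 3 ^ odds x j) :
    ∀ k ≤ K, (rem x k : ℝ) ≤ k * P * 3 ^ odds x k := by
  intro k
  induction k with
  | zero => intro _; simp [rem]
  | succ k ih =>
    intro hk
    have ih' := ih (by omega)
    have h2 := h k (by omega)
    have h3 : (0 : ℝ) < P * 3 ^ odds x k := by positivity
    rw [rem]
    by_cases ho : T^[k] x % 2 = 1
    · rw [if_pos ho, odds_succ, ho]
      push_cast
      rw [pow_succ]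
      nlinarith [h3, ih', h2]
    · have ho' : T^[k] x % 2 = 0 := by omega
      rw [if_neg ho, odds_succ, ho']
      push_cast
      rw [add_zero]
      nlinarith [h3, ih', h2]

theorem pr_RemTyp : S_RemTyp := by
  intro x K P hP h
  exact RemTyp_aux x K P hP h K le_rfl

end Pool.Agent.Work.MP_a11cf9_nt.Win

end

section

/-!
Item BlkInj: injectivity on the block.
-/


open Finset

namespace Pool.Agent.Work.MP_a11cf9_nt.Win

open Pool.Agent.Work.MP_a11cf9_nt

theorem pr_BlkInj (h1 : S_Par) : S_BlkInj := by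
  intro K L m m' hm hm' hK hL
  have hA := (h1 m m' K).2 hK
  have hB := (h1 (T^[K] m) (T^[K] m') L).2 hL
  have hC : ∀ j < K + L, T^[j] m % 2 = T^[j] m' % 2 := by
    intro j hj
    by_cases h : j < K
    · exact hA j h
    · obtain ⟨i, rfl⟩ := Nat.exists_eq_add_of_le (Nat.le_of_not_lt h)
      have h2 := hB i (by omega)
      rw [← Function.iterate_add_apply, ← Function.iterate_add_apply, Nat.add_comm i K] at h2
      exact h2
  have hD := (h1 m m' (K + L)).1 hC
  unfold Blk at hm hm'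
  rw [Finset.mem_Ico] at hm hm'
  generalize K + L = J at *
  rw [pow_succ] at hm hm'
  have e1 : m % 2 ^ J = m - 2 ^ J := by
    rw [Nat.mod_eq_sub_mod hm.1, Nat.mod_eq_of_lt (by omega)]
  have e2 : m' % 2 ^ J = m' - 2 ^ J := by
    rw [Nat.mod_eq_sub_mod hm'.1, Nat.mod_eq_of_lt (by omega)]
  omega

end Pool.Agent.Work.MP_a11cf9_nt.Win

end

section

open Finset

namespace Pool.Agent.Work.MP_a11cf9_nt.Win

open Pool.Agent.Work.MP_a11cf9_nt

theorem pr_BlkSum (h1 : S_BlkInj) : S_BlkSum := by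
  intro K L f g
  have hcard : (Blk (K + L)).card = (range (2 ^ K) ×ˢ range (2 ^ L)).card := by
    unfold Blk
    rw [Nat.card_Ico, card_product, card_range, card_range, pow_succ, pow_add]
    omega
  have hmaps : ∀ m ∈ Blk (K + L), (m % 2 ^ K, T^[K] m % 2 ^ L) ∈
      range (2 ^ K) ×ˢ range (2 ^ L) := by
    intro m _
    rw [mem_product, mem_range, mem_range]
    exact ⟨Nat.mod_lt _ (by positivity), Nat.mod_lt _ (by positivity)⟩
  have hinj : Set.InjOn (fun m => (m % 2 ^ K, T^[K] m % 2 ^ L))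
      (Blk (K + L) : Set ℕ) := by
    intro m hm m' hm' he
    simp only [Prod.mk.injEq] at he
    exact h1 K L m m' (by exact_mod_cast hm) (by exact_mod_cast hm') he.1 he.2
  have himg : (Blk (K + L)).image (fun m => (m % 2 ^ K, T^[K] m % 2 ^ L)) =
      range (2 ^ K) ×ˢ range (2 ^ L) := by
    apply eq_of_subset_of_card_le
    · intro p hp
      rw [mem_image] at hp
      obtain ⟨m, hm, rfl⟩ := hp
      exact hmaps m hm
    · rw [card_image_of_injOn hinj, hcard]
  rw [sum_mul_sum, ← sum_product', ← himg, sum_image hinj]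

end Pool.Agent.Work.MP_a11cf9_nt.Win

end

section

/-!
# Two: differences of the end values
-/


open Finset

namespace Pool.Agent.Work.MP_a11cf9_nt.Win

open Pool.Agent.Work.MP_a11cf9_nt

theorem Two_rem_mod (h2 : S_Shift) (x L : ℕ) : rem x L = rem (x % 2 ^ L) L := by
  have h := (h2 (x % 2 ^ L) L (x / 2 ^ L)).2.2.1
  rwa [Nat.mod_add_div] at h

theorem Two_eq (K L m m' : ℕ) (hm : m ∈ Blk (K + L)) (hm' : m' ∈ Blk (K + L))
    (h : m % 2 ^ K = m' % 2 ^ K) (hle : m' ≤ m) : ∃ e : ℕ, e < 2 ^ L ∧ m = m' + 2 ^ K * e := by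
  have h1 : 2 ^ K ∣ m - m' := (Nat.modEq_iff_dvd' hle).mp h.symm
  obtain ⟨e, he⟩ := h1
  refine ⟨e, ?_, by omega⟩
  unfold Blk at hm hm'
  rw [mem_Ico] at hm hm'
  by_contra hcon
  push Not at hcon
  have h2 : 2 ^ (K + L) ≤ 2 ^ K * e := by
    rw [pow_add]
    exact Nat.mul_le_mul_left _ hcon
  have h3 : 2 ^ (K + L + 1) = 2 * 2 ^ (K + L) := by rw [pow_succ]; ring
  omega

theorem pr_Two (h1 : S_Aff) (h2 : S_Shift) : S_Two := by
  intro K L m m' n n' hm hm' hn hn' hmm hnn hmn hmn' ho hb hle hle'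
  obtain ⟨e, he, rfl⟩ := Two_eq K L m m' hm hm' hmm hle
  obtain ⟨f, hf, rfl⟩ := Two_eq K L n n' hn hn' hnn hle'
  obtain ⟨a1, a2, -, -⟩ := h2 m' K e
  obtain ⟨c1, c2, -, -⟩ := h2 n' K f
  have ha : odds n' K = odds m' K := by rw [← c2, ← ho, a2]
  rw [ha] at c1
  have hef : e = f := by
    have h3 : T^[K] m' + 3 ^ odds m' K * e ≡ T^[K] n' + 3 ^ odds m' K * f [MOD 2 ^ L] := by
      rw [← a1, ← c1]
      exact hmn
    have h4 : 3 ^ odds m' K * e ≡ 3 ^ odds m' K * f [MOD 2 ^ L] :=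
      Nat.ModEq.add_left_cancel hmn' h3
    have h5 : e ≡ f [MOD 2 ^ L] := by
      refine Nat.ModEq.cancel_left_of_coprime ?_ h4
      exact Nat.Coprime.pow _ _ (by norm_num)
    have h6 := h5
    unfold Nat.ModEq at h6
    rwa [Nat.mod_eq_of_lt he, Nat.mod_eq_of_lt hf] at h6
  subst hef
  have hk : ∀ x : ℕ, T^[K + L] x = T^[L] (T^[K] x) := by
    intro x
    rw [Nat.add_comm K L, Function.iterate_add_apply]
  have b1 := h1 (T^[K] (m' + 2 ^ K * e)) L
  have b2 := h1 (T^[K] m') L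
  have b3 := h1 (T^[K] (n' + 2 ^ K * e)) L
  have b4 := h1 (T^[K] n') L
  have o1 : odds (T^[K] (n' + 2 ^ K * e)) L = odds (T^[K] m') L := by
    rw [← odds_mod L (T^[K] (n' + 2 ^ K * e)), ← hmn, odds_mod, hb]
  have o2 : odds (T^[K] n') L = odds (T^[K] m') L := by
    rw [← odds_mod L (T^[K] n'), ← hmn', odds_mod]
  have r1 : rem (T^[K] (n' + 2 ^ K * e)) L = rem (T^[K] (m' + 2 ^ K * e)) L := by
    rw [Two_rem_mod h2 (T^[K] (n' + 2 ^ K * e)), ← hmn, ← Two_rem_mod h2]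
  have r2 : rem (T^[K] n') L = rem (T^[K] m') L := by
    rw [Two_rem_mod h2 (T^[K] n'), ← hmn', ← Two_rem_mod h2]
  rw [hb] at b1
  rw [o1, r1] at b3
  rw [o2, r2] at b4
  rw [← hk] at b1 b2 b3 b4
  have p : (2 ^ L : ℤ) ≠ 0 := by positivity
  apply mul_left_cancel₀ p
  have b1' : (2 ^ L : ℤ) * (T^[K + L] (m' + 2 ^ K * e) : ℤ) =
      3 ^ odds (T^[K] m') L * (T^[K] (m' + 2 ^ K * e) : ℤ) + (rem (T^[K] (m' + 2 ^ K * e)) L : ℤ) := by
    exact_mod_cast b1
  have b2' : (2 ^ L : ℤ) * (T^[K + L] m' : ℤ) =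
      3 ^ odds (T^[K] m') L * (T^[K] m' : ℤ) + (rem (T^[K] m') L : ℤ) := by
    exact_mod_cast b2
  have b3' : (2 ^ L : ℤ) * (T^[K + L] (n' + 2 ^ K * e) : ℤ) =
      3 ^ odds (T^[K] m') L * (T^[K] (n' + 2 ^ K * e) : ℤ) + (rem (T^[K] (m' + 2 ^ K * e)) L : ℤ) := by
    exact_mod_cast b3
  have b4' : (2 ^ L : ℤ) * (T^[K + L] n' : ℤ) =
      3 ^ odds (T^[K] m') L * (T^[K] n' : ℤ) + (rem (T^[K] m') L : ℤ) := by
    exact_mod_cast b4
  have a1' : (T^[K] (m' + 2 ^ K * e) : ℤ) = (T^[K] m' : ℤ) + 3 ^ odds m' K * e := by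
    exact_mod_cast a1
  have c1' : (T^[K] (n' + 2 ^ K * e) : ℤ) = (T^[K] n' : ℤ) + 3 ^ odds m' K * e := by
    exact_mod_cast c1
  rw [mul_sub, mul_sub, b1', b2', b3', b4', a1', c1']
  ring

end Pool.Agent.Work.MP_a11cf9_nt.Win

end

section

open Finset

namespace Pool.Agent.Work.MP_a11cf9_nt.Win

open Pool.Agent.Work.MP_a11cf9_nt

/-- the affine formula for an element of the fibre -/
theorem Mult_aff (h1 : S_Aff) (h2 : S_RemAdd) (h4 : S_Shift) (K L m : ℕ) :
    2 ^ (K + L) * T^[K + L] m =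
      3 ^ odds (T^[K] m % 2 ^ L) L * (3 ^ odds m K * m + rem m K) +
        2 ^ K * rem (T^[K] m % 2 ^ L) L := by
  have hx : T^[K] m = T^[K] m % 2 ^ L + 2 ^ L * (T^[K] m / 2 ^ L) :=
    (Nat.mod_add_div _ _).symm
  have hs := h4 (T^[K] m % 2 ^ L) L (T^[K] m / 2 ^ L)
  rw [← hx] at hs
  obtain ⟨-, ho, hr, -⟩ := hs
  rw [h1 m (K + L), h2 m K L, odds_add, ho, hr, pow_add]
  ring

/-- divisibility -/
theorem Mult_dvd (h1 : S_Aff) (h2 : S_RemAdd) (h4 : S_Shift) (K L a m m' : ℕ)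
    (ha : odds m K = a) (ha' : odds m' K = a) (hs : T^[K] m % 2 ^ L = T^[K] m' % 2 ^ L)
    (hy : T^[K + L] m % 2 ^ K = T^[K + L] m' % 2 ^ K) :
    (2 : ℤ) ^ (K + L + K) ∣ ((3 : ℤ) ^ a * m + rem m K) - ((3 : ℤ) ^ a * m' + rem m' K) := by
  have e1 := Mult_aff h1 h2 h4 K L m
  have e2 := Mult_aff h1 h2 h4 K L m'
  rw [hs, ha] at e1
  rw [ha'] at e2
  have e1' : (2 : ℤ) ^ (K + L) * (T^[K + L] m : ℤ) =
      3 ^ odds (T^[K] m' % 2 ^ L) L * (3 ^ a * m + rem m K) +
        2 ^ K * rem (T^[K] m' % 2 ^ L) L := by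
    exact_mod_cast e1
  have e2' : (2 : ℤ) ^ (K + L) * (T^[K + L] m' : ℤ) =
      3 ^ odds (T^[K] m' % 2 ^ L) L * (3 ^ a * m' + rem m' K) +
        2 ^ K * rem (T^[K] m' % 2 ^ L) L := by
    exact_mod_cast e2
  have hd : (2 : ℤ) ^ K ∣ (T^[K + L] m : ℤ) - T^[K + L] m' := by
    have h : (T^[K + L] m' : ℤ) ≡ T^[K + L] m [ZMOD ((2 ^ K : ℕ) : ℤ)] := by
      rw [Int.natCast_modEq_iff]
      exact hy.symm
    have := h.dvd
    push_cast at this
    exact this
  have hmul : (2 : ℤ) ^ (K + L + K) ∣ 3 ^ odds (T^[K] m' % 2 ^ L) L *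
      (((3 : ℤ) ^ a * m + rem m K) - ((3 : ℤ) ^ a * m' + rem m' K)) := by
    obtain ⟨c, hc⟩ := hd
    refine ⟨c, ?_⟩
    rw [pow_add, mul_assoc, ← hc, mul_sub, mul_sub, e1', e2']
    ring
  refine IsCoprime.dvd_of_dvd_mul_left ?_ hmul
  refine IsCoprime.pow ?_
  exact ⟨-1, 1, by norm_num⟩

/-- bound for the remainder -/
theorem Mult_rem_lt (h3 : S_RemLe) (K L m : ℕ) : (rem m K : ℝ) < 2 ^ (K + L + K) := by
  have h : rem m K < 2 ^ (K + L + K) := by
    have h0 := h3 m K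
    have h5 : 0 < 2 ^ K := by positivity
    have h6 : 3 ^ K ≤ 4 ^ K := Nat.pow_le_pow_left (by norm_num) K
    have h7 : 4 ^ K = 2 ^ (K + K) := by
      rw [← two_mul, pow_mul]
      norm_num
    have h8 : 2 ^ (K + K) ≤ 2 ^ (K + L + K) := Nat.pow_le_pow_right (by norm_num) (by omega)
    omega
  exact_mod_cast h

/-- the integer `G` is small -/
theorem Mult_G (h3 : S_RemLe) (K L a m m' : ℕ) (P : ℝ) (hP : 1 ≤ P)
    (hm : m ∈ Blk (K + L)) (hm' : m' ∈ Blk (K + L)) (h3a : (3 : ℝ) ^ a ≤ P * 2 ^ K) (G : ℤ)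
    (hG : ((3 : ℤ) ^ a * m + rem m K) - ((3 : ℤ) ^ a * m' + rem m' K) = 2 ^ (K + L + K) * G) :
    |(G : ℝ)| < P + 1 := by
  have hG' : ((3 : ℝ) ^ a * m + rem m K) - ((3 : ℝ) ^ a * m' + rem m' K) =
      2 ^ (K + L + K) * (G : ℝ) := by
    exact_mod_cast hG
  have r1 := Mult_rem_lt h3 K L m
  have r2 := Mult_rem_lt h3 K L m'
  have r1' : (0 : ℝ) ≤ rem m K := Nat.cast_nonneg _
  have r2' : (0 : ℝ) ≤ rem m' K := Nat.cast_nonneg _
  rw [Blk, mem_Ico] at hm hm'
  have b1 : (2 : ℝ) ^ (K + L) ≤ m := by exact_mod_cast hm.1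
  have b2 : (m : ℝ) < 2 ^ (K + L + 1) := by exact_mod_cast hm.2
  have b1' : (2 : ℝ) ^ (K + L) ≤ m' := by exact_mod_cast hm'.1
  have b2' : (m' : ℝ) < 2 ^ (K + L + 1) := by exact_mod_cast hm'.2
  have hd : |(m : ℝ) - m'| ≤ 2 ^ (K + L) := by
    rw [pow_succ] at b2 b2'
    rw [abs_le]
    constructor <;> linarith
  have hr : |(rem m K : ℝ) - rem m' K| < 2 ^ (K + L + K) := by
    rw [abs_lt]
    constructor <;> linarith
  have hp : (0 : ℝ) < 2 ^ (K + L + K) := by positivity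
  have h0 : 2 ^ (K + L + K) * |(G : ℝ)| < (P + 1) * 2 ^ (K + L + K) := by
    have : 2 ^ (K + L + K) * |(G : ℝ)| =
        |(3 : ℝ) ^ a * ((m : ℝ) - m') + ((rem m K : ℝ) - rem m' K)| := by
      rw [show (3 : ℝ) ^ a * ((m : ℝ) - m') + ((rem m K : ℝ) - rem m' K) =
        2 ^ (K + L + K) * (G : ℝ) by rw [← hG']; ring, abs_mul, abs_of_pos hp]
    rw [this]
    calc |(3 : ℝ) ^ a * ((m : ℝ) - m') + ((rem m K : ℝ) - rem m' K)|
        ≤ |(3 : ℝ) ^ a * ((m : ℝ) - m')| + |(rem m K : ℝ) - rem m' K| := abs_add_le _ _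
      _ < (P * 2 ^ K) * 2 ^ (K + L) + 2 ^ (K + L + K) := by
          refine add_lt_add_of_le_of_lt ?_ hr
          rw [abs_mul, abs_of_nonneg (by positivity : (0 : ℝ) ≤ 3 ^ a)]
          exact mul_le_mul h3a hd (abs_nonneg _) (by positivity)
      _ = (P + 1) * 2 ^ (K + L + K) := by
          rw [pow_add 2 (K + L) K]
          ring
  have h9 : |(G : ℝ)| * 2 ^ (K + L + K) < (P + 1) * 2 ^ (K + L + K) := by
    rw [mul_comm]
    exact h0
  exact lt_of_mul_lt_mul_right h9 hp.le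

theorem pr_Mult (h1 : S_Aff) (h2 : S_RemAdd) (h3 : S_RemLe) (h4 : S_Shift) (h5 : S_Inj)
    (h6 : S_RemTyp) (h7 : S_BlkInj) : S_Mult := by
  classical
  intro K L l P a s y hP
  have hP0 : 0 < P := by linarith
  have hrhs : (0 : ℝ) ≤ (2 * P + 3) * (K * P + 1) := by positivity
  rcases (Fib2 K L l P a s y).eq_empty_or_nonempty with he | ⟨m', hm'⟩
  · rw [he]
    simpa using hrhs
  have memF : ∀ m, m ∈ Fib2 K L l P a s y ↔ m ∈ Blk (K + L) ∧ Typ K l P m ∧ odds m K = a ∧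
      T^[K] m % 2 ^ L = s ∧ T^[K + L] m % 2 ^ K = y := by
    intro m
    rw [Fib2, mem_filter]
  obtain ⟨hb', ht', ha', hs', hy'⟩ := (memF m').1 hm'
  -- the map
  have hex : ∀ m, m ∈ Fib2 K L l P a s y → ∃ G : ℤ,
      ((3 : ℤ) ^ a * m + rem m K) - ((3 : ℤ) ^ a * m' + rem m' K) = 2 ^ (K + L + K) * G := by
    intro m hm
    obtain ⟨hb, ht, ha, hs, hy⟩ := (memF m).1 hm
    exact Mult_dvd h1 h2 h4 K L a m m' ha ha' (hs.trans hs'.symm) (hy.trans hy'.symm)
  choose! G hG using hex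
  set n : ℕ := ⌊P + 1⌋₊ with hn
  have hnle : (n : ℝ) ≤ P + 1 := Nat.floor_le (by linarith)
  have hnlt : P + 1 < n + 1 := Nat.lt_floor_add_one _
  set q : ℕ := ⌊K * P⌋₊ with hq
  have hqle : (q : ℝ) ≤ K * P := Nat.floor_le (by positivity)
  have hcard : (Fib2 K L l P a s y).card ≤
      ((Icc (-(n : ℤ)) n) ×ˢ (range (q + 1))).card := by
    refine card_le_card_of_injOn (fun m => (G m, rem m K / 3 ^ a)) ?_ ?_
    · intro m hm
      have hm : m ∈ Fib2 K L l P a s y := hm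
      obtain ⟨hb, ht, ha, hs, hy⟩ := (memF m).1 hm
      have h3a : (3 : ℝ) ^ a ≤ P * 2 ^ K := by
        rw [← ha]
        exact ht.2.1
      have hlt := Mult_G h3 K L a m m' P hP hb hb' h3a (G m) (hG m hm)
      have hlt2 : |(G m : ℝ)| < ((n + 1 : ℤ) : ℝ) := by
        push_cast
        linarith
      rw [← Int.cast_abs, Int.cast_lt, abs_lt] at hlt2
      have hr := h6 m K P hP0 ht.1
      rw [ha] at hr
      have hdiv : rem m K / 3 ^ a ≤ q := by
        rw [hq, Nat.le_floor_iff (by positivity)]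
        have h3 : (0 : ℝ) < 3 ^ a := by positivity
        have h4 : ((rem m K / 3 ^ a : ℕ) : ℝ) ≤ (rem m K : ℝ) / ((3 ^ a : ℕ) : ℝ) :=
          Nat.cast_div_le
        refine h4.trans ?_
        push_cast
        rw [div_le_iff₀ h3]
        exact hr
      simp only [coe_product, Set.mem_prod, mem_coe, mem_Icc, mem_range]
      refine ⟨⟨by omega, by omega⟩, by omega⟩
    · intro m₁ hm₁ m₂ hm₂ heq
      have hm₁ : m₁ ∈ Fib2 K L l P a s y := hm₁
      have hm₂ : m₂ ∈ Fib2 K L l P a s y := hm₂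
      obtain ⟨hb₁, ht₁, ha₁, hs₁, hy₁⟩ := (memF m₁).1 hm₁
      obtain ⟨hb₂, ht₂, ha₂, hs₂, hy₂⟩ := (memF m₂).1 hm₂
      have hG1 : G m₁ = G m₂ := (Prod.mk.inj heq).1
      have hq1 : rem m₁ K / 3 ^ a = rem m₂ K / 3 ^ a := (Prod.mk.inj heq).2
      have e1 := hG m₁ hm₁
      have e2 := hG m₂ hm₂
      rw [hG1, ← e2] at e1
      have e3 : (3 : ℤ) ^ a * m₁ + rem m₁ K = (3 : ℤ) ^ a * m₂ + rem m₂ K := by linarith
      have e4 : 3 ^ a * m₁ + rem m₁ K = 3 ^ a * m₂ + rem m₂ K := by exact_mod_cast e3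
      have e5 : rem m₁ K % 3 ^ a = rem m₂ K % 3 ^ a := by
        have e6 : (3 ^ a * m₁ + rem m₁ K) % 3 ^ a = (3 ^ a * m₂ + rem m₂ K) % 3 ^ a := by
          rw [e4]
        rwa [Nat.mul_add_mod, Nat.mul_add_mod] at e6
      have e7 : rem m₁ K = rem m₂ K := by
        rw [← Nat.div_add_mod (rem m₁ K) (3 ^ a), ← Nat.div_add_mod (rem m₂ K) (3 ^ a), hq1, e5]
      exact h7 K L m₁ m₂ hb₁ hb₂ (h5 m₁ m₂ K (ha₁.trans ha₂.symm) e7) (hs₁.trans hs₂.symm)
  have hc2 : ((Icc (-(n : ℤ)) n) ×ˢ (range (q + 1))).card = (2 * n + 1) * (q + 1) := by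
    rw [card_product, Int.card_Icc, card_range]
    congr 1
    omega
  rw [hc2] at hcard
  calc ((Fib2 K L l P a s y).card : ℝ) ≤ (((2 * n + 1) * (q + 1) : ℕ) : ℝ) := by
        exact_mod_cast hcard
    _ = (2 * n + 1) * (q + 1) := by push_cast; ring
    _ ≤ (2 * P + 3) * (K * P + 1) := by
        refine mul_le_mul (by linarith) (by linarith) (by positivity) (by positivity)

end Pool.Agent.Work.MP_a11cf9_nt.Win

end

section

open Finset

namespace Pool.Agent.Work.MP_a11cf9_nt.Win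

open Pool.Agent.Work.MP_a11cf9_nt

theorem pr_SabLe (h1 : S_BlkInj) : S_SabLe := by
  classical
  intro K L l P g a b
  rw [← card_product]
  refine card_le_card_of_injOn (fun m => (m % 2 ^ K, T^[K] m % 2 ^ L)) ?_ ?_
  · intro m hm
    have hm' := hm
    unfold Sab at hm'
    rw [mem_coe, mem_filter] at hm'
    obtain ⟨hB, -, ha, hb, -⟩ := hm'
    rw [mem_coe, mem_product]
    unfold Wt
    rw [mem_filter, mem_filter, mem_range, mem_range]
    refine ⟨⟨Nat.mod_lt _ (by positivity), ?_⟩, ⟨Nat.mod_lt _ (by positivity), ?_⟩⟩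
    · show odds (m % 2 ^ K) K = a
      rw [odds_mod, ha]
    · show odds (T^[K] m % 2 ^ L) L = b
      rw [odds_mod, hb]
  · intro m hm m' hm' hmm
    unfold Sab at hm hm'
    rw [mem_coe, mem_filter] at hm hm'
    have h2 := Prod.mk.inj hmm
    exact h1 K L m m' hm.1 hm'.1 h2.1 h2.2

end Pool.Agent.Work.MP_a11cf9_nt.Win

end

section

open Finset

namespace Pool.Agent.Work.MP_a11cf9_nt.Win

open Pool.Agent.Work.MP_a11cf9_nt

theorem pr_CSa : S_CSa := by
  intro S K a hS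
  have hmap : ∀ m ∈ S, m % 2 ^ K ∈ Wt K a := by
    intro m hm
    simp only [Wt, mem_filter, mem_range]
    exact ⟨Nat.mod_lt _ (by positivity), by rw [odds_mod]; exact hS m hm⟩
  have h1 : S.card = ∑ u ∈ Wt K a, (S.filter fun m => m % 2 ^ K = u).card :=
    Finset.card_eq_sum_card_fiberwise hmap
  have h2 : ((S ×ˢ S).filter fun p => p.1 % 2 ^ K = p.2 % 2 ^ K).card
      = ∑ u ∈ Wt K a, (S.filter fun m => m % 2 ^ K = u).card ^ 2 := by
    rw [Finset.card_eq_sum_card_fiberwise (f := fun p : ℕ × ℕ => p.1 % 2 ^ K) (t := Wt K a)]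
    · refine Finset.sum_congr rfl fun u _ => ?_
      rw [sq, ← Finset.card_product]
      congr 1
      ext p
      simp only [mem_filter, mem_product]
      constructor
      · rintro ⟨⟨⟨h1, h2⟩, h3⟩, h4⟩
        exact ⟨⟨h1, h4⟩, ⟨h2, h3 ▸ h4⟩⟩
      · rintro ⟨⟨h1, h2⟩, ⟨h3, h4⟩⟩
        exact ⟨⟨⟨h1, h3⟩, h2.trans h4.symm⟩, h2⟩
    · intro p hp
      have hp' := hp
      simp only [coe_filter, mem_product, Set.mem_ofPred_eq] at hp'
      exact hmap _ hp'.1.1
  rw [h1, h2]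
  exact sq_sum_le_card_mul_sum_sq

end Pool.Agent.Work.MP_a11cf9_nt.Win

end

section

open Finset

namespace Pool.Agent.Work.MP_a11cf9_nt.Win

open Pool.Agent.Work.MP_a11cf9_nt

theorem pr_Wt : S_Wt := by
  intro z K a hz
  calc ((Wt K a).card : ℝ) * z ^ a = ∑ x ∈ Wt K a, z ^ odds x K := by
        rw [sum_congr rfl (g := fun _ => z ^ a), sum_const, nsmul_eq_mul]
        intro x hx
        unfold Wt at hx
        rw [mem_filter] at hx
        rw [hx.2]
    _ ≤ ∑ x ∈ range (2 ^ K), z ^ odds x K := by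
        apply sum_le_sum_of_subset_of_nonneg
        · exact filter_subset _ _
        · intro i _ _
          positivity
    _ = (1 + z) ^ K := by
        rw [sum_pow_odds]

end Pool.Agent.Work.MP_a11cf9_nt.Win

end

section

open Finset

namespace Pool.Agent.Work.MP_a11cf9_nt.Win

open Pool.Agent.Work.MP_a11cf9_nt

theorem CorrSum_succ (x y K : ℕ) : ham x y (K + 1) =
    ham x y K + if T^[K] x % 2 ≠ T^[K] y % 2 then 1 else 0 := by
  unfold ham
  rw [Finset.range_add_one, Finset.filter_insert]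
  split_ifs with h
  · rw [Finset.card_insert_of_notMem]
    simp
  · rfl

theorem CorrSum_congr (x x' y y' K : ℕ) (h : ∀ j < K, T^[j] x % 2 = T^[j] x' % 2)
    (h' : ∀ j < K, T^[j] y % 2 = T^[j] y' % 2) : ham x y K = ham x' y' K := by
  unfold ham
  congr 1
  apply Finset.filter_congr
  intro j hj
  rw [h j (Finset.mem_range.mp hj), h' j (Finset.mem_range.mp hj)]

theorem pr_CorrSum (h1 : S_Shift) : S_CorrSum := by
  intro w c D K hwc
  induction K with
  | zero => simp [ham, odds_zero]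
  | succ K ih =>
    rw [pow_succ, pow_succ, mul_two, Finset.sum_range_add, ← ih, Finset.sum_mul,
      ← Finset.sum_add_distrib]
    refine Finset.sum_congr rfl fun y _ => ?_
    obtain ⟨e1, e2, -, e4⟩ := h1 y K 1
    obtain ⟨f1, f2, -, f4⟩ := h1 (y + D) K 1
    rw [mul_one] at e1 e2 e4 f1 f2 f4
    rw [mul_one] at e1 f1
    have hc1 : 2 ^ K + y = y + 2 ^ K := add_comm _ _
    have hc2 : y + 2 ^ K + D = y + D + 2 ^ K := by ring
    have e5 : ham (y + 2 ^ K) (y + D + 2 ^ K) K = ham y (y + D) K :=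
      CorrSum_congr _ _ _ _ _ e4 f4
    rw [hc1, hc2, CorrSum_succ, CorrSum_succ, e5, odds_succ, odds_succ, odds_succ, odds_succ, e2, f2,
      e1, f1]
    have e6 : (3 ^ odds y K) % 2 = 1 := Nat.odd_iff.mp (Odd.pow (by decide))
    have f6 : (3 ^ odds (y + D) K) % 2 = 1 := Nat.odd_iff.mp (Odd.pow (by decide))
    have e7 : (T^[K] y + 3 ^ odds y K) % 2 = (T^[K] y % 2 + 1) % 2 := by omega
    have f7 : (T^[K] (y + D) + 3 ^ odds (y + D) K) % 2 = (T^[K] (y + D) % 2 + 1) % 2 := by omega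
    rw [e7, f7]
    have key : ∀ A B H : ℕ, w ^ (A + B) * c ^ H * (1 + w ^ 2) = w ^ (A + B) * c ^ H * (2 * w * c) :=
      fun A B H => by rw [hwc]
    rcases Nat.mod_two_eq_zero_or_one (T^[K] y) with h | h <;>
      rcases Nat.mod_two_eq_zero_or_one (T^[K] (y + D)) with h' | h'
    · simp only [h, h']
      norm_num
      ring
    · simp only [h, h']
      norm_num
      rw [key]
      ring
    · simp only [h, h']
      norm_num
      rw [key]
      ring
    · simp only [h, h']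
      norm_num
      ring

end Pool.Agent.Work.MP_a11cf9_nt.Win

end

section

open Finset

namespace Pool.Agent.Work.MP_a11cf9_nt.Win

open Pool.Agent.Work.MP_a11cf9_nt

theorem pr_Corr (h1 : S_CorrSum) : S_Corr := by
  intro w K D g h hw
  have hw0 : 0 < w := by linarith
  obtain ⟨c, hc⟩ : ∃ c : ℝ, c = (1 + w ^ 2) / (2 * w) := ⟨_, rfl⟩
  have hc1 : 1 ≤ c := by
    rw [hc, le_div_iff₀ (by positivity)]
    nlinarith [sq_nonneg (w - 1)]
  have hc0 : 0 < c := by linarith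
  have hs := h1 w c D K (by rw [hc]; field_simp)
  rw [← hs, ← hc]
  calc ((CorrSet K D g h).card : ℝ) * (w ^ (2 * g) * c ^ h)
      = ∑ y ∈ CorrSet K D g h, (w ^ (2 * g) * c ^ h) := by rw [Finset.sum_const, nsmul_eq_mul]
    _ ≤ ∑ y ∈ CorrSet K D g h, w ^ (odds y K + odds (y + D) K) * c ^ ham y (y + D) K := by
        apply Finset.sum_le_sum
        intro y hy
        simp only [CorrSet, Finset.mem_filter] at hy
        obtain ⟨_, h2, h3, h4⟩ := hy
        apply mul_le_mul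
        · exact pow_le_pow_right₀ hw (by omega)
        · exact pow_le_pow_right₀ hc1 h4
        · positivity
        · positivity
    _ ≤ _ := Finset.sum_le_sum_of_subset_of_nonneg (Finset.filter_subset _ _)
        (fun y _ _ => by positivity)

end Pool.Agent.Work.MP_a11cf9_nt.Win

end

section

/-!
# Item BallSum (MP_a11cf9, Win)
-/


open Finset

namespace Pool.Agent.Work.MP_a11cf9_nt.Win

open Pool.Agent.Work.MP_a11cf9_nt

theorem BallSum_succ (x y K : ℕ) : ham x y (K + 1) =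
    ham x y K + if T^[K] x % 2 ≠ T^[K] y % 2 then 1 else 0 := by
  unfold ham
  rw [Finset.range_add_one, Finset.filter_insert]
  split_ifs with h
  · rw [Finset.card_insert_of_notMem]
    simp
  · rfl

theorem BallSum_congr (x y y' K : ℕ) (h : ∀ j < K, T^[j] y % 2 = T^[j] y' % 2) :
    ham x y K = ham x y' K := by
  unfold ham
  congr 1
  apply Finset.filter_congr
  intro j hj
  rw [h j (Finset.mem_range.mp hj)]

theorem pr_BallSum (h1 : S_Shift) : S_BallSum := by
  intro t x K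
  induction K with
  | zero => simp [ham]
  | succ K ih =>
    rw [pow_succ, pow_succ, mul_two, Finset.sum_range_add, ← ih, Finset.sum_mul,
      ← Finset.sum_add_distrib]
    refine Finset.sum_congr rfl fun y _ => ?_
    obtain ⟨e1, -, -, e4⟩ := h1 y K 1
    rw [mul_one] at e1 e4
    rw [mul_one] at e1
    have e5 : ham x (2 ^ K + y) K = ham x y K := by
      apply BallSum_congr
      intro j hj
      rw [add_comm]
      exact e4 j hj
    rw [BallSum_succ, BallSum_succ, e5, add_comm (2 ^ K) y, e1]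
    have e6 : (3 ^ odds y K) % 2 = 1 := Nat.odd_iff.mp (Odd.pow (by decide))
    have e7 : (T^[K] y + 3 ^ odds y K) % 2 = (T^[K] y % 2 + 1) % 2 := by omega
    rw [e7, pow_add, pow_add, ← mul_add]
    congr 1
    rcases Nat.mod_two_eq_zero_or_one (T^[K] x) with h | h <;>
      rcases Nat.mod_two_eq_zero_or_one (T^[K] y) with h' | h' <;> simp [h, h', add_comm]

end Pool.Agent.Work.MP_a11cf9_nt.Win

end

section

open Finset

namespace Pool.Agent.Work.MP_a11cf9_nt.Win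

theorem pr_Ball (h1 : S_BallSum) : S_Ball := by
  intro t K h x ht0 ht1
  rw [← h1 t x K]
  calc ((Ball K h x).card : ℝ) * t ^ h = ∑ _y ∈ Ball K h x, t ^ h := by
        rw [sum_const, nsmul_eq_mul]
    _ ≤ ∑ y ∈ Ball K h x, t ^ ham x y K := by
        refine sum_le_sum fun y hy => ?_
        unfold Ball at hy
        rw [mem_filter] at hy
        exact pow_le_pow_of_le_one ht0.le ht1 hy.2.le
    _ ≤ ∑ y ∈ range (2 ^ K), t ^ ham x y K :=
        sum_le_sum_of_subset_of_nonneg (filter_subset _ _) fun _ _ _ => by positivity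

end Pool.Agent.Work.MP_a11cf9_nt.Win

end

section

open Finset

namespace Pool.Agent.Work.MP_a11cf9_nt.Win

open Pool.Agent.Work.MP_a11cf9_nt

theorem Near_ham (h1 : S_Par) (x y K : ℕ) : ham x (y % 2 ^ K) K = ham x y K := by
  have h2 := (h1 y (y % 2 ^ K) K).2 (by rw [Nat.mod_mod])
  unfold ham
  congr 1
  refine Finset.filter_congr fun j hj => ?_
  rw [h2 j (mem_range.1 hj)]

theorem pr_Near (h1 : S_Par) : S_Near := by
  intro K L l P g h a b Bm Sp hBm hSp hB hF
  classical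
  set S := Sab K L l P g a b with hS
  set Q := (S ×ˢ S).filter fun p => p.1 % 2 ^ K = p.2 % 2 ^ K ∧
    ham (T^[K + L] p.1) (T^[K + L] p.2) K < h with hQ
  have hone : ∀ m ∈ S, ((S.filter fun m' => m % 2 ^ K = m' % 2 ^ K ∧
      ham (T^[K + L] m) (T^[K + L] m') K < h).card : ℝ) ≤ Bm * Sp := by
    intro m hm
    set R := S.filter fun m' => m % 2 ^ K = m' % 2 ^ K ∧
      ham (T^[K + L] m) (T^[K + L] m') K < h with hR
    have hmap : ∀ m' ∈ R, T^[K + L] m' % 2 ^ K ∈ Ball K h (T^[K + L] m) := by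
      intro m' hm'
      have h3 := (mem_filter.1 hm').2
      simp only [Ball, mem_filter, mem_range]
      exact ⟨Nat.mod_lt _ (by positivity), by rw [Near_ham h1]; exact h3.2⟩
    have h2 : R.card = ∑ v ∈ Ball K h (T^[K + L] m),
        (R.filter fun m' => T^[K + L] m' % 2 ^ K = v).card :=
      Finset.card_eq_sum_card_fiberwise hmap
    have h3 : ∀ v ∈ Ball K h (T^[K + L] m),
        ((R.filter fun m' => T^[K + L] m' % 2 ^ K = v).card : ℝ) ≤ Sp := by
      intro v _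
      refine le_trans ?_ (hF (m % 2 ^ K) v)
      exact_mod_cast Finset.card_le_card (by
        intro m' hm'
        obtain ⟨h4, h5⟩ := mem_filter.1 hm'
        obtain ⟨h6, h7⟩ := mem_filter.1 h4
        have h8 := h6
        rw [hS] at h8
        simp only [Sab, mem_filter] at h8
        simp only [Fib, mem_filter]
        exact ⟨h8.1, h8.2.1, h7.1.symm, h8.2.2.2.1, h5⟩)
    calc (R.card : ℝ) = ∑ v ∈ Ball K h (T^[K + L] m),
          ((R.filter fun m' => T^[K + L] m' % 2 ^ K = v).card : ℝ) := by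
            rw [h2]; push_cast; rfl
      _ ≤ ∑ v ∈ Ball K h (T^[K + L] m), Sp := Finset.sum_le_sum h3
      _ = (Ball K h (T^[K + L] m)).card * Sp := by rw [Finset.sum_const, nsmul_eq_mul]
      _ ≤ Bm * Sp := mul_le_mul_of_nonneg_right (hB _) hSp
  have hQc : Q.card = ∑ m ∈ S, (Q.filter fun p => p.1 = m).card :=
    Finset.card_eq_sum_card_fiberwise (f := fun p : ℕ × ℕ => p.1) (by
      intro p hp
      have h3 := hp
      simp only [hQ, coe_filter, mem_product, Set.mem_ofPred_eq] at h3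
      exact h3.1.1)
  have hle : ∀ m ∈ S, ((Q.filter fun p => p.1 = m).card : ℝ) ≤ Bm * Sp := by
    intro m hm
    refine le_trans ?_ (hone m hm)
    exact_mod_cast Finset.card_le_card_of_injOn (fun p : ℕ × ℕ => p.2) (by
      intro p hp
      simp only [hQ, coe_filter, mem_filter, mem_product, Set.mem_ofPred_eq] at hp
      obtain ⟨⟨⟨h3, h4⟩, h5, h6⟩, h7⟩ := hp
      simp only [coe_filter, Set.mem_ofPred_eq]
      subst h7
      exact ⟨h4, h5, h6⟩) (by
      intro p hp q hq hpq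
      simp only [coe_filter, Set.mem_ofPred_eq] at hp hq
      exact Prod.ext (hp.2.trans hq.2.symm) hpq)
  calc (Q.card : ℝ) = ∑ m ∈ S, ((Q.filter fun p => p.1 = m).card : ℝ) := by
        rw [hQc]; push_cast; rfl
    _ ≤ ∑ m ∈ S, Bm * Sp := Finset.sum_le_sum hle
    _ = (S.card : ℝ) * Bm * Sp := by rw [Finset.sum_const, nsmul_eq_mul]; ring

end Pool.Agent.Work.MP_a11cf9_nt.Win

end

section

/-!
# Item Far: pairs with a large Hamming distance
-/

open Finset

namespace Pool.Agent.Work.MP_a11cf9_nt.Win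

open Pool.Agent.Work.MP_a11cf9_nt

theorem Far_ham_symm (x y K : ℕ) : ham x y K = ham y x K := by
  unfold ham
  congr 1
  exact Finset.filter_congr fun j _ => ne_comm

theorem Far_ham_congr (h3 : S_Par) {x x' y y' K : ℕ} (hx : x % 2 ^ K = x' % 2 ^ K)
    (hy : y % 2 ^ K = y' % 2 ^ K) : ham x y K = ham x' y' K := by
  have ex := (h3 x x' K).mpr hx
  have ey := (h3 y y' K).mpr hy
  unfold ham
  congr 1
  refine Finset.filter_congr fun j hj => ?_
  have hj' : j < K := Finset.mem_range.mp hj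
  rw [ex j hj', ey j hj']

theorem Far_odds_congr {x y K : ℕ} (h : x % 2 ^ K = y % 2 ^ K) : odds x K = odds y K := by
  rw [← odds_mod K x, ← odds_mod K y, h]

theorem Far_fiber (h1 : S_BlkInj) (h2 : S_Two) (h3 : S_Par) {K L l : ℕ} {P : ℝ} {g h a b : ℕ}
    {Cm Mm : ℝ} (hC0 : 0 ≤ Cm) (hM0 : 0 ≤ Mm) (hC : ∀ D, ((CorrSet K D g h).card : ℝ) ≤ Cm)
    (hM : ∀ s y, ((Fib2 K L l P a s y).card : ℝ) ≤ Mm) (s s' : ℕ) (R : Finset (ℕ × ℕ))
    (hR : ∀ p ∈ R, p.1 ∈ Sab K L l P g a b ∧ p.2 ∈ Sab K L l P g a b ∧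
      p.1 % 2 ^ K = p.2 % 2 ^ K ∧ h ≤ ham (T^[K + L] p.1) (T^[K + L] p.2) K ∧ p.2 ≤ p.1 ∧
      T^[K] p.1 % 2 ^ L = s ∧ T^[K] p.2 % 2 ^ L = s') : (R.card : ℝ) ≤ Cm * Mm := by
  classical
  rcases R.eq_empty_or_nonempty with hE | ⟨p0, hp0⟩
  · rw [hE]
    simpa using mul_nonneg hC0 hM0
  obtain ⟨q1, q2, q3, -, q5, q6, q7⟩ := hR p0 hp0
  simp only [Sab, Finset.mem_filter] at q1 q2
  set D := T^[K + L] p0.1 + (2 ^ K - 1) * T^[K + L] p0.2 with hD
  have hmaps : ∀ p ∈ R, T^[K + L] p.2 % 2 ^ K ∈ CorrSet K D g h := by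
    intro p hp
    obtain ⟨r1, r2, r3, r4, r5, r6, r7⟩ := hR p hp
    simp only [Sab, Finset.mem_filter] at r1 r2
    have htwo := h2 K L p.1 p.2 p0.1 p0.2 r1.1 r2.1 q1.1 q2.1 r3 q3 (r6.trans q6.symm)
      (r7.trans q7.symm) (r1.2.2.1.trans q1.2.2.1.symm) (r1.2.2.2.1.trans r2.2.2.2.1.symm) r5 q5
    have hpos : 0 < 2 ^ K := by positivity
    have hcong : (T^[K + L] p.2 % 2 ^ K + D) % 2 ^ K = T^[K + L] p.1 % 2 ^ K := by
      have e1 : T^[K + L] p.2 + D = T^[K + L] p.1 + 2 ^ K * T^[K + L] p0.2 := by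
        have e2 : (T^[K + L] p.2 : ℤ) + T^[K + L] p0.1 = T^[K + L] p.1 + T^[K + L] p0.2 := by
          linarith
        have e3 : T^[K + L] p.2 + T^[K + L] p0.1 = T^[K + L] p.1 + T^[K + L] p0.2 := by
          exact_mod_cast e2
        have e4 : T^[K + L] p0.2 + (2 ^ K - 1) * T^[K + L] p0.2 = 2 ^ K * T^[K + L] p0.2 := by
          obtain ⟨w, hw⟩ : ∃ w, 2 ^ K = w + 1 := ⟨2 ^ K - 1, by omega⟩
          rw [hw, Nat.add_sub_cancel]
          ring
        rw [hD, ← e4]
        linarith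
      rw [Nat.mod_add_mod, e1, Nat.add_mul_mod_self_left]
    simp only [CorrSet, Finset.mem_filter, Finset.mem_range]
    refine ⟨Nat.mod_lt _ hpos, ?_, ?_, ?_⟩
    · rw [odds_mod]
      exact r2.2.2.2.2
    · rw [Far_odds_congr hcong]
      exact r1.2.2.2.2
    · rw [Far_ham_congr h3 (Nat.mod_mod _ _) hcong, Far_ham_symm]
      exact r4
  have hcard := Finset.card_eq_sum_card_fiberwise (s := R)
    (f := fun p : ℕ × ℕ => T^[K + L] p.2 % 2 ^ K) (t := CorrSet K D g h) hmaps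
  have hfib : ∀ v ∈ CorrSet K D g h,
      ((R.filter fun p => T^[K + L] p.2 % 2 ^ K = v).card : ℝ) ≤ Mm := by
    intro v _
    refine le_trans ?_ (hM s' v)
    have : (R.filter fun p => T^[K + L] p.2 % 2 ^ K = v).card ≤ (Fib2 K L l P a s' v).card := by
      refine Finset.card_le_card_of_injOn (fun p => p.2) ?_ ?_
      · intro p hp
        have hp' := Finset.mem_filter.mp (Finset.mem_coe.mp hp)
        obtain ⟨-, r2, -, -, -, -, r7⟩ := hR p hp'.1
        simp only [Sab, Finset.mem_filter] at r2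
        simp only [Fib2, Finset.coe_filter, Set.mem_ofPred_eq]
        exact ⟨r2.1, r2.2.1, r2.2.2.1, r7, hp'.2⟩
      · intro p hp p' hp' hpp
        have hp1 := Finset.mem_filter.mp (Finset.mem_coe.mp hp)
        have hp2 := Finset.mem_filter.mp (Finset.mem_coe.mp hp')
        obtain ⟨r1, -, r3, -, -, r6, -⟩ := hR p hp1.1
        obtain ⟨t1, -, t3, -, -, t6, -⟩ := hR p' hp2.1
        simp only [Sab, Finset.mem_filter] at r1 t1
        have e : p.2 = p'.2 := hpp
        have e1 : p.1 = p'.1 := h1 K L p.1 p'.1 r1.1 t1.1 (by rw [r3, t3, e]) (r6.trans t6.symm)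
        exact Prod.ext e1 e
    exact_mod_cast this
  calc (R.card : ℝ) = ∑ v ∈ CorrSet K D g h,
        ((R.filter fun p => T^[K + L] p.2 % 2 ^ K = v).card : ℝ) := by
        rw [hcard]
        push_cast
        rfl
    _ ≤ ∑ _v ∈ CorrSet K D g h, Mm := Finset.sum_le_sum hfib
    _ = ((CorrSet K D g h).card : ℝ) * Mm := by rw [Finset.sum_const, nsmul_eq_mul]
    _ ≤ Cm * Mm := mul_le_mul_of_nonneg_right (hC D) hM0

theorem pr_Far (h1 : S_BlkInj) (h2 : S_Two) (h3 : S_Par) : S_Far := by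
  classical
  intro K L l P g h a b Cm Mm hC0 hM0 hC hM
  set S := Sab K L l P g a b with hS
  set Q1 := (S ×ˢ S).filter fun p => (p.1 % 2 ^ K = p.2 % 2 ^ K ∧
    h ≤ ham (T^[K + L] p.1) (T^[K + L] p.2) K) ∧ p.2 ≤ p.1 with hQ1
  set Q2 := (S ×ˢ S).filter fun p => (p.1 % 2 ^ K = p.2 % 2 ^ K ∧
    h ≤ ham (T^[K + L] p.1) (T^[K + L] p.2) K) ∧ p.1 ≤ p.2 with hQ2
  have hsub : ((S ×ˢ S).filter fun p => p.1 % 2 ^ K = p.2 % 2 ^ K ∧
      h ≤ ham (T^[K + L] p.1) (T^[K + L] p.2) K) ⊆ Q1 ∪ Q2 := by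
    intro p hp
    have hp' := Finset.mem_filter.mp hp
    rw [Finset.mem_union, hQ1, hQ2, Finset.mem_filter, Finset.mem_filter]
    rcases le_total p.2 p.1 with hle | hle
    · exact Or.inl ⟨hp'.1, hp'.2, hle⟩
    · exact Or.inr ⟨hp'.1, hp'.2, hle⟩
  have h21 : Q2.card ≤ Q1.card := by
    refine Finset.card_le_card_of_injOn Prod.swap ?_ (Prod.swap_injective.injOn)
    intro p hp
    have hp' := Finset.mem_filter.mp (Finset.mem_coe.mp hp)
    have hp1 := Finset.mem_product.mp hp'.1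
    refine Finset.mem_coe.mpr (Finset.mem_filter.mpr ⟨Finset.mem_product.mpr ⟨hp1.2, hp1.1⟩,
      ⟨hp'.2.1.1.symm, ?_⟩, hp'.2.2⟩)
    show h ≤ ham (T^[K + L] p.2) (T^[K + L] p.1) K
    rw [Far_ham_symm]
    exact hp'.2.1.2
  have hmaps : ∀ p ∈ Q1, (T^[K] p.1 % 2 ^ L, T^[K] p.2 % 2 ^ L) ∈ Wt L b ×ˢ Wt L b := by
    intro p hp
    have hp' := Finset.mem_filter.mp hp
    have hp1 := Finset.mem_product.mp hp'.1
    simp only [hS, Sab, Finset.mem_filter] at hp1
    simp only [Finset.mem_product, Wt, Finset.mem_filter, Finset.mem_range, odds_mod]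
    have hpos : 0 < 2 ^ L := by positivity
    exact ⟨⟨Nat.mod_lt _ hpos, hp1.1.2.2.2.1⟩, ⟨Nat.mod_lt _ hpos, hp1.2.2.2.2.1⟩⟩
  have hcard := Finset.card_eq_sum_card_fiberwise (s := Q1)
    (f := fun p => (T^[K] p.1 % 2 ^ L, T^[K] p.2 % 2 ^ L)) (t := Wt L b ×ˢ Wt L b) hmaps
  have hQ1le : (Q1.card : ℝ) ≤ ((Wt L b).card : ℝ) ^ 2 * (Cm * Mm) := by
    calc (Q1.card : ℝ) = ∑ u ∈ Wt L b ×ˢ Wt L b,
          ((Q1.filter fun p => (T^[K] p.1 % 2 ^ L, T^[K] p.2 % 2 ^ L) = u).card : ℝ) := by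
          rw [hcard]
          push_cast
          rfl
      _ ≤ ∑ _u ∈ Wt L b ×ˢ Wt L b, Cm * Mm := by
          refine Finset.sum_le_sum fun u _ => ?_
          refine Far_fiber (b := b) h1 h2 h3 hC0 hM0 hC hM u.1 u.2 _ ?_
          intro p hp
          have hp' := Finset.mem_filter.mp hp
          have hp2 := Finset.mem_filter.mp hp'.1
          have hp1 := Finset.mem_product.mp hp2.1
          have e := hp'.2
          exact ⟨hp1.1, hp1.2, hp2.2.1.1, hp2.2.1.2, hp2.2.2, congrArg Prod.fst e,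
            congrArg Prod.snd e⟩
      _ = ((Wt L b).card : ℝ) ^ 2 * (Cm * Mm) := by
          rw [Finset.sum_const, nsmul_eq_mul, Finset.card_product]
          push_cast
          ring
  have hle := (Finset.card_le_card hsub).trans (Finset.card_union_le Q1 Q2)
  have hle' : ((((S ×ˢ S).filter fun p => p.1 % 2 ^ K = p.2 % 2 ^ K ∧
      h ≤ ham (T^[K + L] p.1) (T^[K + L] p.2) K).card : ℕ) : ℝ) ≤ 2 * (Q1.card : ℝ) := by
    have : ((S ×ˢ S).filter fun p => p.1 % 2 ^ K = p.2 % 2 ^ K ∧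
      h ≤ ham (T^[K + L] p.1) (T^[K + L] p.2) K).card ≤ 2 * Q1.card := by omega
    exact_mod_cast this
  calc _ ≤ 2 * (Q1.card : ℝ) := hle'
    _ ≤ 2 * (((Wt L b).card : ℝ) ^ 2 * (Cm * Mm)) := by linarith
    _ = _ := by ring

end Pool.Agent.Work.MP_a11cf9_nt.Win

end

section

open Finset

namespace Pool.Agent.Work.MP_a11cf9_nt.Win

open Pool.Agent.Work.MP_a11cf9_nt

theorem InjC_congr (h3 : S_Shift) {x y k : ℕ} (h : x % 2 ^ k = y % 2 ^ k) :
    odds x k = odds y k ∧ rem x k = rem y k := by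
  have hx := h3 (x % 2 ^ k) k (x / 2 ^ k)
  have hy := h3 (y % 2 ^ k) k (y / 2 ^ k)
  rw [Nat.mod_add_div] at hx hy
  rw [hx.2.1, hx.2.2.1, hy.2.1, hy.2.2.1, h]
  exact ⟨rfl, rfl⟩

theorem InjC_concat (h5 : S_Par) {x y s t : ℕ} (h : x % 2 ^ s = y % 2 ^ s)
    (h' : T^[s] x % 2 ^ t = T^[s] y % 2 ^ t) : x % 2 ^ (s + t) = y % 2 ^ (s + t) := by
  rw [← h5]
  intro j hj
  rcases lt_or_ge j s with hjs | hjs
  · exact (h5 x y s).2 h j hjs
  · have h1 := (h5 _ _ t).2 h' (j - s) (by omega)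
    rw [← Function.iterate_add_apply, ← Function.iterate_add_apply] at h1
    rwa [Nat.sub_add_cancel hjs] at h1

theorem InjC_diff (h1 : S_Aff) (h3 : S_Shift) {x y k : ℕ} (h : x % 2 ^ k = y % 2 ^ k) :
    (2 : ℤ) ^ k * ((T^[k] x : ℤ) - T^[k] y) = 3 ^ odds x k * ((x : ℤ) - y) := by
  obtain ⟨e1, e2⟩ := InjC_congr h3 h
  have a1 : (2 : ℤ) ^ k * (T^[k] x : ℤ) = 3 ^ odds x k * x + rem x k := by exact_mod_cast h1 x k
  have a2 : (2 : ℤ) ^ k * (T^[k] y : ℤ) = 3 ^ odds y k * y + rem y k := by exact_mod_cast h1 y k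
  rw [← e1, ← e2] at a2
  linarith [a1, a2, mul_sub ((2 : ℤ) ^ k) (T^[k] x : ℤ) (T^[k] y : ℤ),
    mul_sub ((3 : ℤ) ^ odds x k) (x : ℤ) y]

theorem pr_InjC (h1 : S_Aff) (h2 : S_RemLe) (h3 : S_Shift) (h4 : S_Inj) (h5 : S_Par) :
    S_InjC := by
  intro K L l t m m' htl hm hm' hK hy ht hl hv hbad
  have hcop : ∀ a b : ℕ, IsCoprime ((2 : ℤ) ^ a) ((3 : ℤ) ^ b) := fun a b =>
    IsCoprime.pow (by norm_num)
  -- first `K + t` parities
  have hA : m % 2 ^ (K + t) = m' % 2 ^ (K + t) := InjC_concat h5 hK ht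
  obtain ⟨E, hE⟩ : ∃ E : ℤ, (m : ℤ) - m' = 2 ^ (K + t) * E := by
    have : ((2 ^ (K + t) : ℕ) : ℤ) ∣ (m : ℤ) - m' := by
      have h := (Nat.modEq_iff_dvd.1 (show m' ≡ m [MOD 2 ^ (K + t)] from hA.symm))
      exact h
    obtain ⟨E, hE⟩ := this
    exact ⟨E, by rw [hE]; push_cast; ring⟩
  set w := T^[K + t] m with hw
  set w' := T^[K + t] m' with hw'
  have hwd : (w : ℤ) - w' = 3 ^ odds m (K + t) * E := by
    have h := InjC_diff h1 h3 hA
    rw [hE] at h
    have h2 : (2 : ℤ) ^ (K + t) ≠ 0 := by positivity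
    apply mul_left_cancel₀ h2
    rw [h]
    ring
  -- last parities
  set n := L - t - l with hn
  have hTv : T^[K + t + l] m = T^[l] w := by
    rw [hw, ← Function.iterate_add_apply, add_comm l (K + t)]
  have hTv' : T^[K + t + l] m' = T^[l] w' := by
    rw [hw', ← Function.iterate_add_apply, add_comm l (K + t)]
  rw [hTv, hTv'] at hv
  set v := T^[l] w with hvd
  set v' := T^[l] w' with hvd'
  have hKL : K + L = n + (l + (K + t)) := by omega
  have hTy : T^[K + L] m = T^[n] v := by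
    rw [hKL, Function.iterate_add_apply, Function.iterate_add_apply]
  have hTy' : T^[K + L] m' = T^[n] v' := by
    rw [hKL, Function.iterate_add_apply, Function.iterate_add_apply]
  rw [hTy, hTy'] at hy
  have hvn := InjC_diff h1 h3 hv
  obtain ⟨G, hG⟩ : ∃ G : ℤ, (T^[n] v : ℤ) - T^[n] v' = 2 ^ K * G := by
    have : ((2 ^ K : ℕ) : ℤ) ∣ (T^[n] v : ℤ) - T^[n] v' :=
      Nat.modEq_iff_dvd.1 (show T^[n] v' ≡ T^[n] v [MOD 2 ^ K] from hy.symm)
    obtain ⟨E, hE⟩ := this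
    exact ⟨E, by rw [hE]; push_cast; ring⟩
  obtain ⟨F, hF⟩ : ∃ F : ℤ, (v : ℤ) - v' = 2 ^ (n + K) * F := by
    rw [hG] at hvn
    have hd : (2 : ℤ) ^ (n + K) ∣ 3 ^ odds v n * ((v : ℤ) - v') := ⟨G, by rw [← hvn]; ring⟩
    exact (hcop _ _).dvd_of_dvd_mul_left hd
  -- the segment
  have a1 : (2 : ℤ) ^ l * (v : ℤ) = 3 ^ odds w l * w + rem w l := by exact_mod_cast h1 w l
  have a2 : (2 : ℤ) ^ l * (v' : ℤ) = 3 ^ odds w' l * w' + rem w' l := by exact_mod_cast h1 w' l
  rw [← hl] at a2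
  have hmain : (3 : ℤ) ^ (odds m K + odds (T^[K] m) (t + l)) * E =
      ((rem w' l : ℤ) - rem w l) + 2 ^ (K + L - t) * F := by
    have e1 : odds m K + odds (T^[K] m) (t + l) = odds w l + odds m (K + t) := by
      rw [← odds_add, ← add_assoc, odds_add m (K + t) l, ← hw, add_comm]
    have e2 : (2 : ℤ) ^ (K + L - t) = 2 ^ l * 2 ^ (n + K) := by
      rw [← pow_add]
      congr 1
      omega
    rw [e1, pow_add, mul_assoc, ← hwd, e2, mul_assoc, ← hF]
    linarith [a1, a2, mul_sub ((3 : ℤ) ^ odds w l) (w : ℤ) w', mul_sub ((2 : ℤ) ^ l) (v : ℤ) v']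
  have hEb : |E| < 2 ^ (K + L - t - K) := by
    have hb : |(m : ℤ) - m'| < 2 ^ (K + L) := by
      unfold Blk at hm hm'
      rw [mem_Ico] at hm hm'
      have e : (2 : ℤ) ^ (K + L + 1) = 2 ^ (K + L) + 2 ^ (K + L) := by rw [pow_succ]; ring
      have b1 : (m : ℤ) < 2 ^ (K + L + 1) := by exact_mod_cast hm.2
      have b2 : (2 : ℤ) ^ (K + L) ≤ m := by exact_mod_cast hm.1
      have b3 : (m' : ℤ) < 2 ^ (K + L + 1) := by exact_mod_cast hm'.2
      have b4 : (2 : ℤ) ^ (K + L) ≤ m' := by exact_mod_cast hm'.1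
      rw [abs_lt]
      constructor <;> linarith
    rw [hE, abs_mul, abs_of_pos (by positivity : (0 : ℤ) < 2 ^ (K + t))] at hb
    have e : (2 : ℤ) ^ (K + L) = 2 ^ (K + t) * 2 ^ (K + L - t - K) := by
      rw [← pow_add]
      congr 1
      omega
    rw [e] at hb
    exact lt_of_mul_lt_mul_left hb (by positivity)
  have hr1 := h2 w l
  have hr2 := h2 w' l
  have hcb : |((rem w' l : ℤ) - rem w l)| < 3 ^ l := by
    have b1 : (rem w l : ℤ) + 2 ^ l ≤ 3 ^ l := by exact_mod_cast hr1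
    have b2 : (rem w' l : ℤ) + 2 ^ l ≤ 3 ^ l := by exact_mod_cast hr2
    have b3 : (0 : ℤ) < 2 ^ l := by positivity
    rw [abs_lt]
    constructor <;> linarith [Int.natCast_nonneg (rem w l), Int.natCast_nonneg (rem w' l)]
  have hc : ((rem w' l : ℤ) - rem w l) = 0 := by
    by_contra hne
    exact hbad ⟨_, E, F, hne, hcb, hmain, hEb⟩
  have hrr : rem w l = rem w' l := by
    have : (rem w' l : ℤ) = rem w l := by linarith
    exact_mod_cast this.symm
  have hwl : w % 2 ^ l = w' % 2 ^ l := h4 w w' l hl hrr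
  have hB : m % 2 ^ (K + t + l) = m' % 2 ^ (K + t + l) := InjC_concat h5 hA hwl
  have hC : m % 2 ^ (K + t + l + n) = m' % 2 ^ (K + t + l + n) := by
    refine InjC_concat h5 hB ?_
    rw [hTv, hTv']
    exact hv
  rw [show K + t + l + n = K + L by omega] at hC
  unfold Blk at hm hm'
  rw [mem_Ico] at hm hm'
  have hp : 2 ^ (K + L + 1) = 2 ^ (K + L) + 2 ^ (K + L) := by rw [pow_succ]; ring
  have q1 : m % 2 ^ (K + L) = m - 2 ^ (K + L) := by
    rw [Nat.mod_eq_sub_mod hm.1, Nat.mod_eq_of_lt (by omega)]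
  have q2 : m' % 2 ^ (K + L) = m' - 2 ^ (K + L) := by
    rw [Nat.mod_eq_sub_mod hm'.1, Nat.mod_eq_of_lt (by omega)]
  omega

end Pool.Agent.Work.MP_a11cf9_nt.Win

end

section

open Finset

namespace Pool.Agent.Work.MP_a11cf9_nt.Win

open Pool.Agent.Work.MP_a11cf9_nt

theorem pr_SpreadT (h1 : S_InjC) : S_SpreadT := by
  classical
  intro K L l t P z u b y hz htl
  have hz0 : (0 : ℝ) ≤ z := by linarith
  set A := (Fib K L l P u b y).filter fun m => ¬ BadAt K L l m t with hA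
  let φ : ℕ → ℕ × ℕ × ℕ := fun m =>
    (T^[K] m % 2 ^ t, odds (T^[K + t] m) l, T^[K + t + l] m % 2 ^ (L - t - l))
  let R : Finset (ℕ × ℕ × ℕ) := range (2 ^ t) ×ˢ range (l + 1) ×ˢ range (2 ^ (L - t - l))
  let F : ℕ × ℕ × ℕ → ℝ := fun r => z ^ odds r.1 t * (z ^ r.2.1 * z ^ odds r.2.2 (L - t - l))
  have hmem : ∀ m ∈ A, (m ∈ Blk (K + L) ∧ Typ K l P m ∧ m % 2 ^ K = u ∧ odds (T^[K] m) L = b ∧
      T^[K + L] m % 2 ^ K = y) ∧ ¬ BadAt K L l m t := by
    intro m hm
    rw [hA, mem_filter] at hm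
    unfold Fib at hm
    rw [mem_filter] at hm
    exact ⟨hm.1, hm.2⟩
  have hinj : Set.InjOn φ (A : Set ℕ) := by
    intro m hm m' hm' he
    obtain ⟨⟨ha1, -, ha3, -, ha5⟩, ha6⟩ := hmem m hm
    obtain ⟨⟨hb1, -, hb3, -, hb5⟩, -⟩ := hmem m' hm'
    simp only [φ, Prod.mk.injEq] at he
    exact h1 K L l t m m' htl ha1 hb1 (ha3.trans hb3.symm) (ha5.trans hb5.symm) he.1 he.2.1 he.2.2
      ha6
  have hmaps : A.image φ ⊆ R := by
    intro r hr
    obtain ⟨m, hm, rfl⟩ := mem_image.1 hr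
    simp only [φ, R, mem_product, mem_range]
    refine ⟨Nat.mod_lt _ (by positivity), ?_, Nat.mod_lt _ (by positivity)⟩
    rw [Nat.lt_succ_iff]
    unfold odds
    exact (card_filter_le _ _).trans (by rw [card_range])
  have hF : ∀ m ∈ A, z ^ b = F (φ m) := by
    intro m hm
    obtain ⟨⟨-, -, -, ha4, -⟩, -⟩ := hmem m hm
    simp only [F, φ]
    have e : L = t + (l + (L - t - l)) := by omega
    rw [odds_mod, odds_mod, ← pow_add, ← pow_add, ← ha4]
    congr 1
    conv_lhs => rw [e, odds_add, odds_add]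
    rw [← Function.iterate_add_apply, ← Function.iterate_add_apply, add_comm t K,
      add_comm l (K + t)]
  have hFnn : ∀ r, 0 ≤ F r := fun r => by
    simp only [F]
    positivity
  calc (A.card : ℝ) * z ^ b = ∑ m ∈ A, F (φ m) := by
        rw [← sum_congr rfl hF, sum_const, nsmul_eq_mul]
    _ = ∑ r ∈ A.image φ, F r := (sum_image hinj).symm
    _ ≤ ∑ r ∈ R, F r := sum_le_sum_of_subset_of_nonneg hmaps (fun r _ _ => hFnn r)
    _ = (1 + z) ^ t * ((∑ w ∈ range (l + 1), z ^ w) * (1 + z) ^ (L - t - l)) := by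
        simp only [R, F]
        rw [sum_product]
        simp only [sum_product]
        rw [← sum_pow_odds z t, ← sum_pow_odds z (L - t - l), sum_mul]
        refine sum_congr rfl fun s _ => ?_
        rw [sum_mul_sum, mul_sum]
        refine sum_congr rfl fun w _ => ?_
        rw [mul_sum]
    _ ≤ (1 + z) ^ t * (((l + 1) * z ^ l) * (1 + z) ^ (L - t - l)) := by
        have hs : ∑ w ∈ range (l + 1), z ^ w ≤ (l + 1) * z ^ l := by
          calc ∑ w ∈ range (l + 1), z ^ w ≤ ∑ w ∈ range (l + 1), z ^ l :=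
                sum_le_sum fun w hw => pow_le_pow_right₀ hz (by
                  rw [mem_range] at hw
                  omega)
            _ = (l + 1) * z ^ l := by
                rw [sum_const, card_range, nsmul_eq_mul]
                push_cast
                ring
        gcongr
    _ = (1 + z) ^ (L - l) * ((l + 1) * z ^ l) := by
        have e : L - l = t + (L - t - l) := by omega
        rw [e, pow_add]
        ring

end Pool.Agent.Work.MP_a11cf9_nt.Win

end

section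

open Finset

namespace Pool.Agent.Work.MP_a11cf9_nt.Win

open Pool.Agent.Work.MP_a11cf9_nt

open Classical in
theorem pr_Spread (h1 : S_SpreadT) : S_Spread := by
  intro K L l P z u b y hz hb
  have hz0 : (0 : ℝ) < z := by linarith
  have hR : (0 : ℝ) ≤ (1 + z) ^ (L - l) * ((l + 1) * z ^ l) := by positivity
  have hsub : Fib K L l P u b y ⊆ (range (L + 1)).biUnion (fun t =>
      if t + l ≤ L then (Fib K L l P u b y).filter fun m => ¬ BadAt K L l m t else ∅) := by
    intro m hm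
    have hm' := hm
    unfold Fib at hm'
    rw [mem_filter] at hm'
    obtain ⟨t, ht, hbad⟩ := hb m hm'.1 hm'.2.1
    rw [mem_biUnion]
    refine ⟨t, by rw [mem_range]; omega, ?_⟩
    rw [if_pos ht, mem_filter]
    exact ⟨hm, hbad⟩
  have hcard : ((Fib K L l P u b y).card : ℝ) ≤ ∑ t ∈ range (L + 1),
      (((if t + l ≤ L then (Fib K L l P u b y).filter fun m => ¬ BadAt K L l m t else ∅ :
        Finset ℕ)).card : ℝ) := by
    have := (card_le_card hsub).trans card_biUnion_le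
    exact_mod_cast this
  calc ((Fib K L l P u b y).card : ℝ) * z ^ b
      ≤ (∑ t ∈ range (L + 1),
      (((if t + l ≤ L then (Fib K L l P u b y).filter fun m => ¬ BadAt K L l m t else ∅ :
        Finset ℕ)).card : ℝ)) * z ^ b := by
        apply mul_le_mul_of_nonneg_right hcard (by positivity)
    _ = ∑ t ∈ range (L + 1), ((((if t + l ≤ L then (Fib K L l P u b y).filter
          fun m => ¬ BadAt K L l m t else ∅ : Finset ℕ)).card : ℝ) * z ^ b) := by
        rw [sum_mul]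
    _ ≤ ∑ t ∈ range (L + 1), ((1 + z) ^ (L - l) * ((l + 1) * z ^ l)) := by
        apply sum_le_sum
        intro t _
        by_cases ht : t + l ≤ L
        · rw [if_pos ht]
          exact h1 K L l t P z u b y hz ht
        · rw [if_neg ht]
          simpa using hR
    _ = (L + 1) * ((1 + z) ^ (L - l) * ((l + 1) * z ^ l)) := by
        rw [sum_const, card_range, nsmul_eq_mul]
        push_cast
        ring

end Pool.Agent.Work.MP_a11cf9_nt.Win

end

section

open Finset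

namespace Pool.Agent.Work.MP_a11cf9_nt.Win

theorem pr_Step : S_Step := by
  intro K l i S M c E F c' E' F' hS hKM hl hc hc' hE hE' h1 h2
  have hM1 : M - K = (M - 1 - K) + 1 := by omega
  have hM2 : M = (M - 1) + 1 := by omega
  have hMK : M - 1 = K + (M - 1 - K) := by omega
  set X : ℤ := E * c' - 3 ^ S * E' * c with hX
  have hpM : (2 : ℤ) ^ M = 2 * 2 ^ (M - 1) := by
    conv_lhs => rw [hM2, pow_succ]
    ring
  have hid : 3 ^ i * X = 2 ^ (M - 1) * (2 * F * c' - F' * c) := by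
    have e1 : 3 ^ i * X = (3 ^ i * E) * c' - (3 ^ (i + S) * E') * c := by
      rw [hX, pow_add]; ring
    rw [e1, h1, h2, hpM]
    ring
  have hco : IsCoprime ((2 : ℤ) ^ (M - 1)) ((3 : ℤ) ^ i) := by
    apply IsCoprime.pow
    exact ⟨-1, 1, by norm_num⟩
  have hdvd : (2 : ℤ) ^ (M - 1) ∣ X := by
    apply hco.dvd_of_dvd_mul_left
    exact ⟨_, hid⟩
  have hlt : |X| < (2 : ℤ) ^ (M - 1) := by
    have a1 : |E * c'| ≤ 2 ^ (M - K) * 3 ^ l := by
      rw [abs_mul]
      exact mul_le_mul hE.le hc'.le (abs_nonneg _) (by positivity)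
    have a2 : |E' * c| < 2 ^ (M - 1 - K) * 3 ^ l := by
      rw [abs_mul]
      exact mul_lt_mul'' hE' hc (abs_nonneg _) (abs_nonneg _)
    have a3 : (3 : ℤ) ^ S ≤ 3 := by
      have : S = 0 ∨ S = 1 := by omega
      rcases this with h | h <;> simp [h]
    have a3' : (0 : ℤ) < 3 ^ S := by positivity
    have a4 : |3 ^ S * E' * c| < 3 * (2 ^ (M - 1 - K) * 3 ^ l) := by
      rw [mul_assoc, abs_mul, abs_of_pos a3']
      have b1 : (3 : ℤ) ^ S * |E' * c| ≤ 3 * |E' * c| :=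
        mul_le_mul_of_nonneg_right a3 (abs_nonneg _)
      linarith
    have a5 : (5 : ℤ) * 3 ^ l ≤ 2 ^ K := by exact_mod_cast hl
    have a6 : (2 : ℤ) ^ (M - 1) = 2 ^ K * 2 ^ (M - 1 - K) := by
      rw [← pow_add, ← hMK]
    have a7 : (5 : ℤ) * 3 ^ l * 2 ^ (M - 1 - K) ≤ 2 ^ (M - 1) := by
      rw [a6]
      exact mul_le_mul_of_nonneg_right a5 (by positivity)
    have a8 : |X| ≤ |E * c'| + |3 ^ S * E' * c| := by
      rw [hX]; exact abs_sub _ _
    have a9 : (2 : ℤ) ^ (M - K) = 2 * 2 ^ (M - 1 - K) := by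
      rw [hM1, pow_succ]; ring
    rw [a9] at a1
    nlinarith [a1, a4, a7, a8]
  have hX0 : X = 0 := Int.eq_zero_of_abs_lt_dvd hdvd hlt
  refine ⟨by linarith, ?_⟩
  rw [hX0, mul_zero] at hid
  have h2 : (2 : ℤ) ^ (M - 1) ≠ 0 := by positivity
  rcases mul_eq_zero.mp hid.symm with h | h
  · exact absurd h h2
  · linarith

end Pool.Agent.Work.MP_a11cf9_nt.Win

end

section

/-!
# Item Chain: consecutive bad corners
-/

open Finset

namespace Pool.Agent.Work.MP_a11cf9_nt.Win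

open Pool.Agent.Work.MP_a11cf9_nt

theorem Chain_odds_le (x l : ℕ) : odds x l ≤ l := by
  unfold odds
  exact (Finset.card_filter_le _ _).trans (by simp)

theorem pr_Chain (h1 : S_Step) : S_Chain := by
  intro K L l P m hlL h5 hP hTyp hbad
  obtain ⟨_, hT2, hT3⟩ := hTyp
  have hbad' : ∀ t, t + l ≤ L → ∃ c E F : ℤ, c ≠ 0 ∧ |c| < 3 ^ l ∧
      3 ^ (odds m K + odds (T^[K] m) (t + l)) * E = c + 2 ^ (K + L - t) * F ∧
      |E| < 2 ^ (K + L - t - K) := hbad
  choose! c E F hc hcl hE hEl using hbad'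
  set a := odds m K with ha
  set x := T^[K] m with hx
  have hodds : ∀ t, odds x (t + l) = odds x l + odds (T^[l] x) t := by
    intro t
    rw [add_comm t l, odds_add]
  have hind : ∀ t, t + l ≤ L →
      E 0 * c t = 3 ^ odds (T^[l] x) t * E t * c 0 ∧ F t * c 0 = 2 ^ t * F 0 * c t := by
    intro t
    induction t with
    | zero =>
      intro _
      constructor
      · rw [odds_zero]
        ring
      · ring
    | succ t ih =>
      intro ht
      have ht' : t + l ≤ L := by omega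
      obtain ⟨ih1, ih2⟩ := ih ht'
      have hS : T^[t] (T^[l] x) % 2 ≤ 1 := by omega
      have hM : K + L - (t + 1) = (K + L - t) - 1 := by omega
      have e1 := hE t ht'
      have e2 := hE (t + 1) ht
      rw [hodds] at e1 e2
      have e3 := hEl (t + 1) ht
      rw [hM] at e2 e3
      rw [odds_succ, ← add_assoc, ← add_assoc] at e2
      rw [← add_assoc] at e1
      obtain ⟨s1, s2⟩ := h1 K l (a + odds x l + odds (T^[l] x) t) (T^[t] (T^[l] x) % 2)
        (K + L - t) (c t) (E t) (F t) (c (t + 1)) (E (t + 1)) (F (t + 1)) hS (by omega) h5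
        (hcl t ht') (hcl (t + 1) ht) (hEl t ht') e3 e1 e2
      have hct := hc t ht'
      constructor
      · apply mul_right_cancel₀ hct
        rw [odds_succ, pow_add]
        calc E 0 * c (t + 1) * c t = (E 0 * c t) * c (t + 1) := by ring
          _ = 3 ^ odds (T^[l] x) t * c 0 * (E t * c (t + 1)) := by rw [ih1]; ring
          _ = _ := by rw [s1]; ring
      · apply mul_right_cancel₀ hct
        calc F (t + 1) * c 0 * c t = (F (t + 1) * c t) * c 0 := by ring
          _ = 2 * c (t + 1) * (F t * c 0) := by rw [s2]; ring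
          _ = _ := by rw [ih2]; ring
  have h0 : 0 + l ≤ L := by omega
  have hn : L - l + l ≤ L := by omega
  have hE0 := hE 0 h0
  have hEl0 := hEl 0 h0
  rw [hodds, odds_zero, add_zero, Nat.sub_zero] at hE0
  rw [Nat.sub_zero, Nat.add_sub_cancel_left] at hEl0
  -- `F 0 ≠ 0`
  have hl0 : l ≤ a + odds x l := by omega
  have hF0 : F 0 ≠ 0 := by
    intro hF
    rw [hF, mul_zero, add_zero] at hE0
    have hE00 : E 0 ≠ 0 := by
      intro h
      rw [h, mul_zero] at hE0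
      exact hc 0 h0 hE0.symm
    have h2 : (1 : ℤ) ≤ |E 0| := Int.one_le_abs hE00
    have h3 : |c 0| = 3 ^ (a + odds x l) * |E 0| := by
      rw [← hE0, abs_mul, abs_of_pos (by positivity)]
    have h4 : (3 : ℤ) ^ l ≤ 3 ^ (a + odds x l) := pow_le_pow_right₀ (by norm_num) hl0
    have h5' := hcl 0 h0
    have h6 : (3 : ℤ) ^ (a + odds x l) ≤ 3 ^ (a + odds x l) * |E 0| :=
      le_mul_of_one_le_right (by positivity) h2
    linarith
  -- the bound for `F 0`
  have hF0le : (|F 0| : ℝ) ≤ P * 3 ^ l + 1 := by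
    have h2 : (2 : ℤ) ^ (K + L) * F 0 = 3 ^ (a + odds x l) * E 0 - c 0 := by linarith
    have h3 : (2 : ℤ) ^ (K + L) * |F 0| ≤ 3 ^ (a + l) * 2 ^ L + 3 ^ l := by
      have e1 : (2 : ℤ) ^ (K + L) * |F 0| = |(2 : ℤ) ^ (K + L) * F 0| := by
        rw [abs_mul, abs_of_pos (a := (2 : ℤ) ^ (K + L)) (by positivity)]
      rw [e1, h2]
      have e2 : |(3 : ℤ) ^ (a + odds x l) * E 0| ≤ 3 ^ (a + l) * 2 ^ L := by
        rw [abs_mul, abs_of_pos (a := (3 : ℤ) ^ (a + odds x l)) (by positivity)]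
        refine mul_le_mul (pow_le_pow_right₀ (by norm_num) ?_) hEl0.le (abs_nonneg _)
          (by positivity)
        have := Chain_odds_le x l
        omega
      exact (abs_sub _ _).trans (add_le_add e2 (hcl 0 h0).le)
    have h4 : (2 : ℝ) ^ (K + L) * |(F 0 : ℝ)| ≤ 3 ^ (a + l) * 2 ^ L + 3 ^ l := by
      exact_mod_cast h3
    have h5r : (5 : ℝ) * 3 ^ l ≤ 2 ^ K := by exact_mod_cast h5
    have h6 : (3 : ℝ) ^ (a + l) * 2 ^ L ≤ (P * 3 ^ l) * 2 ^ (K + L) := by
      rw [pow_add, pow_add]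
      calc (3 : ℝ) ^ a * 3 ^ l * 2 ^ L ≤ (P * 2 ^ K) * 3 ^ l * 2 ^ L := by gcongr
        _ = _ := by ring
    have h7 : (3 : ℝ) ^ l ≤ 1 * 2 ^ (K + L) := by
      have e1 : (3 : ℝ) ^ l ≤ 2 ^ K := by
        have : (0 : ℝ) < 3 ^ l := by positivity
        linarith
      have e2 : (2 : ℝ) ^ K ≤ 2 ^ (K + L) := pow_le_pow_right₀ (by norm_num) (by omega)
      linarith
    have h8 : (2 : ℝ) ^ (K + L) * |(F 0 : ℝ)| ≤ 2 ^ (K + L) * (P * 3 ^ l + 1) := by
      linarith
    exact le_of_mul_le_mul_left h8 (by positivity)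
  -- conclusion
  obtain ⟨_, hF⟩ := hind (L - l) hn
  have hcn := hcl (L - l) hn
  have hc0 := hcl 0 h0
  have hEn := hEl (L - l) hn
  have hMn : K + L - (L - l) - K = l := by omega
  rw [hMn] at hEn
  refine ⟨E (L - l) * c 0, c (L - l) * c 0, F 0 * c (L - l),
    mul_ne_zero (hc _ hn) (hc _ h0), mul_ne_zero hF0 (hc _ hn), ?_, ?_, ?_, ?_⟩
  · rw [abs_mul]
    have e : (6 : ℤ) ^ l = 2 ^ l * 3 ^ l := by
      rw [← mul_pow]
      norm_num
    rw [e]
    exact mul_lt_mul'' hEn hc0 (abs_nonneg _) (abs_nonneg _)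
  · rw [abs_mul]
    have e : (9 : ℤ) ^ l = 3 ^ l * 3 ^ l := by
      rw [← mul_pow]
      norm_num
    rw [e]
    exact mul_lt_mul'' hcn hc0 (abs_nonneg _) (abs_nonneg _)
  · push_cast
    rw [abs_mul, mul_comm ((3 : ℝ) ^ l)]
    refine mul_le_mul hF0le ?_ (abs_nonneg _) (by positivity)
    have : |(c (L - l) : ℝ)| < 3 ^ l := by exact_mod_cast hcn
    exact this.le
  · have e1 : odds m (K + L) = a + odds x (L - l + l) := by
      rw [odds_add, Nat.sub_add_cancel hlL]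
    have e2 : K + L = (K + L - (L - l)) + (L - l) := by omega
    rw [e1]
    calc 3 ^ (a + odds x (L - l + l)) * (E (L - l) * c 0)
        = (3 ^ (a + odds x (L - l + l)) * E (L - l)) * c 0 := by ring
      _ = c (L - l) * c 0 + 2 ^ (K + L - (L - l)) * (F (L - l) * c 0) := by
          rw [hE (L - l) hn]
          ring
      _ = c (L - l) * c 0 + 2 ^ (K + L - (L - l)) * 2 ^ (L - l) * (F 0 * c (L - l)) := by
          rw [hF]
          ring
      _ = c (L - l) * c 0 + 2 ^ (K + L) * (F 0 * c (L - l)) := by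
          rw [← pow_add, ← e2]

end Pool.Agent.Work.MP_a11cf9_nt.Win

end
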