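import Mathlib
import Pool.Agent.Work.MP_a11cf9_nt.Win.Stmts

set_option autoImplicit false

section

/-!
# The Pade identity for `(1 - X) ^ k` (MP_a11cf9, Win, item PadeId)
-/

namespace Pool.Agent.Work.MP_a11cf9_nt.Win

open Polynomial Finset

theorem PadeId_theta (c : ℤ) (F : ℤ[X]) (i : ℕ) :
    (C c * F - X * derivative F).coeff i = (c - i) * F.coeff i := by
  rw [coeff_sub, coeff_C_mul]
  cases i with
  | zero => simp
  | succ i =>
    rw [coeff_X_mul, coeff_derivative]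
    push_cast
    ring

theorem PadeId_thetaMul (c : ℤ) (m : ℕ) (G : ℤ[X]) :
    C c * ((1 - X) ^ (m + 1) * G) - X * derivative ((1 - X) ^ (m + 1) * G) =
      (1 - X) ^ m * ((1 - X) * (C c * G - X * derivative G) +
        ((m + 1 : ℕ) : ℤ[X]) * X * G) := by
  have h : derivative ((1 - X : ℤ[X]) ^ (m + 1)) = - ((m + 1 : ℕ) : ℤ[X]) * (1 - X) ^ m := by
    rw [derivative_pow]
    simp
    ring
  rw [derivative_mul, h]
  ring

/-- The cofactors. -/
noncomputable def PadeId_G (k N : ℕ) : ℕ → ℤ[X]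
  | 0 => 1
  | s + 1 => (1 - X) * (C (2 * (N : ℤ) - s) * PadeId_G k N s -
      X * derivative (PadeId_G k N s)) + ((k + N - s : ℕ) : ℤ[X]) * X * PadeId_G k N s

theorem PadeId_F (k N s : ℕ) (hs : s ≤ k + N) : ∀ i : ℕ,
    ((1 - X) ^ (k + N - s) * PadeId_G k N s).coeff i =
      (∏ r ∈ range s, (2 * (N : ℤ) - r - i)) * ((1 - X : ℤ[X]) ^ (k + N)).coeff i := by
  induction s with
  | zero => intro i; simp [PadeId_G]
  | succ s ih =>
    intro i
    have e : k + N - s = (k + N - (s + 1)) + 1 := by omega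
    have h1 := PadeId_thetaMul (2 * (N : ℤ) - s) (k + N - (s + 1)) (PadeId_G k N s)
    rw [← e] at h1
    have h2 : (1 - X) ^ (k + N - (s + 1)) * PadeId_G k N (s + 1) =
        C (2 * (N : ℤ) - s) * ((1 - X) ^ (k + N - s) * PadeId_G k N s) -
          X * derivative ((1 - X) ^ (k + N - s) * PadeId_G k N s) := by
      rw [h1]
      rfl
    rw [h2, PadeId_theta, ih (by omega), prod_range_succ]
    ring

theorem PadeId_coeffG (k N s : ℕ) (hk : N ≤ k) (hs : s ≤ N) : ∀ j : ℕ,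
    (PadeId_G k N s).coeff j =
      ((s.choose j * (2 * N - j).descFactorial (s - j) * (k - N).ascFactorial j : ℕ) : ℤ) := by
  obtain ⟨d, rfl⟩ := Nat.exists_eq_add_of_le hk
  have ed : N + d - N = d := by omega
  rw [ed]
  induction s with
  | zero =>
    intro j
    cases j with
    | zero => simp [PadeId_G]
    | succ j => simp [PadeId_G, coeff_one]
  | succ s ih =>
    have ih' := ih (by omega)
    intro j
    cases j with
    | zero =>
      have : (PadeId_G (N + d) N (s + 1)).coeff 0 =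
          (2 * (N : ℤ) - s) * (PadeId_G (N + d) N s).coeff 0 := by
        simp [PadeId_G, mul_coeff_zero]
      rw [this, ih' 0]
      simp only [Nat.choose_zero_right, Nat.sub_zero, Nat.ascFactorial_zero, one_mul, mul_one]
      rw [Nat.descFactorial_succ, Nat.cast_mul, Nat.cast_sub (by omega)]
      push_cast
      ring
    | succ j =>
      have h1 : (PadeId_G (N + d) N (s + 1)).coeff (j + 1) =
          (2 * (N : ℤ) - s - (j + 1)) * (PadeId_G (N + d) N s).coeff (j + 1) +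
            ((d : ℤ) + j) * (PadeId_G (N + d) N s).coeff j := by
        have e1 : PadeId_G (N + d) N (s + 1) =
            (C (2 * (N : ℤ) - s) * PadeId_G (N + d) N s - X * derivative (PadeId_G (N + d) N s)) -
            X * (C (2 * (N : ℤ) - s) * PadeId_G (N + d) N s -
              X * derivative (PadeId_G (N + d) N s)) +
            X * (C (((N + d + N - s : ℕ) : ℤ)) * PadeId_G (N + d) N s) := by
          have : (C (((N + d + N - s : ℕ) : ℤ)) : ℤ[X]) = ((N + d + N - s : ℕ) : ℤ[X]) := by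
            simp
          rw [this]
          simp only [PadeId_G]
          ring
        rw [e1, coeff_add, coeff_sub, coeff_X_mul, coeff_X_mul, PadeId_theta, PadeId_theta,
          coeff_C_mul, Nat.cast_sub (by omega)]
        push_cast
        ring
      rw [h1, ih' (j + 1), ih' j]
      rcases lt_trichotomy j s with hj | hj | hj
      · obtain ⟨t, rfl⟩ : ∃ t, s = j + 1 + t := ⟨s - (j + 1), by omega⟩
        obtain ⟨q, hq⟩ : ∃ q, 2 * N = j + 1 + q := ⟨2 * N - (j + 1), by omega⟩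
        have hqt : t ≤ q := by omega
        have a1 : 2 * N - (j + 1) = q := by omega
        have a2 : 2 * N - j = q + 1 := by omega
        have a3 : j + 1 + t + 1 - (j + 1) = t + 1 := by omega
        have a4 : j + 1 + t - (j + 1) = t := by omega
        have a5 : j + 1 + t - j = t + 1 := by omega
        have hc := Nat.choose_succ_right_eq (j + 1 + t) j
        rw [a5] at hc
        have hc' : (((j + 1 + t).choose (j + 1) : ℕ) : ℤ) * (j + 1) =
            (((j + 1 + t).choose j : ℕ) : ℤ) * (t + 1) := by exact_mod_cast hc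
        rw [a1, a2, a3, a4, a5, Nat.succ_descFactorial_succ, Nat.descFactorial_succ,
          Nat.ascFactorial_succ, Nat.choose_succ_succ]
        have hN : (2 * (N : ℤ)) = j + 1 + q := by exact_mod_cast hq
        push_cast [Nat.cast_sub hqt]
        rw [hN]
        linear_combination (-((q.descFactorial t : ℤ) * (d.ascFactorial j : ℤ) * ((d : ℤ) + j))) * hc'
      · subst hj
        simp only [Nat.choose_self, Nat.sub_self, Nat.descFactorial_zero, Nat.choose_succ_self,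
          Nat.ascFactorial_succ]
        push_cast
        ring
      · have b1 : (s + 1).choose (j + 1) = 0 := Nat.choose_eq_zero_of_lt (by omega)
        have b2 : s.choose (j + 1) = 0 := Nat.choose_eq_zero_of_lt (by omega)
        have b3 : s.choose j = 0 := Nat.choose_eq_zero_of_lt hj
        rw [b1, b2, b3]
        simp

theorem PadeId_coeffPow (n i : ℕ) :
    ((1 - X : ℤ[X]) ^ n).coeff i = (-1) ^ i * (n.choose i : ℤ) := by
  have e : (1 - X : ℤ[X]) = - (X + C (-1)) := by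
    rw [C_neg, C_1]
    ring
  rw [e, neg_pow, show ((-1 : ℤ[X]) ^ n) = C ((-1) ^ n) by simp, coeff_C_mul,
    coeff_X_add_C_pow]
  rcases le_or_gt i n with h | h
  · obtain ⟨t, rfl⟩ := Nat.exists_eq_add_of_le h
    have : i + t - i = t := by omega
    rw [this, ← mul_assoc, ← pow_add, show i + t + t = i + 2 * t by ring, pow_add, pow_mul]
    simp
  · rw [Nat.choose_eq_zero_of_lt h]
    simp

theorem PadeId_prod1 (a r : ℕ) : ∏ t ∈ range r, ((a : ℤ) - t) = (a.descFactorial r : ℤ) := by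
  induction r with
  | zero => simp
  | succ r ih =>
    rw [prod_range_succ, ih, Nat.descFactorial_succ, Nat.cast_mul]
    rcases le_or_gt r a with h | h
    · rw [Nat.cast_sub h]; ring
    · rw [Nat.descFactorial_eq_zero_iff_lt.2 h]; simp

theorem PadeId_prod2 (a r : ℕ) : ∏ t ∈ range r, ((a : ℤ) + t) = (a.ascFactorial r : ℤ) := by
  induction r with
  | zero => simp
  | succ r ih =>
    rw [prod_range_succ, ih, Nat.ascFactorial_succ, Nat.cast_mul]
    push_cast
    ring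

theorem PadeId_prod (N i : ℕ) :
    (∏ r ∈ range N, (2 * (N : ℤ) - r - i)) =
      if i ≤ 2 * N then ((N.factorial * (2 * N - i).choose N : ℕ) : ℤ)
      else (-1) ^ N * ((N.factorial * (i - N - 1).choose N : ℕ) : ℤ) := by
  split_ifs with h
  · rw [← Nat.descFactorial_eq_factorial_mul_choose, ← PadeId_prod1]
    apply prod_congr rfl
    intro r _
    rw [Nat.cast_sub h]
    push_cast
    ring
  · have h1 : 2 * N < i := by omega
    obtain ⟨b, rfl⟩ := Nat.exists_eq_add_of_lt h1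
    have e1 : 2 * N + b + 1 - N - 1 = (b + 1) + N - 1 := by omega
    rw [e1, ← Nat.ascFactorial_eq_factorial_mul_choose', ← PadeId_prod2]
    have : ∀ r ∈ range N, (2 * (N : ℤ) - r - ((2 * N + b + 1 : ℕ) : ℤ)) =
        (-1) * (((b + 1 : ℕ) : ℤ) + r) := by
      intro r _
      push_cast
      ring
    rw [prod_congr rfl this, prod_mul_distrib, prod_const, card_range]

theorem pr_PadeId : S_PadeId := by
  intro k N hk
  have hN : (C ((N.factorial : ℕ) : ℤ) : ℤ[X]) ≠ 0 := by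
    rw [Ne, C_eq_zero]
    exact_mod_cast N.factorial_ne_zero
  have hQ : PadeId_G k N N = C ((N.factorial : ℕ) : ℤ) * Qp k N := by
    ext j
    rw [PadeId_coeffG k N N hk.le le_rfl, coeff_C_mul, Qp, finsetSum_coeff]
    simp only [coeff_C_mul, coeff_X_pow, mul_ite, mul_one, mul_zero]
    rw [sum_ite_eq (range (N + 1)) j]
    split_ifs with h
    · have hj : j ≤ N := by have := mem_range.1 h; omega
      rw [← Nat.cast_mul, Nat.cast_inj]
      have h1 : (k - N).ascFactorial j = j.factorial * (k - N + j - 1).choose j :=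
        Nat.ascFactorial_eq_factorial_mul_choose' _ _
      have h2 : (2 * N - j).descFactorial (N - j) * (N.choose j * j.factorial) =
          N.factorial * (2 * N - j).choose N := by
        have h3 := Nat.choose_mul_factorial_mul_factorial hj
        have h4 := Nat.factorial_mul_descFactorial (show N - j ≤ 2 * N - j by omega)
        have h5 := Nat.choose_mul_factorial_mul_factorial (show N ≤ 2 * N - j by omega)
        have e1 : 2 * N - j - (N - j) = N := by omega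
        have e2 : 2 * N - j - N = N - j := by omega
        rw [e1] at h4
        rw [e2] at h5
        have hp : 0 < (N - j).factorial := Nat.factorial_pos _
        apply Nat.eq_of_mul_eq_mul_right hp
        calc (2 * N - j).descFactorial (N - j) * (N.choose j * j.factorial) * (N - j).factorial
            = (2 * N - j).descFactorial (N - j) *
              (N.choose j * j.factorial * (N - j).factorial) := by ring
          _ = N.factorial * (2 * N - j).descFactorial (N - j) := by rw [h3]; ring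
          _ = (2 * N - j).choose N * N.factorial * (N - j).factorial := by rw [h4, h5]
          _ = N.factorial * (2 * N - j).choose N * (N - j).factorial := by ring
      rw [h1]
      calc N.choose j * (2 * N - j).descFactorial (N - j) *
            (j.factorial * (k - N + j - 1).choose j)
          = ((2 * N - j).descFactorial (N - j) * (N.choose j * j.factorial)) *
            (k - N + j - 1).choose j := by ring
        _ = _ := by rw [h2]; ring
    · have hj : N < j := by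
        by_contra h'
        exact h (mem_range.2 (by omega))
      rw [Nat.choose_eq_zero_of_lt hj]
      simp
  have hF : (1 - X) ^ k * PadeId_G k N N = C ((N.factorial : ℕ) : ℤ) * (Pp k N + Rp k N) := by
    ext i
    have h1 := PadeId_F k N N (by omega) i
    rw [show k + N - N = k by omega] at h1
    rw [h1, PadeId_coeffPow, coeff_C_mul, coeff_add, PadeId_prod, Pp, Rp, finsetSum_coeff,
      finsetSum_coeff]
    simp only [coeff_C_mul, coeff_X_pow, mul_ite, mul_one, mul_zero]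
    rw [sum_ite_eq (range (N + 1)) i, sum_ite_eq (Icc (2 * N + 1) (k + N)) i]
    simp only [mem_range, mem_Icc]
    rcases le_or_gt i (2 * N) with h2 | h2
    · rw [if_pos h2, if_neg (show ¬ (2 * N + 1 ≤ i ∧ i ≤ k + N) by omega)]
      rcases le_or_gt i N with h3 | h3
      · rw [if_pos (by omega)]
        push_cast
        ring
      · rw [if_neg (by omega), Nat.choose_eq_zero_of_lt (show 2 * N - i < N by omega)]
        simp
    · rw [if_neg (by omega), if_neg (show ¬ i < N + 1 by omega)]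
      rcases le_or_gt i (k + N) with h3 | h3
      · rw [if_pos (by omega), pow_add]
        push_cast
        ring
      · rw [if_neg (by omega), Nat.choose_eq_zero_of_lt (show k + N < i by omega)]
        simp
  rw [hQ] at hF
  apply mul_left_cancel₀ hN
  rw [← hF]
  ring

end Pool.Agent.Work.MP_a11cf9_nt.Win

end

section

open Finset Polynomial

namespace Pool.Agent.Work.MP_a11cf9_nt.Win

theorem PadeNum_q (k N : ℕ) : ((qz k N : ℤ) : ℚ) = 9 ^ N * aeval (1 / 9 : ℚ) (Qp k N) := by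
  unfold qz Qp
  rw [map_sum, mul_sum]
  push_cast
  refine sum_congr rfl fun j hj => ?_
  rw [mem_range] at hj
  have h9 : (9 : ℚ) ^ N = 9 ^ (N - j) * 9 ^ j := by rw [← pow_add]; congr 1; omega
  simp only [map_mul, map_natCast, map_pow, aeval_X, aeval_C, algebraMap_int_eq, eq_intCast,
    Int.cast_natCast, map_intCast]
  push_cast
  rw [h9, one_div, inv_pow]
  field_simp

theorem PadeNum_p (k N : ℕ) : ((pz k N : ℤ) : ℚ) = 9 ^ N * aeval (1 / 9 : ℚ) (Pp k N) := by
  unfold pz Pp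
  rw [map_sum, mul_sum]
  push_cast
  refine sum_congr rfl fun j hj => ?_
  rw [mem_range] at hj
  have h9 : (9 : ℚ) ^ N = 9 ^ (N - j) * 9 ^ j := by rw [← pow_add]; congr 1; omega
  simp only [map_mul, map_natCast, map_pow, aeval_X, aeval_C, algebraMap_int_eq, eq_intCast,
    Int.cast_natCast, map_intCast, map_neg, map_one]
  push_cast
  rw [h9, one_div, inv_pow]
  field_simp

theorem PadeNum_r (k N : ℕ) : ((rz k N : ℤ) : ℚ) = 9 ^ (k + N) * aeval (1 / 9 : ℚ) (Rp k N) := by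
  unfold rz Rp
  rw [map_sum, mul_sum]
  push_cast
  refine sum_congr rfl fun j hj => ?_
  rw [mem_Icc] at hj
  have h9 : (9 : ℚ) ^ (k + N) = 9 ^ (k + N - j) * 9 ^ j := by rw [← pow_add]; congr 1; omega
  simp only [map_mul, map_natCast, map_pow, aeval_X, aeval_C, algebraMap_int_eq, eq_intCast,
    Int.cast_natCast, map_intCast, map_neg, map_one]
  push_cast
  rw [h9, one_div, inv_pow]
  field_simp

theorem pr_PadeNum (h1 : S_PadeId) : S_PadeNum := by
  intro k N hN
  have h := congrArg (aeval (1 / 9 : ℚ)) (h1 k N hN)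
  rw [map_mul, map_pow, map_sub, map_one, aeval_X, map_add] at h
  have h2 : ((qz k N * 8 ^ k : ℤ) : ℚ) = ((pz k N * 9 ^ k + rz k N : ℤ) : ℚ) := by
    push_cast
    rw [PadeNum_q, PadeNum_p, PadeNum_r, pow_add]
    have h3 : (8 : ℚ) ^ k = 9 ^ k * (1 - 1 / 9) ^ k := by
      rw [← mul_pow]
      norm_num
    rw [h3]
    linear_combination (9 ^ N * 9 ^ k : ℚ) * h
  exact_mod_cast h2

end Pool.Agent.Work.MP_a11cf9_nt.Win

end

section

open Finset

namespace Pool.Agent.Work.MP_a11cf9_nt.Win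

open Pool.Agent.Work.MP_a11cf9_nt

open Polynomial in
theorem PadeDet_q (k N : ℕ) :
    ((qz k N : ℤ) : ℚ) = 9 ^ N * Polynomial.aeval (1 / 9 : ℚ) (Qp k N) := by
  unfold qz Qp
  rw [map_sum, Int.cast_sum, Finset.mul_sum]
  refine Finset.sum_congr rfl fun j hj => ?_
  have hj' : j ≤ N := by
    have := Finset.mem_range.1 hj
    omega
  rw [map_mul, map_pow, aeval_C, aeval_X]
  have h9 : (9 : ℚ) ^ N * (1 / 9) ^ j = 9 ^ (N - j) := by
    rw [one_div, inv_pow, ← div_eq_mul_inv, pow_sub₀ (9 : ℚ) (by norm_num) hj', div_eq_mul_inv]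
  rw [eq_intCast]
  push_cast
  rw [← h9]
  ring

open Polynomial in
theorem PadeDet_p (k N : ℕ) :
    ((pz k N : ℤ) : ℚ) = 9 ^ N * Polynomial.aeval (1 / 9 : ℚ) (Pp k N) := by
  unfold pz Pp
  rw [map_sum, Int.cast_sum, Finset.mul_sum]
  refine Finset.sum_congr rfl fun j hj => ?_
  have hj' : j ≤ N := by
    have := Finset.mem_range.1 hj
    omega
  rw [map_mul, map_pow, aeval_C, aeval_X]
  have h9 : (9 : ℚ) ^ N * (1 / 9) ^ j = 9 ^ (N - j) := by
    rw [one_div, inv_pow, ← div_eq_mul_inv, pow_sub₀ (9 : ℚ) (by norm_num) hj', div_eq_mul_inv]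
  rw [eq_intCast]
  push_cast
  rw [← h9]
  ring

open Polynomial in
theorem PadeDet_degQ (k N : ℕ) : (Qp k N).natDegree ≤ N := by
  unfold Qp
  refine Polynomial.natDegree_sum_le_of_forall_le _ _ fun j hj => ?_
  have hj' : j ≤ N := by
    have := Finset.mem_range.1 hj
    omega
  exact (Polynomial.natDegree_C_mul_X_pow_le _ _).trans hj'

open Polynomial in
theorem PadeDet_degP (k N : ℕ) : (Pp k N).natDegree ≤ N := by
  unfold Pp
  refine Polynomial.natDegree_sum_le_of_forall_le _ _ fun j hj => ?_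
  have hj' : j ≤ N := by
    have := Finset.mem_range.1 hj
    omega
  exact (Polynomial.natDegree_C_mul_X_pow_le _ _).trans hj'

open Polynomial in
theorem PadeDet_coeffR (k N n : ℕ) : (Rp k N).coeff n =
    if n ∈ Icc (2 * N + 1) (k + N) then
      (-1) ^ (N + n) * (((k + N).choose n * (n - N - 1).choose N : ℕ) : ℤ) else 0 := by
  unfold Rp
  rw [Polynomial.finsetSum_coeff]
  simp only [Polynomial.coeff_C_mul, Polynomial.coeff_X_pow, mul_ite, mul_one, mul_zero]
  rw [Finset.sum_ite_eq]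

open Polynomial in
theorem PadeDet_coeffQ0 (k N : ℕ) : (Qp k N).coeff 0 = (((2 * N).choose N : ℕ) : ℤ) := by
  unfold Qp
  rw [Polynomial.finsetSum_coeff]
  simp only [Polynomial.coeff_C_mul, Polynomial.coeff_X_pow, mul_ite, mul_one, mul_zero]
  rw [Finset.sum_ite_eq]
  simp

open Polynomial in
theorem pr_PadeDet (h1 : S_PadeId) : S_PadeDet := by
  intro k N hk heq
  have hA := h1 k N (by omega)
  have hB := h1 k (N + 1) hk
  set P := Pp k N with hP
  set Q := Qp k N with hQ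
  set R := Rp k N with hR
  set P' := Pp k (N + 1) with hP'
  set Q' := Qp k (N + 1) with hQ'
  set R' := Rp k (N + 1) with hR'
  have hD : P * Q' - P' * Q = R' * Q - R * Q' := by
    linear_combination (-Q') * hA + Q * hB
  set D := P * Q' - P' * Q with hDdef
  have hdeg : D.natDegree ≤ 2 * N + 1 := by
    rw [hDdef]
    refine (Polynomial.natDegree_sub_le _ _).trans (max_le ?_ ?_)
    · refine Polynomial.natDegree_mul_le.trans ?_
      have e1 := PadeDet_degP k N
      have e2 := PadeDet_degQ k (N + 1)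
      rw [← hP] at e1
      rw [← hQ'] at e2
      omega
    · refine Polynomial.natDegree_mul_le.trans ?_
      have e1 := PadeDet_degP k (N + 1)
      have e2 := PadeDet_degQ k N
      rw [← hP'] at e1
      rw [← hQ] at e2
      omega
  have hRdvd : (X : ℤ[X]) ^ (2 * N + 1) ∣ R := by
    rw [Polynomial.X_pow_dvd_iff]
    intro d hd
    rw [hR, PadeDet_coeffR, if_neg]
    rw [Finset.mem_Icc]
    omega
  have hRdvd' : (X : ℤ[X]) ^ (2 * N + 2) ∣ R' := by
    rw [Polynomial.X_pow_dvd_iff]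
    intro d hd
    rw [hR', PadeDet_coeffR, if_neg]
    rw [Finset.mem_Icc]
    omega
  obtain ⟨A, hAe⟩ := hRdvd
  obtain ⟨B, hBe⟩ := hRdvd'
  -- D = X ^ (2N+1) * E
  set E := X * B * Q - A * Q' with hE
  have hDE : D = X ^ (2 * N + 1) * E := by
    rw [hD, hAe, hBe, hE]
    ring
  have hE0 : E.coeff 0 = - (R.coeff (2 * N + 1) * Q'.coeff 0) := by
    have hRc : R.coeff (2 * N + 1) = A.coeff 0 := by
      rw [hAe]
      have := Polynomial.coeff_X_pow_mul A (2 * N + 1) 0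
      rw [zero_add] at this
      exact this
    rw [hRc, hE, Polynomial.coeff_sub, Polynomial.mul_coeff_zero, Polynomial.mul_coeff_zero,
      Polynomial.mul_coeff_zero, Polynomial.coeff_X_zero]
    ring
  have hEne : E.coeff 0 ≠ 0 := by
    rw [hE0, hR, hQ', PadeDet_coeffR, PadeDet_coeffQ0, if_pos (by rw [Finset.mem_Icc]; omega)]
    have c1 : (k + N).choose (2 * N + 1) ≠ 0 := (Nat.choose_pos (by omega)).ne'
    have c2 : (2 * N + 1 - N - 1).choose N ≠ 0 := (Nat.choose_pos (by omega)).ne'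
    have c3 : (2 * (N + 1)).choose (N + 1) ≠ 0 := (Nat.choose_pos (by omega)).ne'
    refine neg_ne_zero.2 (mul_ne_zero (mul_ne_zero (pow_ne_zero _ (by norm_num)) ?_) ?_)
    · exact_mod_cast mul_ne_zero c1 c2
    · exact_mod_cast c3
  have hEdeg : E.natDegree = 0 := by
    by_contra hne
    have hEz : E ≠ 0 := fun h => hEne (by rw [h]; simp)
    have := Polynomial.natDegree_mul (p := (X : ℤ[X]) ^ (2 * N + 1)) (q := E)
      (pow_ne_zero _ Polynomial.X_ne_zero) hEz
    rw [← hDE, Polynomial.natDegree_X_pow] at this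
    omega
  have hEC : E = C (E.coeff 0) := Polynomial.eq_C_of_natDegree_eq_zero hEdeg
  -- evaluation
  have hev : Polynomial.aeval (1 / 9 : ℚ) D = (1 / 9) ^ (2 * N + 1) * (E.coeff 0 : ℚ) := by
    rw [hDE, map_mul, map_pow, aeval_X]
    conv_lhs => rw [hEC]
    rw [aeval_C]
    simp
  have hval : ((pz k N * qz k (N + 1) - pz k (N + 1) * qz k N : ℤ) : ℚ) = (E.coeff 0 : ℚ) := by
    push_cast
    rw [PadeDet_q, PadeDet_q, PadeDet_p, PadeDet_p]
    have hsum : Polynomial.aeval (1 / 9 : ℚ) D =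
        aeval (1 / 9 : ℚ) P * aeval (1 / 9 : ℚ) Q' - aeval (1 / 9 : ℚ) P' * aeval (1 / 9 : ℚ) Q := by
      rw [hDdef, map_sub, map_mul, map_mul]
    have h9 : (9 : ℚ) ^ (2 * N + 1) * (1 / 9) ^ (2 * N + 1) = 1 := by
      rw [← mul_pow]
      norm_num
    have : (9 : ℚ) ^ N * aeval (1 / 9 : ℚ) P * (9 ^ (N + 1) * aeval (1 / 9 : ℚ) Q') -
        9 ^ (N + 1) * aeval (1 / 9 : ℚ) P' * (9 ^ N * aeval (1 / 9 : ℚ) Q) =
        9 ^ (2 * N + 1) * aeval (1 / 9 : ℚ) D := by
      rw [hsum]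
      ring
    rw [this, hev, ← mul_assoc, h9, one_mul]
  rw [heq, sub_self] at hval
  apply hEne
  have : ((0 : ℤ) : ℚ) = ((E.coeff 0 : ℤ) : ℚ) := hval
  exact_mod_cast this.symm

end Pool.Agent.Work.MP_a11cf9_nt.Win

end

section

open Finset

namespace Pool.Agent.Work.MP_a11cf9_nt.Win

theorem PadeQ_series (n N : ℕ) (hn : 1 ≤ n) :
    ∑ j ∈ range (N + 1), (((n + j - 1).choose j : ℕ) : ℝ) * (1 / 18) ^ j ≤ (18 / 17) ^ n := by
  obtain ⟨k, rfl⟩ : ∃ k, n = k + 1 := ⟨n - 1, by omega⟩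
  have h := hasSum_choose_mul_geometric_of_norm_lt_one (𝕜 := ℝ) k (r := 1 / 18)
    (by rw [Real.norm_eq_abs, abs_of_pos] <;> norm_num)
  have h2 := sum_le_hasSum (range (N + 1)) (fun i _ => by positivity) h
  have e : (1 : ℝ) / (1 - 1 / 18) ^ (k + 1) = (18 / 17) ^ (k + 1) := by
    rw [one_div, ← inv_pow]; norm_num
  rw [e] at h2
  refine le_trans (le_of_eq ?_) h2
  apply sum_congr rfl
  intro j _
  have e2 : k + 1 + j - 1 = j + k := by omega
  rw [e2, Nat.choose_symm_add]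

theorem pr_PadeQ : S_PadeQ := by
  intro k N hN
  have hnn : ∀ j ∈ range (N + 1), (0 : ℤ) ≤
      (((k - N + j - 1).choose j * (2 * N - j).choose N : ℕ) : ℤ) * 9 ^ (N - j) := by
    intro j _; positivity
  constructor
  · unfold qz
    have h0 : 0 ∈ range (N + 1) := by simp
    refine lt_of_lt_of_le ?_ (single_le_sum hnn h0)
    have : 0 < (2 * N).choose N := Nat.choose_pos (by omega)
    simp only [Nat.choose_zero_right, one_mul, Nat.sub_zero]
    positivity
  · unfold qz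
    push_cast
    have hs := PadeQ_series (k - N) N (by omega)
    have h36 : (0 : ℝ) ≤ 36 ^ N := by positivity
    refine le_trans ?_ (mul_le_mul_of_nonneg_left hs h36)
    rw [mul_sum]
    apply sum_le_sum
    intro j hj
    have hjN : j ≤ N := by have := mem_range.mp hj; omega
    have c1 : (((2 * N - j).choose N : ℕ) : ℝ) ≤ 2 ^ (2 * N - j) := by
      exact_mod_cast Nat.choose_le_two_pow _ _
    have c2 : (2 : ℝ) ^ (2 * N - j) * 9 ^ (N - j) = 36 ^ N * (1 / 18) ^ j := by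
      have d1 : (2 : ℝ) ^ (2 * N - j) * 2 ^ j = 4 ^ N := by
        rw [← pow_add, show 2 * N - j + j = 2 * N by omega, pow_mul]; norm_num
      have d2 : (9 : ℝ) ^ (N - j) * 9 ^ j = 9 ^ N := by
        rw [← pow_add, show N - j + j = N by omega]
      have d3 : (36 : ℝ) ^ N = 4 ^ N * 9 ^ N := by rw [← mul_pow]; norm_num
      have d4 : (18 : ℝ) ^ j = 2 ^ j * 9 ^ j := by rw [← mul_pow]; norm_num
      rw [div_pow, one_pow, mul_one_div, eq_div_iff (by positivity), d3, ← d1, ← d2, d4]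
      ring
    calc (((k - N + j - 1).choose j : ℕ) : ℝ) * (((2 * N - j).choose N : ℕ) : ℝ) * 9 ^ (N - j)
        ≤ (((k - N + j - 1).choose j : ℕ) : ℝ) * 2 ^ (2 * N - j) * 9 ^ (N - j) := by
          gcongr
      _ = (((k - N + j - 1).choose j : ℕ) : ℝ) * (2 ^ (2 * N - j) * 9 ^ (N - j)) := by ring
      _ = 36 ^ N * ((((k - N + j - 1).choose j : ℕ) : ℝ) * (1 / 18) ^ j) := by rw [c2]; ring

end Pool.Agent.Work.MP_a11cf9_nt.Win

end

section

/-!
# Item PadeR: the bound for the remainder of the Pade approximation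
-/


open Finset

namespace Pool.Agent.Work.MP_a11cf9_nt.Win

open Pool.Agent.Work.MP_a11cf9_nt

theorem PadeR_choose (n N : ℕ) : n.choose N * 8 ^ (N + 1) ≤ 9 ^ (n + 1) := by
  have h1 : n.choose N ≤ (n + 1).choose (N + 1) := by
    rw [Nat.choose_succ_succ]; exact Nat.le_add_right _ _
  by_cases hN : N + 1 ≤ n + 1
  · have h2 : (9 : ℕ) ^ (n + 1) = ∑ m ∈ range (n + 1 + 1), 8 ^ m * 1 ^ (n + 1 - m) *
        (n + 1).choose m := by
      have h := add_pow (8 : ℕ) 1 (n + 1)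
      simpa using h
    have h3 : 8 ^ (N + 1) * 1 ^ (n + 1 - (N + 1)) * (n + 1).choose (N + 1) ≤
        ∑ m ∈ range (n + 1 + 1), 8 ^ m * 1 ^ (n + 1 - m) * (n + 1).choose m :=
      Finset.single_le_sum (f := fun m => 8 ^ m * 1 ^ (n + 1 - m) * (n + 1).choose m)
        (fun _ _ => Nat.zero_le _) (by simp; omega)
    rw [h2]
    calc n.choose N * 8 ^ (N + 1) ≤ (n + 1).choose (N + 1) * 8 ^ (N + 1) :=
          Nat.mul_le_mul_right _ h1
      _ = 8 ^ (N + 1) * 1 ^ (n + 1 - (N + 1)) * (n + 1).choose (N + 1) := by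
          rw [one_pow, mul_one, mul_comm]
      _ ≤ _ := h3
  · have : n.choose N = 0 := Nat.choose_eq_zero_of_lt (by omega)
    rw [this, zero_mul]
    exact Nat.zero_le _

theorem pr_PadeR : S_PadeR := by
  intro k N hkN
  have hterm : ∀ i ∈ Icc (2 * N + 1) (k + N),
      |((-1 : ℝ) ^ (N + i) * (((k + N).choose i * (i - N - 1).choose N : ℕ) : ℝ) *
        9 ^ (k + N - i))| ≤ ((k + N).choose i : ℝ) * (9 ^ k / 8 ^ (N + 1)) := by
    intro i hi
    rw [mem_Icc] at hi
    rw [abs_mul, abs_mul, abs_pow, abs_neg, abs_one, one_pow, one_mul, abs_of_nonneg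
      (by positivity : (0 : ℝ) ≤ (((k + N).choose i * (i - N - 1).choose N : ℕ) : ℝ)),
      abs_of_nonneg (by positivity : (0 : ℝ) ≤ 9 ^ (k + N - i))]
    push_cast
    rw [mul_assoc]
    refine mul_le_mul_of_nonneg_left ?_ (by positivity)
    rw [le_div_iff₀ (by positivity)]
    have h1 := PadeR_choose (i - N - 1) N
    have h2 : (((i - N - 1).choose N : ℕ) : ℝ) * 8 ^ (N + 1) ≤ 9 ^ (i - N - 1 + 1) := by
      exact_mod_cast h1
    have h3 : (9 : ℝ) ^ k = 9 ^ (k + N - i) * 9 ^ (i - N - 1 + 1) := by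
      rw [← pow_add]; congr 1; omega
    rw [h3]
    calc (((i - N - 1).choose N : ℕ) : ℝ) * 9 ^ (k + N - i) * 8 ^ (N + 1)
        = 9 ^ (k + N - i) * ((((i - N - 1).choose N : ℕ) : ℝ) * 8 ^ (N + 1)) := by ring
      _ ≤ 9 ^ (k + N - i) * 9 ^ (i - N - 1 + 1) :=
          mul_le_mul_of_nonneg_left h2 (by positivity)
  have hsum : (∑ i ∈ Icc (2 * N + 1) (k + N), ((k + N).choose i : ℝ)) ≤ 2 ^ (k + N) := by
    have h := Nat.sum_range_choose (k + N)
    have h' : (∑ i ∈ Icc (2 * N + 1) (k + N), (k + N).choose i) ≤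
        ∑ i ∈ range (k + N + 1), (k + N).choose i := by
      refine Finset.sum_le_sum_of_subset ?_
      intro i hi
      rw [mem_Icc] at hi
      rw [mem_range]; omega
    rw [h] at h'
    exact_mod_cast h'
  have hcast : ((rz k N : ℤ) : ℝ) = ∑ i ∈ Icc (2 * N + 1) (k + N),
      ((-1 : ℝ) ^ (N + i) * (((k + N).choose i * (i - N - 1).choose N : ℕ) : ℝ) *
        9 ^ (k + N - i)) := by
    unfold rz
    push_cast
    rfl
  have habs : ((|rz k N| : ℤ) : ℝ) = |((rz k N : ℤ) : ℝ)| := Int.cast_abs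
  first
    | rw [habs, hcast]
    | rw [hcast]
  calc |∑ i ∈ Icc (2 * N + 1) (k + N),
      ((-1 : ℝ) ^ (N + i) * (((k + N).choose i * (i - N - 1).choose N : ℕ) : ℝ) *
        9 ^ (k + N - i))| ≤ ∑ i ∈ Icc (2 * N + 1) (k + N),
      |((-1 : ℝ) ^ (N + i) * (((k + N).choose i * (i - N - 1).choose N : ℕ) : ℝ) *
        9 ^ (k + N - i))| := Finset.abs_sum_le_sum_abs _ _
    _ ≤ ∑ i ∈ Icc (2 * N + 1) (k + N), ((k + N).choose i : ℝ) * (9 ^ k / 8 ^ (N + 1)) :=
        Finset.sum_le_sum hterm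
    _ = (∑ i ∈ Icc (2 * N + 1) (k + N), ((k + N).choose i : ℝ)) * (9 ^ k / 8 ^ (N + 1)) := by
        rw [Finset.sum_mul]
    _ ≤ 2 ^ (k + N) * (9 ^ k / 8 ^ (N + 1)) :=
        mul_le_mul_of_nonneg_right hsum (by positivity)
    _ = 2 ^ (k + N) * 9 ^ k / 8 ^ (N + 1) := by ring

end Pool.Agent.Work.MP_a11cf9_nt.Win

end

section

/-!
# Item W: the corners cannot all be bad
-/


open Finset

namespace Pool.Agent.Work.MP_a11cf9_nt.Win

open Pool.Agent.Work.MP_a11cf9_nt

theorem W_pow (x : ℝ) (hx : 1 ≤ x) (j s : ℕ) (hs : s ≤ 4) :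
    x ^ (5 * j + s) ≤ (x ^ 5) ^ j * x ^ 4 := by
  rw [pow_add, pow_mul]
  exact mul_le_mul_of_nonneg_left (pow_le_pow_right₀ hx hs) (by positivity)

/-- the first bound -/
theorem W_q (j s t : ℕ) (hs : s ≤ 4) (ht : t ≤ 3)
    (hj : 130000 * (55000 / 59049 : ℝ) ^ j < 1) :
    (36 : ℝ) ^ (3 * j + t) * (18 / 17) ^ (5 * j + s - (3 * j + t)) * 1.01 ^ (5 * j + s) <
      9 ^ (5 * j + s) / 2 := by
  have h1 : (36 : ℝ) ^ (3 * j + t) ≤ (36 ^ 3) ^ j * 36 ^ 3 := by
    rw [pow_add, pow_mul]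
    exact mul_le_mul_of_nonneg_left (pow_le_pow_right₀ (by norm_num) ht) (by positivity)
  have h2 : (18 / 17 : ℝ) ^ (5 * j + s - (3 * j + t)) ≤ ((18 / 17) ^ 2) ^ j * (18 / 17) ^ 4 := by
    rw [← pow_mul, ← pow_add]
    exact pow_le_pow_right₀ (by norm_num) (by omega)
  have h3 : (1.01 : ℝ) ^ (5 * j + s) ≤ (1.01 ^ 5) ^ j * 1.01 ^ 4 :=
    W_pow _ (by norm_num) j s hs
  have h4 : (36 : ℝ) ^ (3 * j + t) * (18 / 17) ^ (5 * j + s - (3 * j + t)) *
      1.01 ^ (5 * j + s) ≤ ((36 ^ 3) ^ j * 36 ^ 3) * (((18 / 17) ^ 2) ^ j * (18 / 17) ^ 4) *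
        ((1.01 ^ 5) ^ j * 1.01 ^ 4) := by
    apply mul_le_mul (mul_le_mul h1 h2 (by positivity) (by positivity)) h3 (by positivity)
      (by positivity)
  have h5 : ((36 ^ 3) ^ j * 36 ^ 3) * (((18 / 17) ^ 2) ^ j * (18 / 17) ^ 4) *
        ((1.01 ^ 5) ^ j * 1.01 ^ 4) =
      (36 ^ 3 * (18 / 17) ^ 2 * 1.01 ^ 5 : ℝ) ^ j * (36 ^ 3 * (18 / 17) ^ 4 * 1.01 ^ 4) := by
    rw [mul_pow, mul_pow]
    ring
  have h6 : (36 ^ 3 * (18 / 17) ^ 2 * 1.01 ^ 5 : ℝ) ^ j * (36 ^ 3 * (18 / 17) ^ 4 * 1.01 ^ 4) ≤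
      55000 ^ j * 65000 := by
    apply mul_le_mul _ (by norm_num) (by positivity) (by positivity)
    exact pow_le_pow_left₀ (by positivity) (by norm_num) j
  have h7 : (55000 : ℝ) ^ j * 65000 < 59049 ^ j / 2 := by
    have e1 : (55000 / 59049 : ℝ) ^ j * 59049 ^ j = 55000 ^ j := by
      rw [← mul_pow]
      norm_num
    have e2 : (0 : ℝ) < 59049 ^ j := by positivity
    have e3 := mul_lt_mul_of_pos_right hj e2
    rw [mul_assoc, e1] at e3
    linarith
  have h8 : (59049 : ℝ) ^ j ≤ 9 ^ (5 * j + s) := by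
    have e1 : (59049 : ℝ) ^ j = 9 ^ (5 * j) := by
      rw [pow_mul]
      norm_num
    rw [e1]
    exact pow_le_pow_right₀ (by norm_num) (by omega)
  rw [h5] at h4
  linarith

/-- the second bound -/
theorem W_r (j s t : ℕ) (hs : s ≤ 4) (hj : 27 * (61 / 64 : ℝ) ^ j < 1) :
    (2.2725 : ℝ) ^ (5 * j + s) < 4 ^ (3 * j + t) := by
  have h1 : (2.2725 : ℝ) ^ (5 * j + s) ≤ (2.2725 ^ 5) ^ j * 2.2725 ^ 4 :=
    W_pow _ (by norm_num) j s hs
  have h2 : (2.2725 ^ 5 : ℝ) ^ j * 2.2725 ^ 4 ≤ 61 ^ j * 27 := by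
    apply mul_le_mul _ (by norm_num) (by positivity) (by positivity)
    exact pow_le_pow_left₀ (by positivity) (by norm_num) j
  have h3 : (61 : ℝ) ^ j * 27 < 64 ^ j := by
    have e1 : (61 / 64 : ℝ) ^ j * 64 ^ j = 61 ^ j := by
      rw [← mul_pow]
      norm_num
    have e2 : (0 : ℝ) < 64 ^ j := by positivity
    have e3 := mul_lt_mul_of_pos_right hj e2
    rw [mul_assoc, e1] at e3
    linarith
  have h4 : (64 : ℝ) ^ j ≤ 4 ^ (3 * j + t) := by
    have e1 : (64 : ℝ) ^ j = 4 ^ (3 * j) := by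
      rw [pow_mul]
      norm_num
    rw [e1]
    exact pow_le_pow_right₀ (by norm_num) (by omega)
  linarith

/-- the linear form vanishes -/
theorem W_zero (h1 : S_PadeNum) (h3 : S_PadeQ) (h4 : S_PadeR) (j s t k N : ℕ)
    (hk : k = 5 * j + s) (hN : N = 3 * j + t) (hs : s ≤ 4) (ht : t ≤ 3) (hNk : N < k)
    (hj1 : 130000 * (55000 / 59049 : ℝ) ^ j < 1) (hj2 : 27 * (61 / 64 : ℝ) ^ j < 1)
    (V' D F' : ℤ) (he : 9 ^ k * V' = D + 8 ^ k * F')
    (hD : (|D| : ℝ) ≤ 1.01 ^ k) (hF : 8 ^ k * (|F'| : ℝ) ≤ 4 * 9 ^ k * 1.01 ^ k) :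
    qz k N * V' = pz k N * F' := by
  have hnum := h1 k N hNk
  obtain ⟨hq0, hq⟩ := h3 k N hNk
  have hr := h4 k N hNk
  have hid : 9 ^ k * (qz k N * V' - pz k N * F') = qz k N * D + rz k N * F' := by
    have e1 : qz k N * (9 ^ k * V') = qz k N * D + (qz k N * 8 ^ k) * F' := by
      rw [he]; ring
    rw [hnum] at e1
    linear_combination e1
  have hidR : (9 : ℝ) ^ k * ((qz k N * V' - pz k N * F' : ℤ) : ℝ) =
      (qz k N : ℝ) * D + (rz k N : ℝ) * F' := by
    exact_mod_cast hid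
  have h9 : (0 : ℝ) < 9 ^ k := by positivity
  have hb1 : |(qz k N : ℝ) * D| < 9 ^ k / 2 := by
    have hq0' : (0 : ℝ) < (qz k N : ℝ) := by exact_mod_cast hq0
    rw [abs_mul, abs_of_pos hq0']
    have e2 : (qz k N : ℝ) * |(D : ℝ)| ≤ (36 ^ N * (18 / 17) ^ (k - N)) * 1.01 ^ k :=
      mul_le_mul hq hD (abs_nonneg _) (by positivity)
    have e3 := W_q j s t hs ht hj1
    rw [← hk, ← hN] at e3
    linarith
  have hb2 : |(rz k N : ℝ) * F'| < 9 ^ k / 2 := by
    rw [abs_mul]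
    have e0 : (|F'| : ℝ) ≤ 4 * 9 ^ k * 1.01 ^ k / 8 ^ k := by
      rw [le_div_iff₀ (by positivity), mul_comm]
      exact hF
    have e2 : |(rz k N : ℝ)| * |(F' : ℝ)| ≤
        (2 ^ (k + N) * 9 ^ k / 8 ^ (N + 1)) * (4 * 9 ^ k * 1.01 ^ k / 8 ^ k) :=
      mul_le_mul hr e0 (abs_nonneg _) (by positivity)
    have e3 : (2 ^ (k + N) * 9 ^ k / 8 ^ (N + 1) : ℝ) * (4 * 9 ^ k * 1.01 ^ k / 8 ^ k) =
        9 ^ k / 2 * (2.2725 ^ k / 4 ^ N) := by
      have f1 : (2.2725 : ℝ) ^ k = 2 ^ k * 9 ^ k * 1.01 ^ k / 8 ^ k := by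
        rw [← mul_pow, ← mul_pow, ← div_pow]
        norm_num
      have f2 : (8 : ℝ) ^ (N + 1) = 8 * (2 ^ N * 4 ^ N) := by
        rw [← mul_pow, pow_succ]
        norm_num
        ring
      rw [f1, f2, pow_add]
      field_simp
      ring
    have e4 := W_r j s t hs hj2
    rw [← hk, ← hN] at e4
    have e5 : (2.2725 : ℝ) ^ k / 4 ^ N < 1 := by
      rw [div_lt_one (by positivity)]
      exact e4
    have e6 : (9 : ℝ) ^ k / 2 * (2.2725 ^ k / 4 ^ N) < 9 ^ k / 2 * 1 :=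
      mul_lt_mul_of_pos_left e5 (by positivity)
    rw [e3] at e2
    linarith
  have hlt : |((qz k N * V' - pz k N * F' : ℤ) : ℝ)| < 1 := by
    have e1 : (9 : ℝ) ^ k * |((qz k N * V' - pz k N * F' : ℤ) : ℝ)| < 9 ^ k * 1 := by
      have e2 : (9 : ℝ) ^ k * |((qz k N * V' - pz k N * F' : ℤ) : ℝ)| =
          |(9 : ℝ) ^ k * ((qz k N * V' - pz k N * F' : ℤ) : ℝ)| := by
        rw [abs_mul, abs_of_pos h9]
      rw [e2, hidR]
      calc |(qz k N : ℝ) * D + (rz k N : ℝ) * F'| ≤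
            |(qz k N : ℝ) * D| + |(rz k N : ℝ) * F'| := abs_add_le _ _
        _ < 9 ^ k * 1 := by linarith
    exact lt_of_mul_lt_mul_left e1 h9.le
  rw [← Int.cast_abs] at hlt
  have hlt' : |qz k N * V' - pz k N * F'| < 1 := by exact_mod_cast hlt
  exact sub_eq_zero.1 (Int.abs_lt_one_iff.mp hlt')

theorem W_small (C x : ℝ) (hC : 0 < C) (hx0 : 0 < x) (hx1 : x < 1) :
    ∃ j0 : ℕ, ∀ j, j0 ≤ j → C * x ^ j < 1 := by
  obtain ⟨j0, hj0⟩ := exists_pow_lt_of_lt_one (one_div_pos.mpr hC) hx1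
  refine ⟨j0, fun j hj => ?_⟩
  have h1 : x ^ j ≤ x ^ j0 := pow_le_pow_of_le_one hx0.le hx1.le hj
  have h2 : C * x ^ j < C * (1 / C) := mul_lt_mul_of_pos_left (lt_of_le_of_lt h1 hj0) hC
  rwa [mul_one_div_cancel hC.ne'] at h2

theorem pr_W (h1 : S_PadeNum) (h2 : S_PadeDet) (h3 : S_PadeQ) (h4 : S_PadeR) : S_W := by
  obtain ⟨j1, hj1⟩ := W_small 130000 (55000 / 59049) (by norm_num) (by norm_num) (by norm_num)
  obtain ⟨j2, hj2⟩ := W_small 27 (61 / 64) (by norm_num) (by norm_num) (by norm_num)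
  refine ⟨5 * (j1 + j2 + 2), ?_⟩
  intro k hk A B hB hA V D F hV hF hVb hDb he
  obtain ⟨j, s, hks, hs⟩ : ∃ j s : ℕ, k = 5 * j + s ∧ s ≤ 4 := ⟨k / 5, k % 5, by omega, by omega⟩
  have hja : j1 ≤ j := by omega
  have hjb : j2 ≤ j := by omega
  have hj2' : 2 ≤ j := by omega
  obtain ⟨b, hb, hb1⟩ : ∃ b : ℕ, B = 2 * k + b ∧ b ≤ 1 := by
    rcases hB with h | h
    · exact ⟨0, by omega, by omega⟩
    · exact ⟨1, by omega, by omega⟩
  obtain ⟨a, ha⟩ : ∃ a : ℕ, A = 3 * k + a := ⟨A - 3 * k, by omega⟩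
  set V' : ℤ := 3 ^ b * V with hV'
  set F' : ℤ := 2 ^ a * F with hF'
  have he' : 9 ^ k * V' = D + 8 ^ k * F' := by
    have e1 : (3 : ℤ) ^ B = 9 ^ k * 3 ^ b := by
      rw [hb, pow_add, pow_mul]
      norm_num
    have e2 : (2 : ℤ) ^ A = 8 ^ k * 2 ^ a := by
      rw [ha, pow_add, pow_mul]
      norm_num
    rw [e1, e2] at he
    rw [hV', hF']
    linear_combination he
  have hV0 : V' ≠ 0 := mul_ne_zero (pow_ne_zero _ (by norm_num)) hV
  have hF0 : F' ≠ 0 := mul_ne_zero (pow_ne_zero _ (by norm_num)) hF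
  have hV'b : |(V' : ℝ)| ≤ 3 * 1.01 ^ k := by
    rw [hV']
    push_cast
    rw [abs_mul, abs_of_pos (by positivity)]
    apply mul_le_mul _ hVb (abs_nonneg _) (by norm_num)
    calc (3 : ℝ) ^ b ≤ 3 ^ 1 := pow_le_pow_right₀ (by norm_num) hb1
      _ = 3 := by norm_num
  have hF'b : 8 ^ k * |(F' : ℝ)| ≤ 4 * 9 ^ k * 1.01 ^ k := by
    have e1 : (8 : ℝ) ^ k * F' = 9 ^ k * V' - D := by
      have e2 : (9 : ℝ) ^ k * V' = D + 8 ^ k * F' := by exact_mod_cast he'
      linarith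
    have e3 : 8 ^ k * |(F' : ℝ)| = |(8 : ℝ) ^ k * F'| := by
      rw [abs_mul, abs_of_pos (show (0 : ℝ) < 8 ^ k by positivity)]
    rw [e3, e1]
    have h9 : (1 : ℝ) ≤ 9 ^ k := one_le_pow₀ (by norm_num)
    have h10 : (0 : ℝ) ≤ 1.01 ^ k := by positivity
    calc |(9 : ℝ) ^ k * V' - D| ≤ |(9 : ℝ) ^ k * V'| + |(D : ℝ)| := abs_sub _ _
      _ = 9 ^ k * |(V' : ℝ)| + |(D : ℝ)| := by rw [abs_mul, abs_of_pos (by positivity)]
      _ ≤ 9 ^ k * (3 * 1.01 ^ k) + 1.01 ^ k :=
          add_le_add (mul_le_mul_of_nonneg_left hV'b (by positivity)) hDb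
      _ ≤ 9 ^ k * (3 * 1.01 ^ k) + 9 ^ k * 1.01 ^ k := by
          have := mul_le_mul_of_nonneg_right h9 h10
          linarith
      _ = 4 * 9 ^ k * 1.01 ^ k := by ring
  -- the two indices
  obtain ⟨t, ht, ht2, ht3⟩ : ∃ t : ℕ, t ≤ 2 ∧ 3 * j + t + 1 < k ∧ True :=
    ⟨0, by omega, by omega, trivial⟩
  have z0 := W_zero h1 h3 h4 j s t k (3 * j + t) hks rfl hs (by omega) (by omega)
    (hj1 j hja) (hj2 j hjb) V' D F' he' hDb hF'b
  have z1 := W_zero h1 h3 h4 j s (t + 1) k (3 * j + t + 1) hks (by ring) hs (by omega) ht2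
    (hj1 j hja) (hj2 j hjb) V' D F' he' hDb hF'b
  apply h2 k (3 * j + t) ht2
  have hVF : V' * F' ≠ 0 := mul_ne_zero hV0 hF0
  apply mul_right_cancel₀ hVF
  calc pz k (3 * j + t) * qz k (3 * j + t + 1) * (V' * F') =
      (pz k (3 * j + t) * F') * (qz k (3 * j + t + 1) * V') := by ring
    _ = (qz k (3 * j + t) * V') * (pz k (3 * j + t + 1) * F') := by rw [z0, z1]
    _ = pz k (3 * j + t + 1) * qz k (3 * j + t) * (V' * F') := by ring

end Pool.Agent.Work.MP_a11cf9_nt.Win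

end

section

/-!
# Item NoBad
-/

namespace Pool.Agent.Work.MP_a11cf9_nt.Win

open Pool.Agent.Work.MP_a11cf9_nt

theorem NoBad_low (B J l : ℕ) (hJ : 1 ≤ J) (hl : 2000 * l ≤ J) (V D F : ℤ) (hF : F ≠ 0)
    (hV : |V| < 6 ^ l) (hD : |D| < 9 ^ l) (h : 3 ^ B * V = D + 2 ^ J * F) :
    V ≠ 0 ∧ 5 * (J - 1) ≤ 8 * B + 15 * l := by
  have h9 : (9 : ℤ) ^ l ≤ 2 ^ (J - 1) := by
    calc (9 : ℤ) ^ l ≤ 16 ^ l := pow_le_pow_left₀ (by norm_num) (by norm_num) l
      _ = 2 ^ (4 * l) := by rw [pow_mul]; norm_num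
      _ ≤ 2 ^ (J - 1) := pow_le_pow_right₀ (by norm_num) (by omega)
  have h2J : (2 : ℤ) ^ J = 2 * 2 ^ (J - 1) := by
    rw [← pow_succ']
    congr 1
    omega
  have hF1 : 1 ≤ |F| := Int.one_le_abs hF
  have hpos : (0 : ℤ) < 2 ^ (J - 1) := by positivity
  have h1 : (2 : ℤ) ^ J ≤ 3 ^ B * |V| + |D| := by
    have h2 : (2 : ℤ) ^ J * |F| = |3 ^ B * V - D| := by
      rw [h]
      have : D + 2 ^ J * F - D = 2 ^ J * F := by ring
      rw [this, abs_mul, abs_of_pos (by positivity : (0 : ℤ) < 2 ^ J)]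
    have h3 : |3 ^ B * V - D| ≤ |3 ^ B * V| + |D| := abs_sub _ _
    rw [abs_mul, abs_of_pos (by positivity : (0 : ℤ) < 3 ^ B)] at h3
    have h4 : (2 : ℤ) ^ J ≤ 2 ^ J * |F| := by
      have : (0 : ℤ) < 2 ^ J := by positivity
      nlinarith
    linarith
  constructor
  · intro hV0
    rw [hV0] at h1
    simp at h1
    linarith
  · have h5 : (2 : ℤ) ^ (J - 1) < 3 ^ B * 6 ^ l := by
      have h6 : (3 : ℤ) ^ B * |V| ≤ 3 ^ B * 6 ^ l :=
        mul_le_mul_of_nonneg_left hV.le (by positivity)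
      linarith
    have h6 : (2 : ℤ) ^ (J - 1) ≤ 3 ^ B * 2 ^ (3 * l) := by
      refine h5.le.trans ?_
      apply mul_le_mul_of_nonneg_left _ (by positivity)
      rw [pow_mul]
      exact pow_le_pow_left₀ (by norm_num) (by norm_num) l
    have h7 : (2 : ℤ) ^ (5 * (J - 1)) ≤ 2 ^ (8 * B + 15 * l) := by
      calc (2 : ℤ) ^ (5 * (J - 1)) = (2 ^ (J - 1)) ^ 5 := by rw [← pow_mul]; congr 1; ring
        _ ≤ (3 ^ B * 2 ^ (3 * l)) ^ 5 := pow_le_pow_left₀ (by positivity) h6 5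
        _ = (3 ^ 5) ^ B * 2 ^ (15 * l) := by
            rw [mul_pow, ← pow_mul, ← pow_mul, ← pow_mul]
            congr 2 <;> ring
        _ ≤ (2 ^ 8) ^ B * 2 ^ (15 * l) := by
            apply mul_le_mul_of_nonneg_right _ (by positivity)
            exact pow_le_pow_left₀ (by norm_num) (by norm_num) B
        _ = 2 ^ (8 * B + 15 * l) := by rw [pow_add, pow_mul 2 8 B]
    exact (pow_le_pow_iff_right₀ (by norm_num : (1 : ℤ) < 2)).mp h7

theorem NoBad_up (B J l : ℕ) (P : ℝ) (hJ : 40 ≤ J) (hl : 2000 * l ≤ J) (hP1 : 1 ≤ P)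
    (hP : P ≤ (2 : ℝ) ^ ((J : ℝ) / 1000)) (V D F : ℤ) (hV : V ≠ 0)
    (hD : |D| < 9 ^ l) (hF : (|F| : ℝ) ≤ 3 ^ l * (P * 3 ^ l + 1))
    (h : 3 ^ B * V = D + 2 ^ J * F) : 3 * B ≤ 2 * J := by
  have h1 : (3 : ℝ) ^ B ≤ 3 * 2 ^ J * P * 9 ^ l := by
    have hV1 : 1 ≤ |V| := Int.one_le_abs hV
    have h2 : (3 : ℤ) ^ B ≤ |D| + 2 ^ J * |F| := by
      have h3 : (3 : ℤ) ^ B * |V| = |D + 2 ^ J * F| := by
        rw [← h, abs_mul, abs_of_pos (by positivity : (0 : ℤ) < 3 ^ B)]
      have h4 : |D + 2 ^ J * F| ≤ |D| + |2 ^ J * F| := abs_add_le _ _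
      rw [abs_mul, abs_of_pos (by positivity : (0 : ℤ) < 2 ^ J)] at h4
      have h5 : (3 : ℤ) ^ B ≤ 3 ^ B * |V| := by
        have : (0 : ℤ) < 3 ^ B := by positivity
        nlinarith
      linarith
    have h3 : (3 : ℝ) ^ B ≤ |(D : ℝ)| + 2 ^ J * |(F : ℝ)| := by
      have := (Int.cast_le (R := ℝ)).mpr h2
      push_cast at this
      exact this
    have h4 : |(D : ℝ)| ≤ 9 ^ l := by
      have := (Int.cast_le (R := ℝ)).mpr hD.le
      push_cast at this
      exact this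
    have h5 : (2 : ℝ) ^ J * |(F : ℝ)| ≤ 2 ^ J * (3 ^ l * (P * 3 ^ l + 1)) :=
      mul_le_mul_of_nonneg_left hF (by positivity)
    have h9 : (9 : ℝ) ^ l = 3 ^ l * 3 ^ l := by
      rw [← mul_pow]
      norm_num
    have h6 : (1 : ℝ) ≤ 3 ^ l := one_le_pow₀ (by norm_num)
    have h7 : (1 : ℝ) ≤ 2 ^ J := one_le_pow₀ (by norm_num)
    have h8 : (1 : ℝ) ≤ 9 ^ l := one_le_pow₀ (by norm_num)
    have a1 : (9 : ℝ) ^ l ≤ 2 ^ J * P * 9 ^ l := by
      have : (1 : ℝ) ≤ 2 ^ J * P := by nlinarith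
      nlinarith
    have a2 : (2 : ℝ) ^ J * 3 ^ l ≤ 2 ^ J * P * 9 ^ l := by
      rw [h9, mul_assoc ((2 : ℝ) ^ J)]
      apply mul_le_mul_of_nonneg_left _ (by positivity)
      have : (1 : ℝ) ≤ P * 3 ^ l := by nlinarith
      nlinarith
    have a3 : (2 : ℝ) ^ J * (3 ^ l * (P * 3 ^ l + 1)) = 2 ^ J * P * 9 ^ l + 2 ^ J * 3 ^ l := by
      rw [h9]
      ring
    rw [a3] at h5
    linarith
  have hlog : (B : ℝ) * Real.log 3 ≤ Real.log 3 + J * Real.log 2 + (J : ℝ) / 1000 * Real.log 2 +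
      l * Real.log 9 := by
    have h2 := Real.log_le_log (by positivity) h1
    have hP0 : 0 < P := by linarith
    rw [Real.log_mul (by positivity) (by positivity), Real.log_mul (by positivity) (by positivity),
      Real.log_mul (by positivity) (by positivity), Real.log_pow, Real.log_pow, Real.log_pow] at h2
    have h3 : Real.log P ≤ (J : ℝ) / 1000 * Real.log 2 := by
      have := Real.log_le_log hP0 hP
      rwa [Real.log_rpow (by norm_num)] at this
    linarith
  have h9 : Real.log 9 = 2 * Real.log 3 := by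
    rw [show (9 : ℝ) = 3 ^ 2 by norm_num, Real.log_pow]
    norm_num
  have h3pos : 0 < Real.log 3 := Real.log_pos (by norm_num)
  have h23 : 19 * Real.log 2 ≤ 12 * Real.log 3 := by
    have h2 : Real.log ((2 : ℝ) ^ 19) ≤ Real.log ((3 : ℝ) ^ 12) :=
      Real.log_le_log (by positivity) (by norm_num)
    rw [Real.log_pow, Real.log_pow] at h2
    exact_mod_cast h2
  by_contra hcon
  push Not at hcon
  have hB : (2 * J + 1 : ℝ) ≤ 3 * B := by
    have : 2 * J + 1 ≤ 3 * B := hcon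
    exact_mod_cast this
  have hJr : (40 : ℝ) ≤ J := by exact_mod_cast hJ
  have hlr : (2000 : ℝ) * l ≤ J := by exact_mod_cast hl
  rw [h9] at hlog
  -- divide by log 3
  have e1 : (J : ℝ) * Real.log 2 ≤ J * (12 / 19 * Real.log 3) := by
    apply mul_le_mul_of_nonneg_left _ (by linarith)
    linarith
  have e2 : (l : ℝ) * (2 * Real.log 3) ≤ J / 1000 * Real.log 3 := by
    have : (l : ℝ) * 2 ≤ J / 1000 := by linarith
    nlinarith
  have e3 : (J : ℝ) / 1000 * Real.log 2 ≤ J / 1000 * (12 / 19 * Real.log 3) := by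
    apply mul_le_mul_of_nonneg_left _ (by linarith)
    linarith
  have e4 : (B : ℝ) * Real.log 3 ≤ (1 + J * (12 / 19) + J / 1000 * (12 / 19) + J / 1000) *
      Real.log 3 := by
    linarith
  have e5 := le_of_mul_le_mul_right e4 h3pos
  linarith

theorem pr_NoBad (h1 : S_Chain) (h2 : S_W) : S_NoBad := by
  obtain ⟨k₀, hk₀⟩ := h2
  refine ⟨4 * k₀ + 40, ?_⟩
  intro K L l P hJ hl hlL h5 hP1 hP m _ hT
  by_contra hcon
  push Not at hcon
  obtain ⟨V, D, F, hD0, hF0, hV, hD, hF, h⟩ := h1 K L l P m hlL h5 hP1 hT hcon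
  obtain ⟨hV0, hlow⟩ := NoBad_low (odds m (K + L)) (K + L) l (by omega) hl V D F hF0 hV hD h
  have hup := NoBad_up (odds m (K + L)) (K + L) l P (by omega) hl hP1 hP V D F hV0 hD hF h
  set B := odds m (K + L) with hB
  have hk1 : k₀ ≤ B / 2 := by omega
  have hk2 : 250 * l ≤ B / 2 := by omega
  have h101 : (9 : ℝ) ^ l ≤ 1.01 ^ (B / 2) := by
    calc (9 : ℝ) ^ l ≤ ((1.01 : ℝ) ^ 250) ^ l := by
          apply pow_le_pow_left₀ (by norm_num)
          norm_num
      _ = (1.01 : ℝ) ^ (250 * l) := by rw [pow_mul]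
      _ ≤ 1.01 ^ (B / 2) := pow_le_pow_right₀ (by norm_num) hk2
  have h69 : (6 : ℝ) ^ l ≤ 9 ^ l := pow_le_pow_left₀ (by norm_num) (by norm_num) l
  refine hk₀ (B / 2) hk1 (K + L) B (by omega) (by omega) V D F hV0 hF0 ?_ ?_ h
  · have := (Int.cast_le (R := ℝ)).mpr hV.le
    push_cast at this
    exact this.trans (h69.trans h101)
  · have := (Int.cast_le (R := ℝ)).mpr hD.le
    push_cast at this
    exact this.trans h101

end Pool.Agent.Work.MP_a11cf9_nt.Win

end
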