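import Mathlib
import Pool.Agent.Work.MP_a11cf9_nt.Win.Stmts

set_option autoImplicit false

section

open Finset

namespace Pool.Agent.Work.MP_a11cf9_nt.Win

open Pool.Agent.Work.MP_a11cf9_nt

theorem pr_ZZ : S_ZZ := by
  have hl2 : 0 < Real.log 2 := log_two_pos
  have hl3 : 0 < Real.log 3 := log_three_pos
  have e1 : 3 * Real.log 3 < 5 * Real.log 2 := by
    have h := Real.log_lt_log (show (0 : ℝ) < 3 ^ 3 by norm_num)
      (show (3 : ℝ) ^ 3 < 2 ^ 5 by norm_num)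
    rw [Real.log_pow, Real.log_pow] at h
    push_cast at h
    linarith
  have e2 : 3 * Real.log 2 < 2 * Real.log 3 := by
    have h := Real.log_lt_log (show (0 : ℝ) < 2 ^ 3 by norm_num)
      (show (2 : ℝ) ^ 3 < 3 ^ 2 by norm_num)
    rw [Real.log_pow, Real.log_pow] at h
    push_cast at h
    linarith
  have r1 : 3 / 5 < rho := by
    unfold rho
    rw [div_lt_div_iff₀ (by norm_num) hl3]
    linarith
  have r2 : rho < 2 / 3 := by
    unfold rho
    rw [div_lt_div_iff₀ hl3 (by norm_num)]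
    linarith
  have h1r : 0 < 1 - rho := by linarith
  have z1 : 3 / 2 < zz := by
    unfold zz
    rw [div_lt_div_iff₀ (by norm_num) h1r]
    linarith
  have z2 : zz < 2 := by
    unfold zz
    rw [div_lt_iff₀ h1r]
    linarith
  have z3 : 1 + zz = (1 - rho)⁻¹ := by
    unfold zz
    field_simp
    ring
  refine ⟨r1, r2, z1, z2, ?_, ?_, ?_⟩
  · rw [z3]
    unfold zz
    field_simp
  · rw [div_le_iff₀ (by linarith)]
    have h : √zz ≤ 49 / 100 * (1 + zz) := by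
      rw [Real.sqrt_le_iff]
      constructor
      · nlinarith
      · nlinarith
    linarith
  · have hr : 0 < rho := by linarith
    have l1 : Real.log (1 + zz) = - Real.log (1 - rho) := by
      rw [z3, Real.log_inv]
    have l2 : Real.log zz = Real.log rho - Real.log (1 - rho) := by
      unfold zz
      rw [Real.log_div hr.ne' h1r.ne']
    rw [l1, l2]
    unfold hh Real.binEntropy
    rw [Real.log_inv, Real.log_inv]
    ring

end Pool.Agent.Work.MP_a11cf9_nt.Win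

end

section

open Finset

namespace Pool.Agent.Work.MP_a11cf9_nt.Win

open Pool.Agent.Work.MP_a11cf9_nt

/-- pure algebra of the item -/
theorem Core_alg (z Ua Sb X Y N Cm Mm Bm Sp c s q : ℝ) (a b g : ℕ) (hz : 1 < z) (hUa : 0 ≤ Ua)
    (hSb : 0 ≤ Sb) (hX : 0 ≤ X) (hY : 0 ≤ Y) (hMm : 0 ≤ Mm) (hBm : 0 ≤ Bm)
    (hSp : 0 ≤ Sp) (hc : 0 ≤ c)
    (hCm : Cm = X * c / z ^ g) (hq : z ^ b * Sp ≤ Y * s)
    (h1 : N ^ 2 ≤ Ua * (2 * Sb ^ 2 * Cm * Mm + N * Bm * Sp)) (h2 : N ≤ Ua * Sb)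
    (h3 : Ua * z ^ a ≤ X) (h4 : Sb * z ^ b ≤ Y) (hqq : q = Bm * s) :
    (z ^ (a + b) * N) ^ 2 ≤ (X * Y) ^ 2 * (2 * (z ^ a / z ^ g) * c * Mm + q) := by
  have hz0 : (0 : ℝ) < z := by linarith
  have hza : (0 : ℝ) < z ^ a := pow_pos hz0 _
  have hzb : (0 : ℝ) < z ^ b := pow_pos hz0 _
  have hzg : (0 : ℝ) < z ^ g := pow_pos hz0 _
  have hCm0 : 0 ≤ Cm := by
    rw [hCm]
    positivity
  have e1 : (z ^ (a + b) * N) ^ 2 ≤
      (z ^ a * z ^ b) ^ 2 * (Ua * (2 * Sb ^ 2 * Cm * Mm + (Ua * Sb) * Bm * Sp)) := by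
    rw [pow_add, mul_pow]
    refine mul_le_mul_of_nonneg_left (h1.trans ?_) (by positivity)
    refine mul_le_mul_of_nonneg_left ?_ hUa
    have : N * Bm * Sp ≤ Ua * Sb * Bm * Sp := by
      refine mul_le_mul_of_nonneg_right (mul_le_mul_of_nonneg_right h2 hBm) hSp
    linarith
  refine e1.trans ?_
  have e2 : (z ^ a * z ^ b) ^ 2 * (Ua * (2 * Sb ^ 2 * Cm * Mm + (Ua * Sb) * Bm * Sp)) =
      2 * (Ua * z ^ a) * (Sb * z ^ b) ^ 2 * (z ^ a * Cm * Mm) +
        (Ua * z ^ a) ^ 2 * (Sb * z ^ b) * (Bm * (z ^ b * Sp)) := by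
    ring
  rw [e2]
  have hA0 : 0 ≤ Ua * z ^ a := by positivity
  have hB0 : 0 ≤ Sb * z ^ b := by positivity
  have e3 : 2 * (Ua * z ^ a) * (Sb * z ^ b) ^ 2 * (z ^ a * Cm * Mm) ≤
      2 * X * Y ^ 2 * (z ^ a * Cm * Mm) := by
    refine mul_le_mul_of_nonneg_right ?_ (by positivity)
    refine mul_le_mul (by linarith) (pow_le_pow_left₀ hB0 h4 2) (by positivity) (by positivity)
  have e4 : (Ua * z ^ a) ^ 2 * (Sb * z ^ b) * (Bm * (z ^ b * Sp)) ≤
      X ^ 2 * Y * (Bm * (Y * s)) := by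
    refine mul_le_mul ?_ (mul_le_mul_of_nonneg_left hq hBm) (by positivity) (by positivity)
    exact mul_le_mul (pow_le_pow_left₀ hA0 h3 2) h4 hB0 (by positivity)
  have e5 : 2 * X * Y ^ 2 * (z ^ a * Cm * Mm) + X ^ 2 * Y * (Bm * (Y * s)) =
      (X * Y) ^ 2 * (2 * (z ^ a / z ^ g) * c * Mm + q) := by
    rw [hCm, hqq]
    field_simp
  linarith [e3, e4, e5]

open Classical in
theorem Core_split (S : Finset ℕ) (K L h : ℕ) :
    (((S ×ˢ S).filter fun p => p.1 % 2 ^ K = p.2 % 2 ^ K).card : ℝ) ≤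
      (((S ×ˢ S).filter fun p => p.1 % 2 ^ K = p.2 % 2 ^ K ∧
        h ≤ ham (T^[K + L] p.1) (T^[K + L] p.2) K).card : ℝ) +
      (((S ×ˢ S).filter fun p => p.1 % 2 ^ K = p.2 % 2 ^ K ∧
        ham (T^[K + L] p.1) (T^[K + L] p.2) K < h).card : ℝ) := by
  have hsub : ((S ×ˢ S).filter fun p => p.1 % 2 ^ K = p.2 % 2 ^ K) ⊆
      ((S ×ˢ S).filter fun p => p.1 % 2 ^ K = p.2 % 2 ^ K ∧
        h ≤ ham (T^[K + L] p.1) (T^[K + L] p.2) K) ∪
      ((S ×ˢ S).filter fun p => p.1 % 2 ^ K = p.2 % 2 ^ K ∧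
        ham (T^[K + L] p.1) (T^[K + L] p.2) K < h) := by
    intro p hp
    rw [Finset.mem_filter] at hp
    rw [Finset.mem_union, Finset.mem_filter, Finset.mem_filter]
    rcases le_or_gt h (ham (T^[K + L] p.1) (T^[K + L] p.2) K) with hh | hh
    · exact Or.inl ⟨hp.1, hp.2, hh⟩
    · exact Or.inr ⟨hp.1, hp.2, hh⟩
  have := (Finset.card_le_card hsub).trans (Finset.card_union_le _ _)
  exact_mod_cast this

open Classical in
theorem Core_mem (K L l : ℕ) (P : ℝ) (g a b m : ℕ) (hm : m ∈ Sab K L l P g a b) :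
    odds m K = a := by
  unfold Sab at hm
  exact (Finset.mem_filter.1 hm).2.2.1

theorem pr_Core (h1 : S_CSa) (h2 : S_SabLe) (h3 : S_Far) (h4 : S_Near) (h5 : S_Corr)
    (h6 : S_Mult) (h7 : S_Ball) (h8 : S_Spread) (h9 : S_Wt) (h10 : S_ZZ) : S_Core := by
  intro K L l P g h a b hP hlL hbad
  obtain ⟨-, hrho2, hz1, hz2, hzr, hzs, -⟩ := h10
  have hz0 : (0 : ℝ) < zz := by linarith
  have hzone : (1 : ℝ) < zz := by linarith
  have hsq0 : 0 < √zz := Real.sqrt_pos.2 hz0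
  have hsq : √zz ^ 2 = zz := Real.sq_sqrt hz0.le
  have hsq1 : 1 ≤ √zz := by
    rw [Real.one_le_sqrt]
    exact hzone.le
  -- correlations
  have hCorr : ∀ D, ((CorrSet K D g h).card : ℝ) ≤ (1 + zz) ^ K * (49 / 50) ^ h / zz ^ g := by
    intro D
    have hc := h5 (√zz) K D g h hsq1
    rw [pow_mul, hsq] at hc
    have hratio : (50 / 49 : ℝ) ≤ (1 + zz) / (2 * √zz) := by
      rw [le_div_iff₀ (by positivity)]
      rw [div_le_iff₀ (by linarith)] at hzs
      linarith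
    have hpow : (50 / 49 : ℝ) ^ h ≤ ((1 + zz) / (2 * √zz)) ^ h :=
      pow_le_pow_left₀ (by norm_num) hratio h
    have hcard0 : (0 : ℝ) ≤ ((CorrSet K D g h).card : ℝ) := Nat.cast_nonneg _
    have hzg : (0 : ℝ) < zz ^ g := pow_pos hz0 _
    have hc2 : ((CorrSet K D g h).card : ℝ) * (zz ^ g * (50 / 49) ^ h) ≤ (1 + zz) ^ K := by
      refine le_trans ?_ hc
      exact mul_le_mul_of_nonneg_left (mul_le_mul_of_nonneg_left hpow hzg.le) hcard0
    rw [le_div_iff₀ hzg]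
    have hinv : (50 / 49 : ℝ) ^ h * (49 / 50) ^ h = 1 := by
      rw [← mul_pow]
      norm_num
    have hpos : (0 : ℝ) < (49 / 50) ^ h := by positivity
    calc ((CorrSet K D g h).card : ℝ) * zz ^ g
        = ((CorrSet K D g h).card : ℝ) * (zz ^ g * (50 / 49) ^ h) * (49 / 50) ^ h := by
          rw [mul_assoc, mul_assoc, hinv, mul_one]
      _ ≤ (1 + zz) ^ K * (49 / 50) ^ h := mul_le_mul_of_nonneg_right hc2 hpos.le
  have hMult : ∀ s y, ((Fib2 K L l P a s y).card : ℝ) ≤ (2 * P + 3) * (K * P + 1) :=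
    fun s y => h6 K L l P a s y hP
  have hBall : ∀ x, ((Ball K h x).card : ℝ) ≤ 50 ^ h * (51 / 50) ^ K := by
    intro x
    have hb := h7 (1 / 50) K h x (by norm_num) (by norm_num)
    have e : (1 + 1 / 50 : ℝ) = 51 / 50 := by norm_num
    rw [e] at hb
    have hinv : (1 / 50 : ℝ) ^ h * 50 ^ h = 1 := by
      rw [← mul_pow]
      norm_num
    have hpos : (0 : ℝ) < 50 ^ h := by positivity
    calc ((Ball K h x).card : ℝ) = ((Ball K h x).card : ℝ) * (1 / 50) ^ h * 50 ^ h := by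
          rw [mul_assoc, hinv, mul_one]
      _ ≤ (51 / 50) ^ K * 50 ^ h := mul_le_mul_of_nonneg_right hb hpos.le
      _ = 50 ^ h * (51 / 50) ^ K := by ring
  have hSpread : ∀ u y, ((Fib K L l P u b y).card : ℝ) ≤
      (L + 1) * ((1 + zz) ^ (L - l) * ((l + 1) * zz ^ l)) / zz ^ b := by
    intro u y
    rw [le_div_iff₀ (pow_pos hz0 _)]
    exact h8 K L l P zz u b y hzone.le hbad
  have hP0 : 0 ≤ P := by linarith
  have hCm0 : (0 : ℝ) ≤ (1 + zz) ^ K * (49 / 50) ^ h / zz ^ g := by positivity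
  have hMm0 : (0 : ℝ) ≤ (2 * P + 3) * (K * P + 1) := by positivity
  have hBm0 : (0 : ℝ) ≤ 50 ^ h * (51 / 50) ^ K := by positivity
  have hSp0 : (0 : ℝ) ≤ (L + 1) * ((1 + zz) ^ (L - l) * ((l + 1) * zz ^ l)) / zz ^ b := by
    positivity
  have hfar := h3 K L l P g h a b _ _ hCm0 hMm0 hCorr hMult
  have hnear := h4 K L l P g h a b _ _ hBm0 hSp0 hBall hSpread
  have hcs := h1 (Sab K L l P g a b) K a (by
    intro m hm
    exact Core_mem _ _ _ _ _ _ _ _ hm)
  have hcsR : ((Sab K L l P g a b).card : ℝ) ^ 2 ≤ ((Wt K a).card : ℝ) *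
      ((((Sab K L l P g a b) ×ˢ (Sab K L l P g a b)).filter
        fun p => p.1 % 2 ^ K = p.2 % 2 ^ K).card : ℝ) := by
    exact_mod_cast hcs
  have hsplit := Core_split (Sab K L l P g a b) K L h
  have hle : ((Sab K L l P g a b).card : ℝ) ≤ ((Wt K a).card : ℝ) * ((Wt L b).card : ℝ) := by
    exact_mod_cast h2 K L l P g a b
  have hW1 := h9 zz K a hz0.le
  have hW2 := h9 zz L b hz0.le
  have hq : zz ^ b * ((L + 1) * ((1 + zz) ^ (L - l) * ((l + 1) * zz ^ l)) / zz ^ b) ≤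
      (1 + zz) ^ L * ((L + 1) * ((l + 1) * (2 / 3) ^ l)) := by
    rw [mul_div_cancel₀ _ (pow_pos hz0 _).ne']
    have hs1 : (1 + zz) ^ (L - l) * zz ^ l ≤ (1 + zz) ^ L * (2 / 3) ^ l := by
      have hz3 : zz ≤ (1 + zz) * (2 / 3) := by linarith
      calc (1 + zz) ^ (L - l) * zz ^ l ≤ (1 + zz) ^ (L - l) * ((1 + zz) * (2 / 3)) ^ l := by
            refine mul_le_mul_of_nonneg_left (pow_le_pow_left₀ hz0.le hz3 l) (by positivity)
        _ = (1 + zz) ^ (L - l + l) * (2 / 3) ^ l := by rw [mul_pow, pow_add]; ring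
        _ = (1 + zz) ^ L * (2 / 3) ^ l := by rw [Nat.sub_add_cancel hlL]
    calc ((L : ℝ) + 1) * ((1 + zz) ^ (L - l) * ((l + 1) * zz ^ l))
        = ((L : ℝ) + 1) * (l + 1) * ((1 + zz) ^ (L - l) * zz ^ l) := by ring
      _ ≤ ((L : ℝ) + 1) * (l + 1) * ((1 + zz) ^ L * (2 / 3) ^ l) :=
          mul_le_mul_of_nonneg_left hs1 (by positivity)
      _ = _ := by ring
  have hmain := Core_alg zz ((Wt K a).card : ℝ) ((Wt L b).card : ℝ) ((1 + zz) ^ K) ((1 + zz) ^ L)
    ((Sab K L l P g a b).card : ℝ) ((1 + zz) ^ K * (49 / 50) ^ h / zz ^ g)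
    ((2 * P + 3) * (K * P + 1)) (50 ^ h * (51 / 50) ^ K)
    ((L + 1) * ((1 + zz) ^ (L - l) * ((l + 1) * zz ^ l)) / zz ^ b)
    ((49 / 50) ^ h) ((L + 1) * ((l + 1) * (2 / 3) ^ l))
    (50 ^ h * (51 / 50) ^ K * ((L + 1) * ((l + 1) * (2 / 3) ^ l))) a b g hzone
    (Nat.cast_nonneg _) (Nat.cast_nonneg _) (by positivity) (by positivity)
    hMm0 hBm0 hSp0 (by positivity) rfl hq ?_ hle hW1 hW2 rfl
  · rw [pow_add (1 + zz)]
    exact hmain
  · refine hcsR.trans (mul_le_mul_of_nonneg_left (hsplit.trans ?_) (Nat.cast_nonneg _))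
    exact add_le_add hfar hnear

end Pool.Agent.Work.MP_a11cf9_nt.Win

end

section

namespace Pool.Agent.Work.MP_a11cf9_nt.Win

/-- convex combination of two exponentials with mean zero exponent -/
lemma Chern_aux {z c e τ η : ℝ} (hz : 0 < z) (hmean : c + z * e = 0)
    (hc : |c| ≤ 1) (he : |e| ≤ 1) (hτ : 0 < τ) (hτ1 : τ ≤ 1) (hτη : τ ≤ η) :
    Real.exp (c * τ) + z * Real.exp (e * τ) ≤ (1 + z) * Real.exp (η * τ) := by
  have h1 : Real.exp (c * τ) ≤ 1 + c * τ + τ ^ 2 := by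
    have hb : |c * τ| ≤ 1 := by
      rw [abs_mul, abs_of_pos hτ]
      calc |c| * τ ≤ 1 * 1 := mul_le_mul hc hτ1 hτ.le zero_le_one
        _ = 1 := one_mul 1
    have h := (abs_le.1 (Real.abs_exp_sub_one_sub_id_le hb)).2
    have hsq : (c * τ) ^ 2 ≤ τ ^ 2 := by
      rw [mul_pow]
      have : c ^ 2 ≤ 1 := by
        rw [← sq_abs]
        calc |c| ^ 2 ≤ 1 ^ 2 := pow_le_pow_left₀ (abs_nonneg c) hc 2
          _ = 1 := one_pow 2
      nlinarith [sq_nonneg τ]
    linarith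
  have h2 : Real.exp (e * τ) ≤ 1 + e * τ + τ ^ 2 := by
    have hb : |e * τ| ≤ 1 := by
      rw [abs_mul, abs_of_pos hτ]
      calc |e| * τ ≤ 1 * 1 := mul_le_mul he hτ1 hτ.le zero_le_one
        _ = 1 := one_mul 1
    have h := (abs_le.1 (Real.abs_exp_sub_one_sub_id_le hb)).2
    have hsq : (e * τ) ^ 2 ≤ τ ^ 2 := by
      rw [mul_pow]
      have : e ^ 2 ≤ 1 := by
        rw [← sq_abs]
        calc |e| ^ 2 ≤ 1 ^ 2 := pow_le_pow_left₀ (abs_nonneg e) he 2
          _ = 1 := one_pow 2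
      nlinarith [sq_nonneg τ]
    linarith
  have h3 : 1 + τ ^ 2 ≤ Real.exp (η * τ) := by
    have h4 : η * τ + 1 ≤ Real.exp (η * τ) := Real.add_one_le_exp _
    have h5 : τ ^ 2 ≤ η * τ := by nlinarith
    linarith
  calc Real.exp (c * τ) + z * Real.exp (e * τ)
      ≤ (1 + c * τ + τ ^ 2) + z * (1 + e * τ + τ ^ 2) :=
        add_le_add h1 (mul_le_mul_of_nonneg_left h2 hz.le)
    _ = (1 + z) * (1 + τ ^ 2) + (c + z * e) * τ := by ring
    _ = (1 + z) * (1 + τ ^ 2) := by rw [hmean]; ring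
    _ ≤ (1 + z) * Real.exp (η * τ) := mul_le_mul_of_nonneg_left h3 (by linarith)

theorem pr_Chern (h1 : S_ZZ) : S_Chern := by
  obtain ⟨hr1, hr2, hz1, hz2, hzr, -, -⟩ := h1
  intro η hη
  have hl2 : 0 < Real.log 2 := Real.log_pos (by norm_num)
  have hl3 : 0 < Real.log 3 := Real.log_pos (by norm_num)
  have hz : 0 < zz := by linarith
  have hz1' : (1 + zz) ≠ 0 := by linarith
  have hl2' : Real.log 2 ≤ 1 := by
    have := Real.log_two_lt_d9
    linarith
  have hrho : rho * Real.log 3 = Real.log 2 := by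
    rw [rho]; field_simp
  have hl3' : Real.log 3 ≤ 2 * Real.log 2 := by
    nlinarith
  have hl23 : Real.log 2 ≤ Real.log 3 := by
    nlinarith
  -- (1 + z) log 2 = z log 3
  have hmean : Real.log 2 + zz * (Real.log 2 - Real.log 3) = 0 := by
    have : zz = rho * (1 + zz) := by
      rw [← hzr]; field_simp
    have h5 : zz * Real.log 3 = (1 + zz) * Real.log 2 := by
      calc zz * Real.log 3 = rho * (1 + zz) * Real.log 3 := by rw [← this]
        _ = (1 + zz) * (rho * Real.log 3) := by ring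
        _ = (1 + zz) * Real.log 2 := by rw [hrho]
    linarith
  have ha : |Real.log 2| ≤ 1 := by rw [abs_of_pos hl2]; exact hl2'
  have hb : |Real.log 2 - Real.log 3| ≤ 1 := by
    rw [abs_le]; constructor <;> linarith
  have ha' : |-Real.log 2| ≤ 1 := by rw [abs_neg]; exact ha
  have hb' : |Real.log 3 - Real.log 2| ≤ 1 := by rw [abs_sub_comm]; exact hb
  refine ⟨min 1 η, lt_min one_pos hη, ?_, ?_⟩
  · have h := Chern_aux hz hmean ha hb (lt_min one_pos hη) (min_le_left 1 η) (min_le_right 1 η)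
    refine le_trans (le_of_eq ?_) h
    rw [Real.rpow_def_of_pos (by norm_num : (0 : ℝ) < 2),
      Real.rpow_def_of_pos (by norm_num : (0 : ℝ) < 3), mul_add, mul_one, mul_left_comm,
      ← Real.exp_add]
    congr 3
    ring
  · have h := Chern_aux (c := -Real.log 2) (e := Real.log 3 - Real.log 2) hz
      (by linarith) ha' hb' (lt_min one_pos hη) (min_le_left 1 η) (min_le_right 1 η)
    refine le_trans (le_of_eq ?_) h
    rw [Real.rpow_def_of_pos (by norm_num : (0 : ℝ) < 2),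
      Real.rpow_def_of_pos (by norm_num : (0 : ℝ) < 3), mul_add, mul_one, mul_left_comm,
      ← Real.exp_add]
    have e1 : Real.log 2 * -min 1 η = -Real.log 2 * min 1 η := by ring
    have e2 : -Real.log 2 * min 1 η + Real.log 3 * min 1 η
        = (Real.log 3 - Real.log 2) * min 1 η := by ring
    rw [e1, e2]

end Pool.Agent.Work.MP_a11cf9_nt.Win

end

section

/-!
# Item TypU: the weight of the words which are not typical
-/


open Finset

namespace Pool.Agent.Work.MP_a11cf9_nt.Win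

open Pool.Agent.Work.MP_a11cf9_nt

theorem TypU_odds_mod {j K : ℕ} (h : j ≤ K) (v : ℕ) : odds (v % 2 ^ K) j = odds v j := by
  rw [← odds_mod j (v % 2 ^ K), Nat.mod_mod_of_dvd v (pow_dvd_pow 2 h), odds_mod]

/-- Two-variable generating function. -/
theorem TypU_mix (y z : ℝ) (j : ℕ) : ∀ K : ℕ, j ≤ K →
    ∑ u ∈ range (2 ^ K), y ^ odds u j * z ^ odds u K = (1 + y * z) ^ j * (1 + z) ^ (K - j) := by
  induction j with
  | zero =>
    intro K _
    simp only [odds_zero, pow_zero, one_mul, Nat.sub_zero]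
    exact sum_pow_odds z K
  | succ j ih =>
    intro K hK
    obtain ⟨K, rfl⟩ : ∃ k, K = k + 1 := ⟨K - 1, by omega⟩
    have hjK : j ≤ K := by omega
    have hsub : K + 1 - (j + 1) = K - j := by omega
    rw [pow_succ, mul_comm (2 ^ K) 2, sum_range_two_mul, Finset.sum_add_distrib, hsub]
    have h1 : ∑ u ∈ range (2 ^ K), y ^ odds (2 * u) (j + 1) * z ^ odds (2 * u) (K + 1) =
        (1 + y * z) ^ j * (1 + z) ^ (K - j) := by
      rw [← ih K hjK]
      refine Finset.sum_congr rfl (fun u _ => ?_)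
      have h2 : 2 * u % 2 = 0 := by omega
      have h3 : T (2 * u) = u := by rw [T_even h2]; omega
      rw [odds_succ', odds_succ', h2, h3, zero_add, zero_add]
    have h4 : ∑ u ∈ range (2 ^ K), y ^ odds (2 * u + 1) (j + 1) * z ^ odds (2 * u + 1) (K + 1) =
        (y * z) * ((1 + y * z) ^ j * (1 + z) ^ (K - j)) := by
      rw [← ih K hjK, ← sum_affine (fun u => y ^ odds u j * z ^ odds u K), Finset.mul_sum]
      refine Finset.sum_congr rfl (fun u _ => ?_)
      have h2 : (2 * u + 1) % 2 = 1 := by omega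
      have h3 : T (2 * u + 1) = 3 * u + 2 := by rw [T_odd h2]; omega
      rw [odds_succ', odds_succ', h2, h3, odds_mod, TypU_odds_mod hjK, pow_add, pow_one, pow_add,
        pow_one]
      ring
    rw [h1, h4, pow_succ]
    ring

theorem TypU_rpow_pow (x : ℝ) (hx : 0 ≤ x) (n : ℕ) (τ : ℝ) : (x ^ n) ^ τ = (x ^ τ) ^ n := by
  rw [← Real.rpow_natCast x n, ← Real.rpow_mul hx, mul_comm, Real.rpow_mul hx, Real.rpow_natCast]

theorem pr_TypU (h1 : S_Chern) (h2 : S_ZZ) : S_TypU := by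
  intro p hp
  have hp0 : 0 < p := by linarith
  have hlp : 0 < Real.log p := Real.log_pos hp
  obtain ⟨τ, hτ, hA, hB⟩ := h1 (Real.log p / 2) (by positivity)
  have hz0 : 0 < zz := by linarith [h2.2.2.1]
  set z : ℝ := zz with hz
  set E : ℝ := Real.exp (Real.log p / 2 * τ) with hE
  have hE0 : 0 < E := Real.exp_pos _
  have hE1 : 1 < E := by
    rw [hE, Real.one_lt_exp_iff]
    positivity
  set a : ℝ := (2 : ℝ) ^ τ with ha
  set b : ℝ := (3 : ℝ) ^ τ with hb
  have ha0 : 0 < a := Real.rpow_pos_of_pos (by norm_num) _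
  have hb0 : 0 < b := Real.rpow_pos_of_pos (by norm_num) _
  have hbi : (3 : ℝ) ^ (-τ) = b⁻¹ := Real.rpow_neg (by norm_num) _
  have hai : (2 : ℝ) ^ (-τ) = a⁻¹ := Real.rpow_neg (by norm_num) _
  rw [hbi] at hA
  rw [hai] at hB
  have hq : p ^ τ = E * E := by
    rw [hE, ← Real.exp_add, Real.rpow_def_of_pos hp0]
    congr 1
    ring
  refine ⟨E⁻¹, 2, inv_pos.2 hE0, inv_lt_one_of_one_lt₀ hE1, by norm_num, fun K => ?_⟩
  -- the pointwise bound
  have hpt : ∀ u : ℕ, ¬ ((∀ j ≤ K, (2 : ℝ) ^ j ≤ p ^ K * 3 ^ odds u j) ∧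
      (3 : ℝ) ^ odds u K ≤ p ^ K * 2 ^ K) →
      1 ≤ (∑ j ∈ range (K + 1), a ^ j * ((E * E) ^ K)⁻¹ * b⁻¹ ^ odds u j) +
        a⁻¹ ^ K * ((E * E) ^ K)⁻¹ * b ^ odds u K := by
    intro u hu
    have hnn : ∀ j ∈ range (K + 1), 0 ≤ a ^ j * ((E * E) ^ K)⁻¹ * b⁻¹ ^ odds u j := by
      intro j _
      positivity
    have hnn2 : 0 ≤ a⁻¹ ^ K * ((E * E) ^ K)⁻¹ * b ^ odds u K := by positivity
    rw [not_and_or] at hu
    rcases hu with hu | hu
    · push Not at hu
      obtain ⟨j, hj, hlt⟩ := hu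
      have h3 : (p ^ K * 3 ^ odds u j : ℝ) ^ τ ≤ ((2 : ℝ) ^ j) ^ τ :=
        Real.rpow_le_rpow (by positivity) hlt.le hτ.le
      rw [Real.mul_rpow (by positivity) (by positivity), TypU_rpow_pow p hp0.le,
        TypU_rpow_pow 3 (by norm_num), TypU_rpow_pow 2 (by norm_num), hq, ← ha, ← hb] at h3
      have h4 : 1 ≤ a ^ j * ((E * E) ^ K)⁻¹ * b⁻¹ ^ odds u j := by
        rw [inv_pow, mul_assoc, ← mul_inv, ← div_eq_mul_inv, one_le_div (by positivity)]
        exact h3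
      have h5 := Finset.single_le_sum hnn (Finset.mem_range.2 (Nat.lt_succ_of_le hj))
      linarith
    · push Not at hu
      have h3 : (p ^ K * 2 ^ K : ℝ) ^ τ ≤ ((3 : ℝ) ^ odds u K) ^ τ :=
        Real.rpow_le_rpow (by positivity) hu.le hτ.le
      rw [Real.mul_rpow (by positivity) (by positivity), TypU_rpow_pow p hp0.le,
        TypU_rpow_pow 3 (by norm_num), TypU_rpow_pow 2 (by norm_num), hq, ← ha, ← hb] at h3
      have h4 : 1 ≤ a⁻¹ ^ K * ((E * E) ^ K)⁻¹ * b ^ odds u K := by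
        have h6 : a⁻¹ ^ K * ((E * E) ^ K)⁻¹ * b ^ odds u K =
            b ^ odds u K / ((E * E) ^ K * a ^ K) := by
          rw [inv_pow, ← mul_inv, mul_comm (a ^ K), div_eq_mul_inv]
          ring
        rw [h6, one_le_div (by positivity)]
        exact h3
      have h5 := Finset.sum_nonneg hnn
      linarith
  have hsum : ∑ u ∈ (range (2 ^ K)).filter (fun u => ¬ ((∀ j ≤ K, (2 : ℝ) ^ j ≤
      p ^ K * 3 ^ odds u j) ∧ (3 : ℝ) ^ odds u K ≤ p ^ K * 2 ^ K)), z ^ odds u K ≤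
      ∑ u ∈ range (2 ^ K), ((∑ j ∈ range (K + 1), a ^ j * ((E * E) ^ K)⁻¹ * b⁻¹ ^ odds u j) +
        a⁻¹ ^ K * ((E * E) ^ K)⁻¹ * b ^ odds u K) * z ^ odds u K := by
    refine le_trans (Finset.sum_le_sum (fun u hu => ?_))
      (Finset.sum_le_sum_of_subset_of_nonneg (Finset.filter_subset _ _) (fun u _ _ => ?_))
    · have h3 := hpt u (Finset.mem_filter.1 hu).2
      exact le_mul_of_one_le_left (by positivity) h3
    · refine mul_nonneg (add_nonneg (Finset.sum_nonneg (fun j _ => ?_)) ?_) ?_ <;> positivity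
  refine hsum.trans ?_
  have hEK : ((E * E) ^ K)⁻¹ * E ^ K = E⁻¹ ^ K := by
    rw [inv_pow, mul_pow, mul_inv, mul_assoc, inv_mul_cancel₀ (by positivity), mul_one]
  have hterm : ∀ j ∈ range (K + 1),
      ∑ u ∈ range (2 ^ K), a ^ j * ((E * E) ^ K)⁻¹ * b⁻¹ ^ odds u j * z ^ odds u K ≤
        E⁻¹ ^ K * (1 + z) ^ K := by
    intro j hj
    have hjK : j ≤ K := Nat.lt_succ_iff.1 (Finset.mem_range.1 hj)
    have h3 : ∑ u ∈ range (2 ^ K), a ^ j * ((E * E) ^ K)⁻¹ * b⁻¹ ^ odds u j * z ^ odds u K =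
        a ^ j * ((E * E) ^ K)⁻¹ * ((1 + b⁻¹ * z) ^ j * (1 + z) ^ (K - j)) := by
      rw [← TypU_mix b⁻¹ z j K hjK, Finset.mul_sum]
      refine Finset.sum_congr rfl (fun u _ => ?_)
      ring
    rw [h3]
    have h4 : (a * (1 + z * b⁻¹)) ^ j ≤ ((1 + z) * E) ^ j :=
      pow_le_pow_left₀ (by positivity) hA j
    have h5 : E ^ j ≤ E ^ K := pow_le_pow_right₀ hE1.le hjK
    have h6 : (1 + z) ^ j * (1 + z) ^ (K - j) = (1 + z) ^ K := by
      rw [← pow_add]
      congr 1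
      omega
    calc a ^ j * ((E * E) ^ K)⁻¹ * ((1 + b⁻¹ * z) ^ j * (1 + z) ^ (K - j))
        = (a * (1 + z * b⁻¹)) ^ j * (((E * E) ^ K)⁻¹ * (1 + z) ^ (K - j)) := by
          rw [mul_pow a (1 + z * b⁻¹) j, mul_comm z b⁻¹]; ring
      _ ≤ ((1 + z) * E) ^ j * (((E * E) ^ K)⁻¹ * (1 + z) ^ (K - j)) :=
          mul_le_mul_of_nonneg_right h4 (by positivity)
      _ = (((E * E) ^ K)⁻¹ * E ^ j) * ((1 + z) ^ j * (1 + z) ^ (K - j)) := by
          rw [mul_pow]; ring
      _ ≤ (((E * E) ^ K)⁻¹ * E ^ K) * ((1 + z) ^ j * (1 + z) ^ (K - j)) := by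
          refine mul_le_mul_of_nonneg_right (mul_le_mul_of_nonneg_left h5 (by positivity))
            (by positivity)
      _ = E⁻¹ ^ K * (1 + z) ^ K := by rw [hEK, h6]
  have hlast : ∑ u ∈ range (2 ^ K), a⁻¹ ^ K * ((E * E) ^ K)⁻¹ * b ^ odds u K * z ^ odds u K ≤
      E⁻¹ ^ K * (1 + z) ^ K := by
    have h3 : ∑ u ∈ range (2 ^ K), a⁻¹ ^ K * ((E * E) ^ K)⁻¹ * b ^ odds u K * z ^ odds u K =
        a⁻¹ ^ K * ((E * E) ^ K)⁻¹ * (1 + b * z) ^ K := by
      rw [← sum_pow_odds (b * z) K, Finset.mul_sum]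
      refine Finset.sum_congr rfl (fun u _ => ?_)
      rw [mul_pow]
      ring
    rw [h3]
    have h4 : (a⁻¹ * (1 + z * b)) ^ K ≤ ((1 + z) * E) ^ K :=
      pow_le_pow_left₀ (by positivity) hB K
    calc a⁻¹ ^ K * ((E * E) ^ K)⁻¹ * (1 + b * z) ^ K
        = (a⁻¹ * (1 + z * b)) ^ K * ((E * E) ^ K)⁻¹ := by
          rw [mul_pow a⁻¹ (1 + z * b) K, mul_comm z b]; ring
      _ ≤ ((1 + z) * E) ^ K * ((E * E) ^ K)⁻¹ :=
          mul_le_mul_of_nonneg_right h4 (by positivity)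
      _ = (((E * E) ^ K)⁻¹ * E ^ K) * (1 + z) ^ K := by rw [mul_pow]; ring
      _ = E⁻¹ ^ K * (1 + z) ^ K := by rw [hEK]
  have hsplit : ∑ u ∈ range (2 ^ K),
      ((∑ j ∈ range (K + 1), a ^ j * ((E * E) ^ K)⁻¹ * b⁻¹ ^ odds u j) +
        a⁻¹ ^ K * ((E * E) ^ K)⁻¹ * b ^ odds u K) * z ^ odds u K =
      (∑ j ∈ range (K + 1), ∑ u ∈ range (2 ^ K),
        a ^ j * ((E * E) ^ K)⁻¹ * b⁻¹ ^ odds u j * z ^ odds u K) +
      ∑ u ∈ range (2 ^ K), a⁻¹ ^ K * ((E * E) ^ K)⁻¹ * b ^ odds u K * z ^ odds u K := by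
    rw [Finset.sum_comm, ← Finset.sum_add_distrib]
    refine Finset.sum_congr rfl (fun u _ => ?_)
    rw [add_mul, Finset.sum_mul]
  rw [hsplit]
  have hX : 0 ≤ E⁻¹ ^ K * (1 + z) ^ K := by positivity
  have hfirst := Finset.sum_le_sum hterm
  rw [Finset.sum_const, Finset.card_range, nsmul_eq_mul] at hfirst
  push_cast at hfirst
  have hK0 : (0 : ℝ) ≤ K := Nat.cast_nonneg K
  nlinarith [hfirst, hlast, mul_nonneg hK0 hX]

end Pool.Agent.Work.MP_a11cf9_nt.Win

end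

section

/-!
# Item Small: real analysis
-/

open Finset

namespace Pool.Agent.Work.MP_a11cf9_nt.Win

open Pool.Agent.Work.MP_a11cf9_nt

theorem Small_rpow (K : ℕ) (c : ℝ) (hc : 0 < c) :
    (2 : ℝ) ^ ((K : ℝ) / c) ≤ Real.exp (7 / 10 / c * K) := by
  have h : Real.log 2 ≤ 7 / 10 := by
    have := Real.log_two_lt_d9
    linarith
  rw [Real.rpow_def_of_pos (by norm_num)]
  apply Real.exp_le_exp.mpr
  have h2 : 0 ≤ (K : ℝ) / c := by positivity
  calc Real.log 2 * ((K : ℝ) / c) ≤ 7 / 10 * ((K : ℝ) / c) := mul_le_mul_of_nonneg_right h h2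
    _ = 7 / 10 / c * K := by ring

theorem Small_49 (K : ℕ) : (49 / 50 : ℝ) ^ (K / 50) ≤ 2 * Real.exp (-(K / 2500 : ℝ)) := by
  have h1 : (49 / 50 : ℝ) ≤ Real.exp (-(1 / 50)) := by
    have := Real.add_one_le_exp (-(1 / 50) : ℝ)
    linarith
  have h2 : (49 / 50 : ℝ) ^ (K / 50 + 1) ≤ Real.exp (-(K / 2500 : ℝ)) := by
    calc (49 / 50 : ℝ) ^ (K / 50 + 1) ≤ Real.exp (-(1 / 50)) ^ (K / 50 + 1) :=
          pow_le_pow_left₀ (by norm_num) h1 _
      _ = Real.exp (((K / 50 + 1 : ℕ) : ℝ) * (-(1 / 50))) := by rw [← Real.exp_nat_mul]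
      _ ≤ Real.exp (-(K / 2500 : ℝ)) := by
          apply Real.exp_le_exp.mpr
          have h3 : (K : ℝ) ≤ 50 * ((K / 50 + 1 : ℕ) : ℝ) := by
            have : K ≤ 50 * (K / 50 + 1) := by omega
            exact_mod_cast this
          linarith
  have h4 : (49 / 50 : ℝ) ^ (K / 50) = 50 / 49 * (49 / 50 : ℝ) ^ (K / 50 + 1) := by
    rw [pow_succ]
    ring
  rw [h4]
  have h5 := Real.exp_pos (-(K / 2500 : ℝ))
  nlinarith

theorem Small_23 (K : ℕ) : (2 / 3 : ℝ) ^ (K / 2) ≤ 3 / 2 * Real.exp (-(K / 6 : ℝ)) := by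
  have h1 : (2 / 3 : ℝ) ≤ Real.exp (-(1 / 3)) := by
    have := Real.add_one_le_exp (-(1 / 3) : ℝ)
    linarith
  have h2 : (2 / 3 : ℝ) ^ (K / 2 + 1) ≤ Real.exp (-(K / 6 : ℝ)) := by
    calc (2 / 3 : ℝ) ^ (K / 2 + 1) ≤ Real.exp (-(1 / 3)) ^ (K / 2 + 1) :=
          pow_le_pow_left₀ (by norm_num) h1 _
      _ = Real.exp (((K / 2 + 1 : ℕ) : ℝ) * (-(1 / 3))) := by rw [← Real.exp_nat_mul]
      _ ≤ Real.exp (-(K / 6 : ℝ)) := by
          apply Real.exp_le_exp.mpr
          have h3 : (K : ℝ) ≤ 2 * ((K / 2 + 1 : ℕ) : ℝ) := by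
            have : K ≤ 2 * (K / 2 + 1) := by omega
            exact_mod_cast this
          linarith
  have h4 : (2 / 3 : ℝ) ^ (K / 2) = 3 / 2 * (2 / 3 : ℝ) ^ (K / 2 + 1) := by
    rw [pow_succ]
    ring
  rw [h4]
  linarith

theorem Small_50 (K : ℕ) : (50 : ℝ) ^ (K / 50) ≤ Real.exp (4 / 50 * K) := by
  have h1 : (50 : ℝ) ≤ Real.exp 4 := by
    have h2 := Real.exp_one_gt_d9
    have h3 : Real.exp 4 = Real.exp 1 ^ 4 := by
      rw [← Real.exp_nat_mul]
      norm_num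
    rw [h3]
    calc (50 : ℝ) ≤ 2.7182818283 ^ 4 := by norm_num
      _ ≤ Real.exp 1 ^ 4 := pow_le_pow_left₀ (by norm_num) h2.le _
  calc (50 : ℝ) ^ (K / 50) ≤ Real.exp 4 ^ (K / 50) := pow_le_pow_left₀ (by norm_num) h1 _
    _ = Real.exp (((K / 50 : ℕ) : ℝ) * 4) := by rw [← Real.exp_nat_mul]
    _ ≤ Real.exp (4 / 50 * K) := by
        apply Real.exp_le_exp.mpr
        have h3 : 50 * ((K / 50 : ℕ) : ℝ) ≤ (K : ℝ) := by
          have : 50 * (K / 50) ≤ K := by omega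
          exact_mod_cast this
        linarith

theorem Small_51 (K : ℕ) : (51 / 50 : ℝ) ^ K ≤ Real.exp (K / 50) := by
  have h1 : (51 / 50 : ℝ) ≤ Real.exp (1 / 50) := by
    have := Real.add_one_le_exp (1 / 50 : ℝ)
    linarith
  calc (51 / 50 : ℝ) ^ K ≤ Real.exp (1 / 50) ^ K := pow_le_pow_left₀ (by norm_num) h1 _
    _ = Real.exp ((K : ℝ) * (1 / 50)) := by rw [← Real.exp_nat_mul]
    _ = Real.exp (K / 50) := by
        congr 1
        ring

theorem Small_lin (K : ℕ) : (K : ℝ) + 1 ≤ 20000 * Real.exp (K / 20000) := by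
  have h := Real.add_one_le_exp ((K : ℝ) / 20000)
  have h2 : (0 : ℝ) ≤ K := Nat.cast_nonneg K
  linarith

theorem pr_Small : S_Small := by
  refine ⟨1 / 20000, 430000, by norm_num, by norm_num, ?_⟩
  intro K L P A hP hA hA0
  have hk0 : (0 : ℝ) ≤ (K : ℝ) := Nat.cast_nonneg K
  have hL0 : (0 : ℝ) ≤ (L : ℝ) := Nat.cast_nonneg L
  have hP1 : 1 ≤ P := by
    rw [hP]
    exact Real.one_le_rpow (by norm_num) (by positivity)
  have hPe : P ≤ Real.exp (7 / 100000 * K) := by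
    have := Small_rpow K 10000 (by norm_num)
    rw [← hP] at this
    refine this.trans (le_of_eq ?_)
    norm_num
  have hAe : A ≤ Real.exp (7 / 60000 * K) := by
    refine (hA.trans (Small_rpow K 6000 (by norm_num))).trans (le_of_eq ?_)
    norm_num
  have h49 := Small_49 K
  have h23 := Small_23 K
  have h50 := Small_50 K
  have h51 := Small_51 K
  have hlin := Small_lin K
  have hK2 : ((K / 2 : ℕ) : ℝ) + 1 ≤ 20000 * Real.exp (K / 20000) := by
    have : ((K / 2 : ℕ) : ℝ) ≤ (K : ℝ) := by exact_mod_cast Nat.div_le_self K 2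
    linarith
  -- first term
  have hPP : (2 * P + 3) * (K * P + 1) ≤
      5 * Real.exp (7 / 100000 * K) * (20000 * Real.exp (K / 20000) *
        Real.exp (7 / 100000 * K)) := by
    have e1 : 2 * P + 3 ≤ 5 * Real.exp (7 / 100000 * K) := by linarith
    have e2 : (K : ℝ) * P + 1 ≤ 20000 * Real.exp (K / 20000) * Real.exp (7 / 100000 * K) := by
      calc (K : ℝ) * P + 1 ≤ (K + 1) * P := by linarith
        _ ≤ 20000 * Real.exp (K / 20000) * Real.exp (7 / 100000 * K) :=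
          mul_le_mul hlin hPe (by linarith) (by positivity)
    exact mul_le_mul e1 e2 (by positivity) (by positivity)
  have hT1 : 2 * A * (49 / 50) ^ (K / 50) * ((2 * P + 3) * (K * P + 1)) ≤
      400000 * Real.exp (-(1 / 20000) * K) := by
    calc 2 * A * (49 / 50) ^ (K / 50) * ((2 * P + 3) * (K * P + 1))
        ≤ 2 * Real.exp (7 / 60000 * K) * (2 * Real.exp (-(K / 2500 : ℝ))) *
          (5 * Real.exp (7 / 100000 * K) * (20000 * Real.exp (K / 20000) *
            Real.exp (7 / 100000 * K))) := by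
          refine mul_le_mul (mul_le_mul (by linarith) h49 (by positivity) (by positivity)) hPP
            (by positivity) (by positivity)
      _ = 400000 * (Real.exp (7 / 60000 * K) * Real.exp (-(K / 2500 : ℝ)) *
          Real.exp (7 / 100000 * K) * Real.exp (K / 20000) * Real.exp (7 / 100000 * K)) := by ring
      _ = 400000 * Real.exp (7 / 60000 * K + -(K / 2500 : ℝ) + 7 / 100000 * K + K / 20000 +
          7 / 100000 * K) := by
          rw [Real.exp_add, Real.exp_add, Real.exp_add, Real.exp_add]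
      _ ≤ 400000 * Real.exp (-(1 / 20000) * K) := by
          refine mul_le_mul_of_nonneg_left (Real.exp_le_exp.mpr ?_) (by norm_num)
          linarith
  have hT2 : 50 ^ (K / 50) * (51 / 50) ^ K * (((K / 2 : ℕ) + 1) * (2 / 3 : ℝ) ^ (K / 2)) ≤
      30000 * Real.exp (-(1 / 20000) * K) := by
    calc 50 ^ (K / 50) * (51 / 50) ^ K * (((K / 2 : ℕ) + 1) * (2 / 3 : ℝ) ^ (K / 2))
        ≤ Real.exp (4 / 50 * K) * Real.exp (K / 50) * (20000 * Real.exp (K / 20000) *
          (3 / 2 * Real.exp (-(K / 6 : ℝ)))) := by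
          refine mul_le_mul (mul_le_mul h50 h51 (by positivity) (by positivity))
            (mul_le_mul hK2 h23 (by positivity) (by positivity)) (by positivity) (by positivity)
      _ = 30000 * (Real.exp (4 / 50 * K) * Real.exp (K / 50) * Real.exp (K / 20000) *
          Real.exp (-(K / 6 : ℝ))) := by ring
      _ = 30000 * Real.exp (4 / 50 * K + K / 50 + K / 20000 + -(K / 6 : ℝ)) := by
          rw [Real.exp_add, Real.exp_add, Real.exp_add]
      _ ≤ 30000 * Real.exp (-(1 / 20000) * K) := by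
          refine mul_le_mul_of_nonneg_left (Real.exp_le_exp.mpr ?_) (by norm_num)
          linarith
  have hE := Real.exp_pos (-(1 / 20000) * (K : ℝ))
  have hT2' : 50 ^ (K / 50) * (51 / 50) ^ K * ((L + 1) * (((K / 2 : ℕ) + 1) *
      (2 / 3 : ℝ) ^ (K / 2))) ≤ (L + 1) * (30000 * Real.exp (-(1 / 20000) * K)) := by
    calc 50 ^ (K / 50) * (51 / 50) ^ K * ((L + 1) * (((K / 2 : ℕ) + 1) *
          (2 / 3 : ℝ) ^ (K / 2))) = (L + 1) * (50 ^ (K / 50) * (51 / 50) ^ K *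
          (((K / 2 : ℕ) + 1) * (2 / 3 : ℝ) ^ (K / 2))) := by ring
      _ ≤ (L + 1) * (30000 * Real.exp (-(1 / 20000) * K)) :=
          mul_le_mul_of_nonneg_left hT2 (by positivity)
  have hT1' : 400000 * Real.exp (-(1 / 20000) * K) ≤
      (L + 1) * (400000 * Real.exp (-(1 / 20000) * (K : ℝ))) := by
    have : 0 ≤ (L : ℝ) * (400000 * Real.exp (-(1 / 20000) * (K : ℝ))) := by positivity
    linarith
  calc _ ≤ (L + 1) * (400000 * Real.exp (-(1 / 20000) * (K : ℝ))) +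
        (L + 1) * (30000 * Real.exp (-(1 / 20000) * K)) := add_le_add (hT1.trans hT1') hT2'
    _ = _ := by ring

end Pool.Agent.Work.MP_a11cf9_nt.Win

end

section

/-!
# Item E
-/


open Finset

namespace Pool.Agent.Work.MP_a11cf9_nt.Win

open Pool.Agent.Work.MP_a11cf9_nt

theorem E_odds_mod_le {K j : ℕ} (h : j ≤ K) (m : ℕ) : odds (m % 2 ^ K) j = odds m j := by
  rw [← odds_mod j (m % 2 ^ K), Nat.mod_mod_of_dvd _ (pow_dvd_pow 2 h), odds_mod]

theorem E_typ_mod (K l : ℕ) (P : ℝ) (m : ℕ) : Typ K l P (m % 2 ^ K) ↔ Typ K l P m := by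
  unfold Typ
  rw [E_odds_mod_le le_rfl]
  constructor
  · rintro ⟨h1, h2⟩
    exact ⟨fun j hj => by have := h1 j hj; rwa [E_odds_mod_le hj] at this, h2⟩
  · rintro ⟨h1, h2⟩
    exact ⟨fun j hj => by rw [E_odds_mod_le hj]; exact h1 j hj, h2⟩

theorem E_odds_le (m k : ℕ) : odds m k ≤ k := by
  unfold odds
  exact le_trans (Finset.card_filter_le _ _) (by rw [Finset.card_range])

theorem E_exp_quarter : Real.exp (1 / 4) ≤ 4 / 3 := by
  have h := Real.one_sub_le_exp_neg (1 / 4)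
  rw [Real.exp_neg] at h
  have h0 := Real.exp_pos (1 / 4 : ℝ)
  have h1 : (1 - 1 / 4) * Real.exp (1 / 4) ≤ 1 := by
    calc (1 - 1 / 4) * Real.exp (1 / 4) ≤ (Real.exp (1 / 4))⁻¹ * Real.exp (1 / 4) :=
          mul_le_mul_of_nonneg_right h h0.le
      _ = 1 := inv_mul_cancel₀ h0.ne'
  linarith

theorem E_l_le {K a : ℕ} {P : ℝ} (hP : P = (2 : ℝ) ^ ((K : ℝ) / 10000))
    (h : (2 : ℝ) ^ K ≤ P * 3 ^ a) : K / 2 ≤ a := by
  by_contra hc
  rw [not_le] at hc
  obtain ⟨l, hl⟩ : ∃ l, l = K / 2 := ⟨_, rfl⟩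
  rw [← hl] at hc
  have h1 : a + 1 ≤ l := hc
  have h2 : 2 * l ≤ K := by omega
  have h3 : K ≤ 2 * l + 1 := by omega
  have hP0 : 0 < P := by rw [hP]; positivity
  have hP1 : P ≤ Real.exp ((l : ℝ) * (1 / 4) + 1 / 4) := by
    rw [hP, Real.rpow_def_of_pos (by norm_num)]
    apply Real.exp_le_exp.2
    have hlog : Real.log 2 ≤ 1 := by linarith [Real.log_two_lt_d9]
    have hK : (K : ℝ) ≤ 2 * l + 1 := by exact_mod_cast h3
    have hK0 : (0 : ℝ) ≤ (K : ℝ) / 10000 := by positivity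
    have hl0 : (0 : ℝ) ≤ l := by positivity
    calc Real.log 2 * ((K : ℝ) / 10000) ≤ 1 * ((K : ℝ) / 10000) :=
          mul_le_mul_of_nonneg_right hlog hK0
      _ ≤ _ := by linarith
  have hexp : Real.exp ((l : ℝ) * (1 / 4) + 1 / 4) ≤ 2 * (4 / 3) ^ l := by
    rw [Real.exp_add, Real.exp_nat_mul]
    have h4 : Real.exp (1 / 4) ^ l ≤ (4 / 3 : ℝ) ^ l :=
      pow_le_pow_left₀ (Real.exp_pos _).le E_exp_quarter l
    calc Real.exp (1 / 4) ^ l * Real.exp (1 / 4) ≤ (4 / 3 : ℝ) ^ l * (4 / 3) :=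
          mul_le_mul h4 E_exp_quarter (Real.exp_pos _).le (by positivity)
      _ ≤ 2 * (4 / 3) ^ l := by
          have : (0 : ℝ) < (4 / 3) ^ l := by positivity
          linarith
  have h5 : (4 : ℝ) ^ l ≤ 2 ^ K := by
    calc (4 : ℝ) ^ l = 2 ^ (2 * l) := by rw [pow_mul]; norm_num
      _ ≤ 2 ^ K := pow_le_pow_right₀ (by norm_num) h2
  have h6 : (3 : ℝ) * 3 ^ a ≤ 3 ^ l := by
    calc (3 : ℝ) * 3 ^ a = 3 ^ (a + 1) := by rw [pow_succ]; ring
      _ ≤ 3 ^ l := pow_le_pow_right₀ (by norm_num) h1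
  have h7 : (4 / 3 : ℝ) ^ l * 3 ^ l = 4 ^ l := by
    rw [← mul_pow]; norm_num
  have h8 : (0 : ℝ) < 4 ^ l := by positivity
  have h9 : 3 * (4 : ℝ) ^ l ≤ 2 * 4 ^ l := by
    calc 3 * (4 : ℝ) ^ l ≤ 3 * 2 ^ K := by linarith
      _ ≤ 3 * (P * 3 ^ a) := by linarith
      _ = P * (3 * 3 ^ a) := by ring
      _ ≤ P * 3 ^ l := mul_le_mul_of_nonneg_left h6 hP0.le
      _ ≤ (2 * (4 / 3) ^ l) * 3 ^ l :=
          mul_le_mul_of_nonneg_right (le_trans hP1 hexp) (by positivity)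
      _ = 2 * 4 ^ l := by rw [← h7]; ring
  linarith

open Classical in
theorem E_part1 (h2 : S_BlkSum) (K L : ℕ) (P p X : ℝ) (hP : P = (2 : ℝ) ^ ((K : ℝ) / 10000))
    (hpP : p ^ K = P) (hz : 0 ≤ zz)
    (hT : ∑ u ∈ (range (2 ^ K)).filter (fun u => ¬ ((∀ j ≤ K, (2 : ℝ) ^ j ≤ p ^ K * 3 ^ odds u j) ∧
      (3 : ℝ) ^ odds u K ≤ p ^ K * 2 ^ K)), zz ^ odds u K ≤ X) :
    ∑ m ∈ (Blk (K + L)).filter (fun m => ¬ Typ K (K / 2) P m), zz ^ odds m (K + L) ≤
      X * (1 + zz) ^ L := by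
  have h1 : ∑ m ∈ (Blk (K + L)).filter (fun m => ¬ Typ K (K / 2) P m), zz ^ odds m (K + L) =
      ∑ m ∈ Blk (K + L), (fun u => if Typ K (K / 2) P u then (0 : ℝ) else zz ^ odds u K)
        (m % 2 ^ K) * (fun s => zz ^ odds s L) (T^[K] m % 2 ^ L) := by
    rw [Finset.sum_filter]
    refine Finset.sum_congr rfl (fun m _ => ?_)
    simp only [E_typ_mod, odds_mod]
    by_cases hm : Typ K (K / 2) P m
    · simp [hm]
    · rw [if_pos hm, if_neg hm, ← pow_add, odds_add]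
  rw [h1, h2 K L (fun u => if Typ K (K / 2) P u then (0 : ℝ) else zz ^ odds u K)
    (fun s => zz ^ odds s L), sum_pow_odds]
  refine mul_le_mul_of_nonneg_right (le_trans ?_ hT) (by positivity)
  rw [Finset.sum_filter]
  refine Finset.sum_le_sum (fun u _ => ?_)
  have hpos : (0 : ℝ) ≤ zz ^ odds u K := pow_nonneg hz _
  by_cases hu : Typ K (K / 2) P u
  · rw [if_pos hu]
    split_ifs <;> first | exact hpos | exact le_rfl
  · rw [if_neg hu, if_pos]
    intro hc
    apply hu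
    rw [hpP] at hc
    exact ⟨hc.1, hc.2, E_l_le hP (hc.1 K le_rfl)⟩

open Classical in
theorem E_part2 (K L l g : ℕ) (P : ℝ) (hz : 0 ≤ zz) :
    ∑ m ∈ (Blk (K + L)).filter (fun m => Typ K l P m ∧ g ≤ odds (T^[K + L] m) K),
      zz ^ odds m (K + L) ≤ ∑ q ∈ range (K + 1) ×ˢ range (L + 1),
        zz ^ (q.1 + q.2) * ((Sab K L l P g q.1 q.2).card : ℝ) := by
  have hmaps : ∀ m ∈ (Blk (K + L)).filter (fun m => Typ K l P m ∧ g ≤ odds (T^[K + L] m) K),
      (odds m K, odds (T^[K] m) L) ∈ range (K + 1) ×ˢ range (L + 1) := by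
    intro m _
    rw [Finset.mem_product, Finset.mem_range, Finset.mem_range]
    exact ⟨Nat.lt_succ_of_le (E_odds_le _ _), Nat.lt_succ_of_le (E_odds_le _ _)⟩
  rw [← Finset.sum_fiberwise_of_maps_to hmaps]
  refine Finset.sum_le_sum (fun q _ => ?_)
  have h1 : ∀ m ∈ ((Blk (K + L)).filter (fun m => Typ K l P m ∧
      g ≤ odds (T^[K + L] m) K)).filter (fun m => (odds m K, odds (T^[K] m) L) = q),
      zz ^ odds m (K + L) = zz ^ (q.1 + q.2) := by
    intro m hm
    have hq := (Finset.mem_filter.1 hm).2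
    rw [odds_add, ← hq]
  rw [Finset.sum_congr rfl h1, Finset.sum_const, nsmul_eq_mul, mul_comm]
  refine mul_le_mul_of_nonneg_left ?_ (pow_nonneg hz _)
  rw [Nat.cast_le]
  refine Finset.card_le_card (fun m hm => ?_)
  rw [Finset.mem_filter, Finset.mem_filter] at hm
  obtain ⟨⟨hm1, hm2, hm3⟩, hq⟩ := hm
  unfold Sab
  rw [Finset.mem_filter]
  refine ⟨hm1, hm2, ?_, ?_, hm3⟩
  · rw [← hq]
  · rw [← hq]

theorem E_A (h6 : S_ZZ) (K g a : ℕ) (P : ℝ) (hP : P = (2 : ℝ) ^ ((K : ℝ) / 10000))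
    (hg : (rho - 1 / 10000) * (K : ℝ) ≤ g) (h : (3 : ℝ) ^ a ≤ P * 2 ^ K) :
    zz ^ a / zz ^ g ≤ (2 : ℝ) ^ ((K : ℝ) / 6000) := by
  obtain ⟨hr1, hr2, hz1, hz2, -, -, -⟩ := h6
  have hz0 : 0 < zz := by linarith
  rcases le_or_gt a g with hag | hag
  · have h1 : zz ^ a / zz ^ g ≤ 1 := by
      rw [div_le_one (by positivity)]
      exact pow_le_pow_right₀ (by linarith) hag
    exact le_trans h1 (Real.one_le_rpow (by norm_num) (by positivity))
  · have h1 : zz ^ a / zz ^ g = zz ^ (a - g) := by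
      rw [div_eq_iff (by positivity), ← pow_add, Nat.sub_add_cancel hag.le]
    rw [h1]
    have h2 : zz ^ (a - g) ≤ (2 : ℝ) ^ (a - g) := pow_le_pow_left₀ hz0.le hz2.le _
    refine le_trans h2 ?_
    rw [← Real.rpow_natCast]
    refine Real.rpow_le_rpow_of_exponent_le (by norm_num) ?_
    rw [Nat.cast_sub hag.le]
    have hlog := Real.log_le_log (by positivity) h
    rw [hP, Real.log_mul (by positivity) (by positivity), Real.log_pow, Real.log_pow,
      Real.log_rpow (by norm_num)] at hlog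
    have hl3 := log_three_pos
    have hrho : rho * Real.log 3 = Real.log 2 := by
      unfold rho
      field_simp
    rw [← hrho] at hlog
    have h3 : (a : ℝ) ≤ (K : ℝ) / 10000 * rho + K * rho := by
      have : (a : ℝ) * Real.log 3 ≤ ((K : ℝ) / 10000 * rho + K * rho) * Real.log 3 := by
        calc (a : ℝ) * Real.log 3 ≤ _ := hlog
          _ = _ := by ring
      exact le_of_mul_le_mul_right this hl3
    have hK : (0 : ℝ) ≤ K := by positivity
    nlinarith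

theorem E_poly (η : ℝ) (hη : 0 < η) (J : ℕ) :
    ((J : ℝ) + 1) ^ 3 ≤ (6 / η ^ 3 * Real.exp η) * Real.exp (η * J) := by
  have h := Real.pow_div_factorial_le_exp (η * ((J : ℝ) + 1)) (by positivity) 3
  have h3 : ((Nat.factorial 3 : ℕ) : ℝ) = 6 := by norm_num [Nat.factorial]
  rw [h3, mul_pow] at h
  have h4 : Real.exp (η * ((J : ℝ) + 1)) = Real.exp η * Real.exp (η * J) := by
    rw [← Real.exp_add]; ring_nf
  rw [h4] at h
  have hη3 : 0 < η ^ 3 := by positivity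
  calc ((J : ℝ) + 1) ^ 3 = 6 / η ^ 3 * (η ^ 3 * ((J : ℝ) + 1) ^ 3 / 6) := by field_simp
    _ ≤ 6 / η ^ 3 * (Real.exp η * Real.exp (η * J)) :=
        mul_le_mul_of_nonneg_left h (by positivity)
    _ = _ := by ring

theorem E_five {l : ℕ} (h : 6 ≤ l) : 5 * 3 ^ l ≤ 4 ^ l := by
  induction l, h using Nat.le_induction with
  | base => norm_num
  | succ n _ ih => rw [pow_succ, pow_succ]; omega

open Classical in
theorem E_pair (h4 : S_Core) (h6 : S_ZZ) (K L g a b : ℕ) (P η C : ℝ) (hC : 0 < C)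
    (hP : P = (2 : ℝ) ^ ((K : ℝ) / 10000)) (hg : (rho - 1 / 10000) * (K : ℝ) ≤ g)
    (hl : K / 2 ≤ L)
    (hnb : ∀ m ∈ Blk (K + L), Typ K (K / 2) P m → ∃ t, t + K / 2 ≤ L ∧ ¬ BadAt K L (K / 2) m t)
    (hS : ∀ A : ℝ, A ≤ (2 : ℝ) ^ ((K : ℝ) / 6000) → 0 ≤ A →
      2 * A * (49 / 50) ^ (K / 50) * ((2 * P + 3) * (K * P + 1)) +
        50 ^ (K / 50) * (51 / 50) ^ K * ((L + 1) * (((K / 2 : ℕ) + 1) * (2 / 3) ^ (K / 2))) ≤
      C * (L + 1) * Real.exp (-η * K)) :
    zz ^ (a + b) * ((Sab K L (K / 2) P g a b).card : ℝ) ≤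
      (1 + zz) ^ (K + L) * (√C * (L + 1) * Real.exp (-η * K / 2)) := by
  have h6' := h6
  obtain ⟨hr1, hr2, hz1, hz2, -, -, -⟩ := h6'
  have hz0 : 0 < zz := by linarith
  have hP1 : 1 ≤ P := by
    rw [hP]
    exact Real.one_le_rpow (by norm_num) (by positivity)
  have hRHS : 0 ≤ (1 + zz) ^ (K + L) * (√C * (L + 1) * Real.exp (-η * K / 2)) := by positivity
  rcases Nat.eq_zero_or_pos (Sab K L (K / 2) P g a b).card with h0 | h0
  · rw [h0, Nat.cast_zero, mul_zero]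
    exact hRHS
  · obtain ⟨m, hm⟩ := Finset.card_pos.1 h0
    have hA : zz ^ a / zz ^ g ≤ (2 : ℝ) ^ ((K : ℝ) / 6000) := by
      unfold Sab at hm
      rw [Finset.mem_filter] at hm
      obtain ⟨-, ht, ha, -⟩ := hm
      refine E_A h6 K g a P hP hg ?_
      rw [← ha]
      exact ht.2.1
    have hA0 : 0 ≤ zz ^ a / zz ^ g := by positivity
    have hcore := h4 K L (K / 2) P g (K / 50) a b hP1 hl hnb
    have hsm := hS _ hA hA0
    rw [← sq_le_sq₀ (by positivity) hRHS]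
    refine le_trans hcore ?_
    rw [mul_pow ((1 + zz) ^ (K + L))]
    refine mul_le_mul_of_nonneg_left (le_trans hsm ?_) (by positivity)
    have he : Real.exp (-η * K / 2) ^ 2 = Real.exp (-η * K) := by
      rw [← Real.exp_nat_mul]
      congr 1
      push_cast
      ring
    rw [mul_pow, mul_pow, he, Real.sq_sqrt hC.le]
    refine mul_le_mul_of_nonneg_right ?_ (Real.exp_pos _).le
    refine mul_le_mul_of_nonneg_left ?_ hC.le
    have hL : (0 : ℝ) ≤ L := by positivity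
    nlinarith

open Classical in
theorem pr_E (h1 : S_NoBad) (h2 : S_BlkSum) (h3 : S_TypU) (h4 : S_Core) (h5 : S_Small) (h6 : S_ZZ)
    (_h7 : S_Par) : S_E := by
  intro δ hδ hδ1
  have h6' := h6
  obtain ⟨hr1, hr2, hz1, hz2, -, -, -⟩ := h6'
  have hz0 : 0 < zz := by linarith
  obtain ⟨J₀, hJ₀⟩ := h1
  set p : ℝ := (2 : ℝ) ^ ((1 : ℝ) / 10000) with hp
  have hp1 : 1 < p := Real.one_lt_rpow (by norm_num) (by norm_num)
  obtain ⟨r, CT, hr0, hr1', hCT, hT⟩ := h3 p hp1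
  obtain ⟨ηs, Cs, hηs, hCs, hSm⟩ := h5
  set ηT : ℝ := - Real.log r with hηT
  have hηT0 : 0 < ηT := by
    rw [hηT]
    linarith [Real.log_neg hr0 hr1']
  set η₂ : ℝ := min ηT (ηs / 2) * δ with hη₂
  have hη₂0 : 0 < η₂ := mul_pos (lt_min hηT0 (by linarith)) hδ
  set η : ℝ := η₂ / 2 with hη
  have hη0 : 0 < η := by positivity
  set J₁ : ℕ := max J₀ ⌈13 / δ⌉₊ with hJ₁
  set C₁ : ℝ := (CT * Real.exp ηT + √Cs * Real.exp (ηs / 2)) * (6 / η ^ 3 * Real.exp η) with hC₁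
  have hC₁0 : 0 < C₁ := by positivity
  refine ⟨η, C₁ + Real.exp (η * J₁), hη0, by positivity, fun J => ?_⟩
  have hzJ : 0 < (1 + zz) ^ J := by positivity
  by_cases hJ : J < J₁
  · have hs : ∑ m ∈ (Blk J).filter (fun m => (rho - 1 / 10000) * (⌊δ * J⌋₊ : ℝ) ≤
        (odds (T^[J] m) ⌊δ * J⌋₊ : ℝ)), zz ^ odds m J ≤ (1 + zz) ^ J := by
      rw [← sum_pow_odds_Ico]
      exact Finset.sum_le_sum_of_subset_of_nonneg (Finset.filter_subset _ _)
        (fun m _ _ => pow_nonneg hz0.le _)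
    refine le_trans hs ?_
    have h10 : 1 ≤ Real.exp (η * J₁) * Real.exp (-η * J) := by
      rw [← Real.exp_add]
      apply Real.one_le_exp
      have : (J : ℝ) ≤ J₁ := by exact_mod_cast hJ.le
      have h23 : η * (J : ℝ) ≤ η * J₁ := mul_le_mul_of_nonneg_left this hη0.le
      linarith
    have h11 : 0 < Real.exp (-η * J) := Real.exp_pos _
    calc (1 + zz) ^ J = (1 + zz) ^ J * 1 := by ring
      _ ≤ (1 + zz) ^ J * (Real.exp (η * J₁) * Real.exp (-η * J)) :=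
          mul_le_mul_of_nonneg_left h10 hzJ.le
      _ ≤ (1 + zz) ^ J * ((C₁ + Real.exp (η * J₁)) * Real.exp (-η * J)) := by
          refine mul_le_mul_of_nonneg_left ?_ hzJ.le
          refine mul_le_mul_of_nonneg_right ?_ h11.le
          linarith
      _ = _ := by ring
  · rw [not_lt] at hJ
    have hJ0 : J₀ ≤ J := le_trans (le_max_left _ _) hJ
    have hJ13 : 13 ≤ δ * J := by
      have h20 : 13 / δ ≤ J := le_trans (Nat.le_ceil _)
        (by exact_mod_cast le_trans (le_max_right _ _) hJ)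
      rw [div_le_iff₀ hδ] at h20
      linarith
    obtain ⟨K, hK⟩ : ∃ K, K = ⌊δ * (J : ℝ)⌋₊ := ⟨_, rfl⟩
    rw [← hK]
    have hJnn : (0 : ℝ) ≤ J := by positivity
    have hKle : (K : ℝ) ≤ δ * J := by
      rw [hK]
      exact Nat.floor_le (by positivity)
    have hKge : δ * J - 1 < K := by
      rw [hK]
      exact Nat.sub_one_lt_floor _
    have hK12 : 12 ≤ K := by
      have : (12 : ℝ) < K + 1 := by linarith
      have h21 : 12 < K + 1 := by exact_mod_cast this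
      omega
    have hK1000 : 1000 * K ≤ J := by
      have : (1000 : ℝ) * K ≤ J := by
        have h22 : δ * J ≤ 1 / 1000 * J := mul_le_mul_of_nonneg_right hδ1 hJnn
        linarith
      exact_mod_cast this
    obtain ⟨L, hL⟩ : ∃ L, L = J - K := ⟨_, rfl⟩
    have hKL : K + L = J := by omega
    set P : ℝ := (2 : ℝ) ^ ((K : ℝ) / 10000) with hP
    have hpP : p ^ K = P := by
      rw [hp, hP, ← Real.rpow_natCast, ← Real.rpow_mul (by norm_num)]
      congr 1
      ring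
    have hP1 : 1 ≤ P := Real.one_le_rpow (by norm_num) (by positivity)
    obtain ⟨g, hg⟩ : ∃ g, g = ⌈(rho - 1 / 10000) * (K : ℝ)⌉₊ := ⟨_, rfl⟩
    have hgle : (rho - 1 / 10000) * (K : ℝ) ≤ g := by
      rw [hg]
      exact Nat.le_ceil _
    have hnb : ∀ m ∈ Blk (K + L), Typ K (K / 2) P m →
        ∃ t, t + K / 2 ≤ L ∧ ¬ BadAt K L (K / 2) m t := by
      refine hJ₀ K L (K / 2) P (by omega) (by omega) (by omega) ?_ hP1 ?_
      · have h22 : 6 ≤ K / 2 := by omega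
        refine le_trans (E_five h22) ?_
        calc 4 ^ (K / 2) = 2 ^ (2 * (K / 2)) := by rw [pow_mul]; norm_num
          _ ≤ 2 ^ K := Nat.pow_le_pow_right (by norm_num) (by omega)
      · rw [hP]
        refine Real.rpow_le_rpow_of_exponent_le (by norm_num) ?_
        push_cast
        have hK0 : (0 : ℝ) ≤ K := by positivity
        have hL0 : (0 : ℝ) ≤ L := by positivity
        linarith
    -- splitting
    have hsplit : ∑ m ∈ (Blk J).filter (fun m => (rho - 1 / 10000) * (K : ℝ) ≤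
        (odds (T^[J] m) K : ℝ)), zz ^ odds m J ≤
        ∑ m ∈ (Blk (K + L)).filter (fun m => ¬ Typ K (K / 2) P m), zz ^ odds m (K + L) +
        ∑ m ∈ (Blk (K + L)).filter (fun m => Typ K (K / 2) P m ∧
          g ≤ odds (T^[K + L] m) K), zz ^ odds m (K + L) := by
      rw [hKL, Finset.sum_filter, Finset.sum_filter, Finset.sum_filter, ← Finset.sum_add_distrib]
      refine Finset.sum_le_sum (fun m _ => ?_)
      have hpos : (0 : ℝ) ≤ zz ^ odds m J := pow_nonneg hz0.le _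
      by_cases hc : (rho - 1 / 10000) * (K : ℝ) ≤ (odds (T^[J] m) K : ℝ)
      · rw [if_pos hc]
        have hg' : g ≤ odds (T^[J] m) K := by
          rw [hg]
          exact Nat.ceil_le.2 hc
        by_cases ht : Typ K (K / 2) P m
        · rw [if_neg (not_not.2 ht), if_pos ⟨ht, hg'⟩, zero_add]
        · rw [if_pos ht]
          split_ifs <;> linarith
      · rw [if_neg hc]
        refine add_nonneg ?_ ?_
        · split_ifs <;> first | exact hpos | exact le_rfl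
        · split_ifs <;> first | exact hpos | exact le_rfl
    have hp1' : ∑ m ∈ (Blk (K + L)).filter (fun m => ¬ Typ K (K / 2) P m), zz ^ odds m (K + L) ≤
        (CT * (K + 1) * r ^ K * (1 + zz) ^ K) * (1 + zz) ^ L := by
      refine E_part1 h2 K L P p _ hP hpP hz0.le ?_
      have h30 := hT K
      convert h30 using 2
    have hp2' : ∑ m ∈ (Blk (K + L)).filter (fun m => Typ K (K / 2) P m ∧
          g ≤ odds (T^[K + L] m) K), zz ^ odds m (K + L) ≤
        (K + 1) * (L + 1) * ((1 + zz) ^ (K + L) * (√Cs * (L + 1) * Real.exp (-ηs * K / 2))) := by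
      refine le_trans (E_part2 K L (K / 2) g P hz0.le) ?_
      have h31 : ∀ q ∈ range (K + 1) ×ˢ range (L + 1),
          zz ^ (q.1 + q.2) * ((Sab K L (K / 2) P g q.1 q.2).card : ℝ) ≤
          (1 + zz) ^ (K + L) * (√Cs * (L + 1) * Real.exp (-ηs * K / 2)) := by
        intro q _
        refine E_pair h4 h6 K L g q.1 q.2 P ηs Cs hCs hP hgle (by omega) hnb ?_
        intro A hA hA0
        exact hSm K L P A hP hA hA0
      refine le_trans (Finset.sum_le_sum h31) ?_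
      rw [Finset.sum_const, Finset.card_product, Finset.card_range, Finset.card_range,
        nsmul_eq_mul]
      push_cast
      exact le_rfl
    -- exponentials
    have hmin1 : η₂ ≤ ηT * δ := mul_le_mul_of_nonneg_right (min_le_left _ _) hδ.le
    have hmin2 : η₂ ≤ ηs / 2 * δ := mul_le_mul_of_nonneg_right (min_le_right _ _) hδ.le
    have hrK : r ^ K ≤ Real.exp ηT * Real.exp (-η₂ * J) := by
      have h40 : r ^ K = Real.exp (-ηT * K) := by
        rw [hηT, neg_neg, mul_comm, Real.exp_nat_mul, Real.exp_log hr0]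
      rw [h40, ← Real.exp_add]
      apply Real.exp_le_exp.2
      have h41 : ηT * (δ * J - 1) ≤ ηT * K := mul_le_mul_of_nonneg_left hKge.le hηT0.le
      have h42 : η₂ * J ≤ ηT * δ * J := mul_le_mul_of_nonneg_right hmin1 hJnn
      linarith
    have heK : Real.exp (-ηs * K / 2) ≤ Real.exp (ηs / 2) * Real.exp (-η₂ * J) := by
      rw [← Real.exp_add]
      apply Real.exp_le_exp.2
      have h41 : ηs * (δ * J - 1) ≤ ηs * K := mul_le_mul_of_nonneg_left hKge.le hηs.le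
      have h42 : η₂ * J ≤ ηs / 2 * δ * J := mul_le_mul_of_nonneg_right hmin2 hJnn
      linarith
    have hKJ : (K : ℝ) ≤ J := by
      have : K ≤ J := by omega
      exact_mod_cast this
    have hLJ : (L : ℝ) ≤ J := by
      have : L ≤ J := by omega
      exact_mod_cast this
    have hK0 : (0 : ℝ) ≤ K := by positivity
    have hL0 : (0 : ℝ) ≤ L := by positivity
    have hpol1 : (K : ℝ) + 1 ≤ ((J : ℝ) + 1) ^ 3 := by
      have h50 : (1 : ℝ) ≤ (J : ℝ) + 1 := by linarith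
      calc (K : ℝ) + 1 ≤ (J : ℝ) + 1 := by linarith
        _ = ((J : ℝ) + 1) ^ 1 := by ring
        _ ≤ ((J : ℝ) + 1) ^ 3 := pow_le_pow_right₀ h50 (by norm_num)
    have hpol2 : ((K : ℝ) + 1) * (L + 1) * (L + 1) ≤ ((J : ℝ) + 1) ^ 3 := by
      calc ((K : ℝ) + 1) * (L + 1) * (L + 1) ≤ ((J : ℝ) + 1) * (J + 1) * (J + 1) := by
            gcongr
        _ = _ := by ring
    have hpoly := E_poly η hη0 J
    have hexpJ : 0 < Real.exp (-η₂ * J) := Real.exp_pos _
    have hfin1 : (CT * (K + 1) * r ^ K * (1 + zz) ^ K) * (1 + zz) ^ L ≤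
        (1 + zz) ^ J * ((CT * Real.exp ηT) * (((J : ℝ) + 1) ^ 3 * Real.exp (-η₂ * J))) := by
      have h60 : (CT * (K + 1) * r ^ K * (1 + zz) ^ K) * (1 + zz) ^ L =
          (1 + zz) ^ J * (CT * ((K + 1) * r ^ K)) := by
        rw [← hKL, pow_add]
        ring
      rw [h60]
      refine mul_le_mul_of_nonneg_left ?_ hzJ.le
      calc CT * ((K + 1) * r ^ K) ≤
          CT * (((J : ℝ) + 1) ^ 3 * (Real.exp ηT * Real.exp (-η₂ * J))) := by
            refine mul_le_mul_of_nonneg_left ?_ hCT.le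
            exact mul_le_mul hpol1 hrK (by positivity) (by positivity)
        _ = _ := by ring
    have hfin2 : (K + 1) * (L + 1) * ((1 + zz) ^ (K + L) * (√Cs * (L + 1) *
        Real.exp (-ηs * K / 2))) ≤
        (1 + zz) ^ J * ((√Cs * Real.exp (ηs / 2)) * (((J : ℝ) + 1) ^ 3 *
          Real.exp (-η₂ * J))) := by
      have h60 : ((K : ℝ) + 1) * (L + 1) * ((1 + zz) ^ (K + L) * (√Cs * (L + 1) *
        Real.exp (-ηs * K / 2))) =
          (1 + zz) ^ J * (√Cs * ((((K : ℝ) + 1) * (L + 1) * (L + 1)) *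
            Real.exp (-ηs * K / 2))) := by
        rw [← hKL]
        ring
      rw [h60]
      refine mul_le_mul_of_nonneg_left ?_ hzJ.le
      calc √Cs * ((((K : ℝ) + 1) * (L + 1) * (L + 1)) * Real.exp (-ηs * K / 2)) ≤
          √Cs * (((J : ℝ) + 1) ^ 3 * (Real.exp (ηs / 2) * Real.exp (-η₂ * J))) := by
            refine mul_le_mul_of_nonneg_left ?_ (Real.sqrt_nonneg _)
            exact mul_le_mul hpol2 heK (Real.exp_pos _).le (by positivity)
        _ = _ := by ring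
    have hJe : ((J : ℝ) + 1) ^ 3 * Real.exp (-η₂ * J) ≤
        (6 / η ^ 3 * Real.exp η) * Real.exp (-η * J) := by
      calc ((J : ℝ) + 1) ^ 3 * Real.exp (-η₂ * J) ≤
          ((6 / η ^ 3 * Real.exp η) * Real.exp (η * J)) * Real.exp (-η₂ * J) :=
            mul_le_mul_of_nonneg_right hpoly hexpJ.le
        _ = (6 / η ^ 3 * Real.exp η) * (Real.exp (η * J) * Real.exp (-η₂ * J)) := by ring
        _ = _ := by
            rw [← Real.exp_add]
            congr 2
            rw [hη]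
            ring
    have hCsum : 0 ≤ CT * Real.exp ηT + √Cs * Real.exp (ηs / 2) := by positivity
    calc ∑ m ∈ (Blk J).filter (fun m => (rho - 1 / 10000) * (K : ℝ) ≤
          (odds (T^[J] m) K : ℝ)), zz ^ odds m J
        ≤ _ := hsplit
      _ ≤ (1 + zz) ^ J * ((CT * Real.exp ηT) * (((J : ℝ) + 1) ^ 3 * Real.exp (-η₂ * J))) +
          (1 + zz) ^ J * ((√Cs * Real.exp (ηs / 2)) * (((J : ℝ) + 1) ^ 3 *
          Real.exp (-η₂ * J))) := add_le_add (le_trans hp1' hfin1) (le_trans hp2' hfin2)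
      _ = (1 + zz) ^ J * ((CT * Real.exp ηT + √Cs * Real.exp (ηs / 2)) *
          (((J : ℝ) + 1) ^ 3 * Real.exp (-η₂ * J))) := by ring
      _ ≤ (1 + zz) ^ J * ((CT * Real.exp ηT + √Cs * Real.exp (ηs / 2)) *
          ((6 / η ^ 3 * Real.exp η) * Real.exp (-η * J))) := by
          refine mul_le_mul_of_nonneg_left ?_ hzJ.le
          exact mul_le_mul_of_nonneg_left hJe hCsum
      _ = C₁ * (1 + zz) ^ J * Real.exp (-η * J) := by rw [hC₁]; ring
      _ ≤ _ := by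
          have h70 : 0 < Real.exp (η * J₁) * (1 + zz) ^ J * Real.exp (-η * J) := by positivity
          rw [add_mul, add_mul]
          linarith

end Pool.Agent.Work.MP_a11cf9_nt.Win

end
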