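import Mathlib
import Pool.Agent.Work.MP_a11cf9_nt.Win.Stmts
import Pool.Agent.Work.MP_a11cf9_nt.Near
import Pool.Agent.Work.MP_a11cf9_nt.Power
import Pool.Agent.Work.MP_a11cf9_nt.Num

set_option autoImplicit false

section

open Finset

namespace Pool.Agent.Work.MP_a11cf9_nt.Win

open Pool.Agent.Work.MP_a11cf9_nt

theorem NA_rho {n k : ℕ} (h : 1 ≤ k → 2 ^ k ≤ 3 ^ odds n k) : rho * k ≤ (odds n k : ℝ) := by
  rcases Nat.eq_zero_or_pos k with h0 | h0
  · subst h0
    simp
  · have h1 : (2 : ℝ) ^ k ≤ (3 : ℝ) ^ odds n k := by exact_mod_cast h h0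
    have h2 := Real.log_le_log (by positivity) h1
    rw [Real.log_pow, Real.log_pow] at h2
    have h3 := log_three_pos
    have h4 : rho * k * Real.log 3 = k * Real.log 2 := by
      unfold rho
      field_simp
    have h5 : rho * k * Real.log 3 ≤ (odds n k : ℝ) * Real.log 3 := by
      rw [h4]; exact h2
    exact le_of_mul_le_mul_right h5 h3

/-- counting by a lower bound for `odds` -/
theorem NA_count {z : ℝ} (hz : 1 < z) (s : Finset ℕ) (J : ℕ) (e B : ℝ)
    (h1 : ∀ n ∈ s, e ≤ (odds n J : ℝ)) (h2 : ∑ n ∈ s, z ^ odds n J ≤ B) :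
    (s.card : ℝ) ≤ B * Real.exp (-(e * Real.log z)) := by
  have hz0 : 0 < z := by linarith
  have h3 : ∀ n ∈ s, Real.exp (e * Real.log z) ≤ z ^ odds n J := by
    intro n hn
    have h4 : z ^ odds n J = Real.exp ((odds n J : ℝ) * Real.log z) := by
      rw [mul_comm, Real.exp_mul, Real.exp_log hz0, Real.rpow_natCast]
    rw [h4]
    apply Real.exp_le_exp.mpr
    exact mul_le_mul_of_nonneg_right (h1 n hn) (Real.log_nonneg hz.le)
  have h5 : (s.card : ℝ) * Real.exp (e * Real.log z) ≤ B := by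
    calc (s.card : ℝ) * Real.exp (e * Real.log z)
        = ∑ _n ∈ s, Real.exp (e * Real.log z) := by rw [sum_const, nsmul_eq_mul]
      _ ≤ ∑ n ∈ s, z ^ odds n J := sum_le_sum h3
      _ ≤ B := h2
  rw [Real.exp_neg, ← div_eq_mul_inv, le_div_iff₀ (Real.exp_pos _)]
  exact h5

theorem pr_NA (h1 : S_E) (h2 : S_ZZ) : S_NA := by
  intro δ hδ hδ1
  obtain ⟨η0, C0, hη0, hC0, hE⟩ := h1 δ hδ hδ1
  obtain ⟨-, -, hz32, -, -, -, hhh⟩ := h2
  have hz1 : 1 < zz := by linarith
  have hz0 : 0 < zz := by linarith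
  have hlz : 0 < Real.log zz := Real.log_pos hz1
  set c1 : ℝ := Real.log zz / 10000 with hc1
  have hc1p : 0 < c1 := by positivity
  refine ⟨min η0 (c1 * δ), C0 + Real.exp c1, lt_min hη0 (by positivity), by positivity, ?_⟩
  intro J
  set K : ℕ := ⌊δ * J⌋₊ with hK
  set A := (Blk J).filter fun n => ∀ k, 1 ≤ k → k ≤ J + K → 2 ^ k ≤ 3 ^ odds n k with hA
  have hJ0 : (0 : ℝ) ≤ J := Nat.cast_nonneg J
  have hKge : δ * J - 1 ≤ (K : ℝ) := by
    have := Nat.lt_floor_add_one (δ * (J : ℝ))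
    rw [← hK] at this
    linarith
  classical
  set A1 := A.filter fun n => (rho - 1 / 10000) * (K : ℝ) ≤ (odds (T^[J] n) K : ℝ) with hA1
  set A2 := A.filter fun n => ¬ (rho - 1 / 10000) * (K : ℝ) ≤ (odds (T^[J] n) K : ℝ) with hA2
  have hcard : A.card = A1.card + A2.card := by
    rw [hA1, hA2, Finset.card_filter_add_card_filter_not]
  have hexp : ∀ e : ℝ, (1 + zz) ^ J * Real.exp (-((rho * J + e) * Real.log zz)) =
      Real.exp (hh * J - e * Real.log zz) := by
    intro e
    have h3 : (1 + zz) ^ J = Real.exp ((J : ℝ) * Real.log (1 + zz)) := by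
      rw [mul_comm, Real.exp_mul, Real.exp_log (by linarith), Real.rpow_natCast]
    rw [h3, ← Real.exp_add, hhh]
    congr 1
    ring
  -- first set
  have hb1 : (A1.card : ℝ) ≤ C0 * Real.exp ((hh - η0) * J) := by
    have h3 := NA_count hz1 A1 J (rho * J + 0) (C0 * (1 + zz) ^ J * Real.exp (-η0 * J)) ?_ ?_
    · refine h3.trans (le_of_eq ?_)
      have h4 := hexp 0
      calc C0 * (1 + zz) ^ J * Real.exp (-η0 * J) * Real.exp (-((rho * J + 0) * Real.log zz))
          = C0 * Real.exp (-η0 * J) * ((1 + zz) ^ J * Real.exp (-((rho * J + 0) * Real.log zz))) := by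
            ring
        _ = C0 * (Real.exp (-η0 * J) * Real.exp (hh * J - 0 * Real.log zz)) := by rw [h4]; ring
        _ = C0 * Real.exp ((hh - η0) * J) := by
            rw [← Real.exp_add]
            congr 2
            ring
    · intro n hn
      rw [hA1, mem_filter, hA, mem_filter] at hn
      rw [add_zero]
      apply NA_rho
      intro h5
      exact hn.1.2 J h5 (Nat.le_add_right _ _)
    · refine le_trans (sum_le_sum_of_subset_of_nonneg ?_ ?_) (hE J)
      · intro n hn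
        rw [hA1, mem_filter, hA, mem_filter] at hn
        rw [mem_filter]
        exact ⟨hn.1.1, hn.2⟩
      · intro n _ _
        positivity
  -- second set
  have hb2 : (A2.card : ℝ) ≤ Real.exp c1 * Real.exp ((hh - c1 * δ) * J) := by
    have h3 := NA_count hz1 A2 J (rho * J + (K : ℝ) / 10000) ((1 + zz) ^ J) ?_ ?_
    · refine h3.trans ?_
      rw [hexp, ← Real.exp_add]
      apply Real.exp_le_exp.mpr
      have h4 : (K : ℝ) / 10000 * Real.log zz = c1 * K := by rw [hc1]; ring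
      rw [h4]
      have h5 := mul_le_mul_of_nonneg_left hKge hc1p.le
      nlinarith
    · intro n hn
      rw [hA2, mem_filter, hA, mem_filter] at hn
      obtain ⟨⟨-, h4⟩, h5⟩ := hn
      push Not at h5
      have h6 : rho * ((J + K : ℕ) : ℝ) ≤ (odds n (J + K) : ℝ) := by
        apply NA_rho
        intro h7
        exact h4 (J + K) h7 le_rfl
      rw [odds_add] at h6
      push_cast at h6
      linarith
    · refine le_trans (sum_le_sum_of_subset_of_nonneg ?_ ?_) (le_of_eq (sum_pow_odds_Ico zz J))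
      · intro n hn
        rw [hA2, mem_filter, hA, mem_filter] at hn
        exact hn.1.1
      · intro n _ _
        positivity
  have hm1 : Real.exp ((hh - η0) * J) ≤ Real.exp ((hh - min η0 (c1 * δ)) * J) := by
    apply Real.exp_le_exp.mpr
    apply mul_le_mul_of_nonneg_right _ hJ0
    linarith [min_le_left η0 (c1 * δ)]
  have hm2 : Real.exp ((hh - c1 * δ) * J) ≤ Real.exp ((hh - min η0 (c1 * δ)) * J) := by
    apply Real.exp_le_exp.mpr
    apply mul_le_mul_of_nonneg_right _ hJ0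
    linarith [min_le_right η0 (c1 * δ)]
  rw [hcard]
  push_cast
  have h8 := mul_le_mul_of_nonneg_left hm1 hC0.le
  have h9 := mul_le_mul_of_nonneg_left hm2 (Real.exp_pos c1).le
  rw [add_mul]
  linarith

end Pool.Agent.Work.MP_a11cf9_nt.Win

end

section

open Finset

namespace Pool.Agent.Work.MP_a11cf9_nt.Win

open Pool.Agent.Work.MP_a11cf9_nt

theorem SigK_odds_le (n k : ℕ) : odds n k ≤ k := by
  unfold odds
  exact le_trans (card_filter_le _ _) (le_of_eq (card_range k))

theorem pr_SigK : S_SigK := by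
  have h0 : 0 < cexp := lt_trans (by norm_num) cexp_gt
  obtain ⟨C, hC, hmain⟩ := main_ineq (c := 1 / 24) (lt_trans (by norm_num) cexp_gt) h0
  obtain ⟨c, hc, hlow⟩ := Pade.log_lower
  set r : ℝ := (2 : ℝ) ^ (-(1 / 24) : ℝ) with hr
  have hr0 : 0 < r := Real.rpow_pos_of_pos (by norm_num) _
  have hr1 : r < 1 := Real.rpow_lt_one_of_one_lt_of_neg (by norm_num) (by norm_num)
  have hlim := tendsto_pow_const_mul_const_pow_of_abs_lt_one 80
    (show |r| < 1 by rw [abs_of_pos hr0]; exact hr1)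
  have hev := hlim.eventually (gt_mem_nhds (show (0 : ℝ) < c / (C * 4 ^ 80) by positivity))
  obtain ⟨J₁, hJ₁⟩ := Filter.eventually_atTop.1 hev
  refine ⟨max J₁ 1, fun J hJ n hn k hk hkap => ?_⟩
  have hJ1 : 1 ≤ J := le_trans (le_max_right _ _) hJ
  have hlt := hJ₁ J (le_trans (le_max_left _ _) hJ)
  by_contra hs
  unfold Blk at hn
  rw [mem_Ico] at hn
  have h2J : 2 ≤ 2 ^ J := by
    calc 2 = 2 ^ 1 := by norm_num
      _ ≤ 2 ^ J := Nat.pow_le_pow_right (by norm_num) hJ1
  have hn2 : 2 ≤ n := le_trans h2J hn.1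
  have hm := hmain n k hn2 hkap hs
  obtain ⟨⟨hk1, hk2⟩, -⟩ := (kappa_eq_iff n k).1 hkap
  have hl := hlow k (odds n k) (by omega)
  have hpos : 0 < (k : ℝ) * Real.log 2 - odds n k * Real.log 3 := by
    have h := Real.log_lt_log (show (0 : ℝ) < 3 ^ odds n k by positivity)
      (show (3 : ℝ) ^ odds n k < 2 ^ k by exact_mod_cast hk2)
    rw [Real.log_pow, Real.log_pow] at h
    linarith
  rw [abs_of_pos hpos] at hl
  have hnr : (n : ℝ) ^ (-(1 / 24) : ℝ) ≤ r ^ J := by
    have h1 : (2 : ℝ) ^ J ≤ n := by exact_mod_cast hn.1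
    have h3 : r ^ J = ((2 : ℝ) ^ J) ^ (-(1 / 24) : ℝ) := by
      rw [hr, ← Real.rpow_natCast, ← Real.rpow_mul (by norm_num), ← Real.rpow_natCast 2 J,
        ← Real.rpow_mul (by norm_num), mul_comm]
    rw [h3]
    exact Real.rpow_le_rpow_of_nonpos (by positivity) h1 (by norm_num)
  have hka : ((k + odds n k : ℕ) : ℝ) ≤ 4 * J := by
    have h1 := SigK_odds_le n k
    have h2 : k + odds n k ≤ 4 * J := by omega
    exact_mod_cast h2
  have hka0 : (0 : ℝ) < ((k + odds n k : ℕ) : ℝ) := by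
    have : 0 < k + odds n k := by omega
    exact_mod_cast this
  have hJ0 : (0 : ℝ) < J := by exact_mod_cast hJ1
  have h5 : c / (4 * J : ℝ) ^ 80 ≤ C * r ^ J := by
    calc c / (4 * J : ℝ) ^ 80 ≤ c / ((k + odds n k : ℕ) : ℝ) ^ 80 :=
          div_le_div_of_nonneg_left hc.le (by positivity) (pow_le_pow_left₀ hka0.le hka 80)
      _ ≤ C * (n : ℝ) ^ (-(1 / 24) : ℝ) := le_trans hl hm
      _ ≤ C * r ^ J := mul_le_mul_of_nonneg_left hnr hC.le
  rw [div_le_iff₀ (by positivity), mul_pow] at h5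
  rw [lt_div_iff₀ (by positivity)] at hlt
  have h6 : C * r ^ J * ((4 : ℝ) ^ 80 * (J : ℝ) ^ 80) = (J : ℝ) ^ 80 * r ^ J * (C * 4 ^ 80) := by
    ring
  rw [h6] at h5
  exact absurd hlt (not_lt.2 h5)

end Pool.Agent.Work.MP_a11cf9_nt.Win

end

section

/-!
# Item FinA
-/


open Finset

namespace Pool.Agent.Work.MP_a11cf9_nt.Win

open Pool.Agent.Work.MP_a11cf9_nt

/-- An element of the block outside the set of `S_NA` is not exceptional. -/
theorem FinA_good {lam δ : ℝ} (hδ0 : 0 < δ) (hδ1 : δ ≤ 1 / 1000) (hδ2 : 1 + δ ≤ lam)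
    {J n : ℕ} (hn : n ∈ Blk J) (hS : ∀ k : ℕ, k ≤ 2 * J → kappa n = k → sigma n = k)
    (hno : ¬ ∀ k, 1 ≤ k → k ≤ J + ⌊δ * J⌋₊ → 2 ^ k ≤ 3 ^ odds n k) :
    kappa n = sigma n ∧ ∃ k : ℕ, sigma n = k ∧ (k : ℝ) ≤ lam * Real.logb 2 n := by
  classical
  have hex : ∃ k, 1 ≤ k ∧ 3 ^ odds n k < 2 ^ k := by
    by_contra hc
    apply hno
    intro k hk _
    by_contra h2
    exact hc ⟨k, hk, not_le.1 h2⟩
  push Not at hno
  obtain ⟨k, hk1, hk2, hk3⟩ := hno
  have hspec := Nat.find_spec hex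
  have hmin := fun {m : ℕ} (hm : m < Nat.find hex) => Nat.find_min hex hm
  have hle : Nat.find hex ≤ k := Nat.find_min' hex ⟨hk1, hk3⟩
  set k' := Nat.find hex with hk'
  have hkap : kappa n = k' := by
    rw [kappa_eq_iff]
    refine ⟨hspec, fun j hj hjk => ?_⟩
    by_contra hc
    exact hmin hjk ⟨hj, not_le.1 hc⟩
  have hJ0 : (0 : ℝ) ≤ J := Nat.cast_nonneg J
  have hfl : ((⌊δ * J⌋₊ : ℕ) : ℝ) ≤ δ * J := Nat.floor_le (by positivity)
  have hflJ : ⌊δ * J⌋₊ ≤ J := by
    have h1 : ((⌊δ * J⌋₊ : ℕ) : ℝ) ≤ J := by nlinarith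
    exact_mod_cast h1
  have hsig : sigma n = k' := hS k' (by omega) hkap
  refine ⟨by rw [hkap, hsig], k', hsig, ?_⟩
  have h2J : (J : ℝ) ≤ Real.logb 2 n := by
    have h1 : 2 ^ J ≤ n := (Finset.mem_Ico.1 hn).1
    have h2 : (2 : ℝ) ^ (J : ℝ) ≤ n := by
      rw [Real.rpow_natCast]
      exact_mod_cast h1
    have hn0 : (0 : ℝ) < n := lt_of_lt_of_le (by positivity) h2
    exact (Real.le_logb_iff_rpow_le (by norm_num) hn0).2 h2
  have h3 : (k' : ℝ) ≤ J + δ * J := by
    have h4 : (k' : ℝ) ≤ ((J + ⌊δ * J⌋₊ : ℕ) : ℝ) := by exact_mod_cast le_trans hle hk2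
    push_cast at h4
    linarith
  have h5 : (J : ℝ) + δ * J ≤ lam * J := by nlinarith
  have h6 : lam * J ≤ lam * Real.logb 2 n := mul_le_mul_of_nonneg_left h2J (by linarith)
  linarith

theorem FinA_exp_eq (g : ℝ) (J : ℕ) : Real.exp (g * J) = ((2 : ℝ) ^ J) ^ (g / Real.log 2) := by
  have h2 := log_two_pos
  rw [Real.rpow_def_of_pos (by positivity), Real.log_pow]
  congr 1
  field_simp

/-- geometric series over the blocks -/
theorem FinA_sum {g D : ℝ} (hg : 0 < g) (hD : 0 ≤ D) (E : ℕ → Prop) [DecidablePred E]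
    (hE : ∀ J : ℕ, (((Blk J).filter E).card : ℝ) ≤ D * Real.exp (g * J)) (N : ℕ) :
    (((Icc 2 N).filter E).card : ℝ) ≤
      D * (Real.exp g / (Real.exp g - 1)) * (N : ℝ) ^ (g / Real.log 2) := by
  have hl2 := log_two_pos
  have hg1 : 0 < Real.exp g - 1 := by
    have := Real.add_one_le_exp g
    linarith
  rcases Nat.lt_or_ge N 2 with hN | hN
  · rw [Finset.Icc_eq_empty (by omega), Finset.filter_empty, Finset.card_empty, Nat.cast_zero]
    have : (0 : ℝ) ≤ (N : ℝ) ^ (g / Real.log 2) := Real.rpow_nonneg (Nat.cast_nonneg N) _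
    have h3 : 0 < Real.exp g := Real.exp_pos g
    positivity
  have hsub : (Icc 2 N).filter E ⊆
      (range (Nat.log 2 N + 1)).biUnion fun J => (Blk J).filter E := by
    intro n hn
    rw [Finset.mem_filter, Finset.mem_Icc] at hn
    rw [Finset.mem_biUnion]
    refine ⟨Nat.log 2 n, ?_, ?_⟩
    · rw [Finset.mem_range, Nat.lt_succ_iff]
      exact Nat.log_mono_right hn.1.2
    · rw [Finset.mem_filter]
      refine ⟨?_, hn.2⟩
      unfold Blk
      rw [Finset.mem_Ico]
      exact ⟨Nat.pow_log_le_self 2 (by omega), Nat.lt_pow_succ_log_self (by norm_num) n⟩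
  have h1 : (((Icc 2 N).filter E).card : ℝ) ≤
      ∑ J ∈ range (Nat.log 2 N + 1), (((Blk J).filter E).card : ℝ) := by
    have h2 := le_trans (Finset.card_le_card hsub) Finset.card_biUnion_le
    exact_mod_cast h2
  have h2 : ∑ J ∈ range (Nat.log 2 N + 1), (((Blk J).filter E).card : ℝ) ≤
      ∑ J ∈ range (Nat.log 2 N + 1), D * (Real.exp g) ^ J := by
    refine Finset.sum_le_sum (fun J _ => ?_)
    rw [← Real.exp_nat_mul, mul_comm (J : ℝ) g]
    exact hE J
  rw [← Finset.mul_sum, geom_sum_eq (by linarith)] at h2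
  have h3 : (Real.exp g) ^ (Nat.log 2 N + 1) ≤ Real.exp g * (N : ℝ) ^ (g / Real.log 2) := by
    rw [pow_succ, mul_comm]
    refine mul_le_mul_of_nonneg_left ?_ (Real.exp_pos g).le
    rw [← Real.exp_nat_mul, mul_comm, FinA_exp_eq]
    refine Real.rpow_le_rpow (by positivity) ?_ (by positivity)
    exact_mod_cast Nat.pow_log_le_self 2 (by omega)
  calc (((Icc 2 N).filter E).card : ℝ)
      ≤ D * (((Real.exp g) ^ (Nat.log 2 N + 1) - 1) / (Real.exp g - 1)) := le_trans h1 h2
    _ ≤ D * ((Real.exp g * (N : ℝ) ^ (g / Real.log 2)) / (Real.exp g - 1)) := by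
        refine mul_le_mul_of_nonneg_left ?_ hD
        refine div_le_div_of_nonneg_right ?_ hg1.le
        linarith
    _ = D * (Real.exp g / (Real.exp g - 1)) * (N : ℝ) ^ (g / Real.log 2) := by ring

theorem pr_FinA (h1 : S_NA) (h2 : S_SigK) (h3 : S_ZZ) : S_FinA := by
  classical
  intro lam hlam
  obtain ⟨hr1, hr2, -, -, -, -, -⟩ := h3
  have hhpos : 0 < hh := Real.binEntropy_pos (by linarith) (by linarith)
  set δ : ℝ := min (1 / 1000) (lam - 1) with hδ
  have hδ0 : 0 < δ := lt_min (by norm_num) (by linarith)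
  have hδ1 : δ ≤ 1 / 1000 := min_le_left _ _
  have hδ2 : 1 + δ ≤ lam := by
    have := min_le_right (1 / 1000 : ℝ) (lam - 1)
    linarith
  obtain ⟨η, C, hη, hC, hNA⟩ := h1 δ hδ0 hδ1
  obtain ⟨J₀, hJ₀⟩ := h2
  set g : ℝ := max (hh - η) (hh / 2) with hg
  have hg0 : 0 < g := lt_of_lt_of_le (by linarith) (le_max_right _ _)
  have hgh : g < hh := max_lt (by linarith) (by linarith)
  refine ⟨g / Real.log 2, (C + 2 ^ J₀) * (Real.exp g / (Real.exp g - 1)),
    div_lt_div_of_pos_right hgh log_two_pos, fun N => ?_⟩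
  have key := FinA_sum (g := g) (D := C + 2 ^ J₀) hg0 (by positivity)
    (fun n => ¬ (kappa n = sigma n ∧ ∃ k : ℕ, sigma n = k ∧ (k : ℝ) ≤ lam * Real.logb 2 n)) ?_ N
  · convert key using 3
  intro J
  have hexp1 : 1 ≤ Real.exp (g * J) := Real.one_le_exp (by positivity)
  rcases Nat.lt_or_ge J J₀ with hJ | hJ
  · have h4 : (((Blk J).filter fun n => ¬ (kappa n = sigma n ∧ ∃ k : ℕ, sigma n = k ∧
        (k : ℝ) ≤ lam * Real.logb 2 n)).card : ℝ) ≤ 2 ^ J := by
      have h5 := Finset.card_filter_le (Blk J) fun n => ¬ (kappa n = sigma n ∧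
        ∃ k : ℕ, sigma n = k ∧ (k : ℝ) ≤ lam * Real.logb 2 n)
      have h6 : (Blk J).card = 2 ^ J := by
        unfold Blk
        rw [Nat.card_Ico, pow_succ]
        omega
      rw [h6] at h5
      exact_mod_cast h5
    have h5 : (2 : ℝ) ^ J ≤ 2 ^ J₀ := pow_le_pow_right₀ (by norm_num) hJ.le
    have h6 : (2 : ℝ) ^ J₀ * 1 ≤ (C + 2 ^ J₀) * Real.exp (g * J) :=
      mul_le_mul (by linarith) hexp1 (by norm_num) (by positivity)
    linarith
  · have hsub : ((Blk J).filter fun n => ¬ (kappa n = sigma n ∧ ∃ k : ℕ, sigma n = k ∧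
        (k : ℝ) ≤ lam * Real.logb 2 n)) ⊆
        ((Blk J).filter fun n => ∀ k, 1 ≤ k → k ≤ J + ⌊δ * J⌋₊ → 2 ^ k ≤ 3 ^ odds n k) := by
      intro n hn
      rw [Finset.mem_filter] at hn ⊢
      refine ⟨hn.1, ?_⟩
      by_contra hc
      exact hn.2 (FinA_good hδ0 hδ1 hδ2 hn.1 (fun k hk => hJ₀ J hJ n hn.1 k hk) hc)
    have h4 : (((Blk J).filter fun n => ¬ (kappa n = sigma n ∧ ∃ k : ℕ, sigma n = k ∧
        (k : ℝ) ≤ lam * Real.logb 2 n)).card : ℝ) ≤ C * Real.exp ((hh - η) * J) := by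
      refine le_trans ?_ (hNA J)
      exact_mod_cast Finset.card_le_card hsub
    have h5 : Real.exp ((hh - η) * J) ≤ Real.exp (g * J) := by
      refine Real.exp_le_exp.2 (mul_le_mul_of_nonneg_right (le_max_left _ _) (Nat.cast_nonneg J))
    have h6 : C * Real.exp ((hh - η) * J) ≤ (C + 2 ^ J₀) * Real.exp (g * J) :=
      mul_le_mul (by linarith [pow_pos (show (0 : ℝ) < 2 by norm_num) J₀]) h5
        (Real.exp_pos _).le (by positivity)
    linarith

end Pool.Agent.Work.MP_a11cf9_nt.Win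

end

section

/-!
# Item NB (MP_a11cf9, Win)
-/


open Finset

namespace Pool.Agent.Work.MP_a11cf9_nt.Win

open Pool.Agent.Work.MP_a11cf9_nt

theorem NB_card (z t : ℝ) (J : ℕ) (hz : 1 < z) (S : Finset ℕ)
    (h : ∀ m ∈ S, t ≤ (odds m J : ℝ)) :
    (S.card : ℝ) * Real.exp (t * Real.log z) ≤ ∑ m ∈ S, z ^ odds m J := by
  rw [← nsmul_eq_mul, ← Finset.sum_const]
  refine Finset.sum_le_sum fun m hm => ?_
  have hz0 : 0 < z := by linarith
  have e1 : z ^ odds m J = Real.exp ((odds m J : ℝ) * Real.log z) := by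
    rw [mul_comm, ← Real.rpow_def_of_pos hz0, Real.rpow_natCast]
  rw [e1]
  apply Real.exp_le_exp.mpr
  exact mul_le_mul_of_nonneg_right (h m hm) (Real.log_pos hz).le

theorem NB_card' (z t B A : ℝ) (J : ℕ) (hz : 1 < z) (S : Finset ℕ)
    (h : ∀ m ∈ S, t ≤ (odds m J : ℝ)) (hB : ∑ m ∈ S, z ^ odds m J ≤ B * Real.exp A) :
    (S.card : ℝ) ≤ B * Real.exp (A - t * Real.log z) := by
  have h1 := (NB_card z t J hz S h).trans hB
  rw [Real.exp_sub, ← mul_div_assoc]
  rwa [le_div_iff₀ (Real.exp_pos _)]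

theorem pr_NB (h1 : S_E) (h2 : S_ZZ) : S_NB := by
  obtain ⟨z1, z2, z3, z4, z5, z6, z7⟩ := h2
  obtain ⟨η₀, C₀, hη₀, hC₀, hE⟩ := h1 (1 / 1000) (by norm_num) le_rfl
  have hz : 1 < zz := by linarith
  have hlz : 0 < Real.log zz := Real.log_pos hz
  have hlz1 : Real.log zz < 1 := by
    have e1 : Real.log zz < Real.log 2 := Real.log_lt_log (by linarith) z4
    have e2 := Real.log_two_lt_d9
    linarith
  have hpow : ∀ J : ℕ, (1 + zz) ^ J = Real.exp (Real.log (1 + zz) * J) := by
    intro J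
    rw [← Real.rpow_def_of_pos (by linarith), Real.rpow_natCast]
  refine ⟨1 / 1000, η₀ / 2, 1 / 1000 / 20000, min (1 / 1000 / 20000 * Real.log zz) (η₀ / 2),
    1 + C₀, by norm_num, le_rfl, by linarith, by norm_num, le_rfl, ?_, by linarith, ?_⟩
  · apply lt_min
    · positivity
    · linarith
  intro J
  have hJ : (0 : ℝ) ≤ J := Nat.cast_nonneg J
  set η := min (1 / 1000 / 20000 * Real.log zz) (η₀ / 2) with hη
  set S1 := (Blk J).filter fun m => (rho + 1 / 1000 / 20000) * J ≤ (odds m J : ℝ) with hS1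
  set S2 := (Blk J).filter fun m => (rho - η₀ / 2) * J ≤ (odds m J : ℝ) ∧
    (rho - 1 / 10000) * (⌊(1 / 1000 : ℝ) * J⌋₊ : ℝ) ≤
      (odds (T^[J] m) ⌊(1 / 1000 : ℝ) * J⌋₊ : ℝ) with hS2
  have hsub : ((Blk J).filter fun m => (rho - η₀ / 2) * J ≤ (odds m J : ℝ) ∧
    ((rho + 1 / 1000 / 20000) * J ≤ (odds m J : ℝ) ∨
      (rho - 1 / 10000) * (⌊(1 / 1000 : ℝ) * J⌋₊ : ℝ) ≤
      (odds (T^[J] m) ⌊(1 / 1000 : ℝ) * J⌋₊ : ℝ))) ⊆ S1 ∪ S2 := by
    intro m hm
    rw [Finset.mem_filter] at hm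
    obtain ⟨hm0, hm1, hm2⟩ := hm
    rw [Finset.mem_union]
    rcases hm2 with hm2 | hm2
    · left
      rw [hS1, Finset.mem_filter]
      exact ⟨hm0, hm2⟩
    · right
      rw [hS2, Finset.mem_filter]
      exact ⟨hm0, hm1, hm2⟩
  have hc1 : (S1.card : ℝ) ≤ Real.exp ((hh - η) * J) := by
    have e1 := NB_card' zz ((rho + 1 / 1000 / 20000) * J) 1 (Real.log (1 + zz) * J) J hz S1
      (fun m hm => (Finset.mem_filter.mp hm).2) (by
        rw [one_mul, ← hpow, ← sum_pow_odds_Ico]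
        apply Finset.sum_le_sum_of_subset_of_nonneg
        · exact Finset.filter_subset _ _
        · intro m _ _
          have : 0 < zz := by linarith
          positivity)
    rw [one_mul] at e1
    refine e1.trans (Real.exp_le_exp.mpr ?_)
    rw [z7]
    have e2 : η ≤ 1 / 1000 / 20000 * Real.log zz := min_le_left _ _
    have e3 := mul_le_mul_of_nonneg_right e2 hJ
    nlinarith
  have hc2 : (S2.card : ℝ) ≤ C₀ * Real.exp ((hh - η) * J) := by
    have e1 := NB_card' zz ((rho - η₀ / 2) * J) C₀ (Real.log (1 + zz) * J + -η₀ * J) J hz S2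
      (fun m hm => (Finset.mem_filter.mp hm).2.1) (by
        rw [Real.exp_add, ← mul_assoc, ← hpow]
        refine le_trans ?_ (hE J)
        apply Finset.sum_le_sum_of_subset_of_nonneg
        · intro m hm
          rw [hS2, Finset.mem_filter] at hm
          rw [Finset.mem_filter]
          exact ⟨hm.1, hm.2.2⟩
        · intro m _ _
          have : 0 < zz := by linarith
          positivity)
    refine e1.trans (mul_le_mul_of_nonneg_left (Real.exp_le_exp.mpr ?_) hC₀.le)
    rw [z7]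
    have e2 : η ≤ η₀ / 2 := min_le_right _ _
    have e3 := mul_le_mul_of_nonneg_right e2 hJ
    have e4 : η₀ / 2 * Real.log zz ≤ η₀ / 2 * 1 :=
      mul_le_mul_of_nonneg_left hlz1.le (by linarith)
    have e5 := mul_le_mul_of_nonneg_right e4 hJ
    nlinarith
  calc _ ≤ ((S1 ∪ S2).card : ℝ) := by exact_mod_cast Finset.card_le_card hsub
    _ ≤ (S1.card : ℝ) + S2.card := by exact_mod_cast Finset.card_union_le _ _
    _ ≤ Real.exp ((hh - η) * J) + C₀ * Real.exp ((hh - η) * J) := add_le_add hc1 hc2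
    _ = (1 + C₀) * Real.exp ((hh - η) * J) := by ring

end Pool.Agent.Work.MP_a11cf9_nt.Win

end

section

open Finset

namespace Pool.Agent.Work.MP_a11cf9_nt.Win

open Pool.Agent.Work.MP_a11cf9_nt

theorem Grow2_ev (q D g : ℝ) (hq0 : 0 ≤ q) (hq : q < 1) (hD : 0 ≤ D) (hg : 0 < g) :
    ∃ J₁ : ℕ, ∀ J : ℕ, J₁ ≤ J → q * J + D < J ∧
      6 * (q * J + D + 1) * Real.exp (g * (q * J + D)) ≤ Real.exp (g * J) := by
  set a : ℝ := g * (1 - q) with ha
  have ha0 : 0 < a := mul_pos hg (by linarith)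
  set A : ℝ := 12 * Real.exp (g * D) / a ^ 2 with hA
  have hA0 : 0 < A := by positivity
  obtain ⟨J₁, hJ₁⟩ := exists_nat_gt (D / (1 - q) + A * (1 + D + 1) + 1)
  refine ⟨J₁, fun J hJ => ?_⟩
  have hJR : (J₁ : ℝ) ≤ J := by exact_mod_cast hJ
  have hAd : 0 ≤ A * (1 + D + 1) := by positivity
  have hDq : 0 ≤ D / (1 - q) := div_nonneg hD (by linarith)
  have hJ1 : (1 : ℝ) ≤ J := by linarith
  have h1 : D < J * (1 - q) := by
    have : D / (1 - q) < J := by linarith
    rwa [div_lt_iff₀ (by linarith)] at this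
  refine ⟨by nlinarith, ?_⟩
  have h2 : A * (1 + D + 1) ≤ J := by linarith
  have h3 : q * J + D + 1 ≤ (1 + D + 1) * J := by nlinarith
  have e1 : Real.exp (g * (q * J + D)) * Real.exp (a * J) = Real.exp (g * J) * Real.exp (g * D) := by
    rw [← Real.exp_add, ← Real.exp_add]
    congr 1
    rw [ha]; ring
  have e2 : (a * J) ^ 2 / 2 ≤ Real.exp (a * J) := by
    have := Real.quadratic_le_exp_of_nonneg (x := a * J) (by positivity)
    nlinarith [this, mul_pos ha0 (show (0:ℝ) < J by linarith)]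
  have e3 : 6 * (q * J + D + 1) * Real.exp (g * D) ≤ Real.exp (a * J) := by
    have k1 : A * (1 + D + 1) * a ^ 2 = 12 * Real.exp (g * D) * (1 + D + 1) := by
      rw [hA]; field_simp
    have k2 : 12 * Real.exp (g * D) * (1 + D + 1) ≤ J * a ^ 2 := by
      rw [← k1]; exact mul_le_mul_of_nonneg_right h2 (by positivity)
    have k3 : 6 * (q * J + D + 1) * Real.exp (g * D) ≤
        6 * ((1 + D + 1) * J) * Real.exp (g * D) := by
      gcongr
    have k4 : 6 * ((1 + D + 1) * J) * Real.exp (g * D) ≤ (a * J) ^ 2 / 2 := by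
      have : (12 * Real.exp (g * D) * (1 + D + 1)) * J ≤ (J * a ^ 2) * J :=
        mul_le_mul_of_nonneg_right k2 (by linarith)
      nlinarith [this]
    linarith
  have hE : 0 < Real.exp (a * J) := Real.exp_pos _
  have hgd : 0 < Real.exp (g * D) := Real.exp_pos _
  have hX : 0 < Real.exp (g * (q * J + D)) := Real.exp_pos _
  -- multiply
  have : 6 * (q * J + D + 1) * Real.exp (g * D) * Real.exp (g * (q * J + D)) ≤
      Real.exp (g * J) * Real.exp (g * D) := by
    rw [← e1, mul_comm (Real.exp (g * (q * J + D))) (Real.exp (a * J))]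
    exact mul_le_mul_of_nonneg_right e3 hX.le
  nlinarith [this, hgd]

theorem pr_Grow2 : S_Grow2 := by
  intro q D h g C₀ hq0 hq hD hg hh hC₀
  obtain ⟨J₁, hJ₁⟩ := Grow2_ev q D g hq0 hq hD hg
  set C : ℝ := 3 * C₀ + 6 / g + 2 ^ J₁ with hC
  have hC1 : 3 * C₀ ≤ C := by
    have : 0 ≤ 6 / g := by positivity
    have : (0:ℝ) ≤ 2 ^ J₁ := by positivity
    linarith
  have hC2 : 6 / g ≤ C := by
    have : (0:ℝ) ≤ 2 ^ J₁ := by positivity
    linarith
  have hC3 : (2 : ℝ) ^ J₁ ≤ C := by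
    have : 0 ≤ 6 / g := by positivity
    linarith
  have hC0 : 0 < C := by linarith
  refine ⟨C, hC0, fun v hv hrec J => ?_⟩
  induction J using Nat.strong_induction_on with
  | _ J ih =>
    by_cases hJ : J < J₁
    · have h1 : v J ≤ 2 ^ J := hv J
      have h2 : (2 : ℝ) ^ J ≤ 2 ^ J₁ := pow_le_pow_right₀ (by norm_num) hJ.le
      have h3 : 1 ≤ Real.exp (g * J) := Real.one_le_exp (by positivity)
      calc v J ≤ C * 1 := by linarith
        _ ≤ C * Real.exp (g * J) := mul_le_mul_of_nonneg_left h3 hC0.le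
    · obtain ⟨a1, a2⟩ := hJ₁ J (not_lt.mp hJ)
      have hJ0 : (0 : ℝ) ≤ J := Nat.cast_nonneg J
      have hqJ : 0 ≤ q * J + D := by positivity
      have hfl : (⌊q * J + D⌋₊ : ℝ) ≤ q * J + D := Nat.floor_le hqJ
      have hs : ∑ i ∈ Finset.range (⌊q * J + D⌋₊ + 1), v i ≤
          (q * J + D + 1) * (C * Real.exp (g * (q * J + D))) := by
        calc ∑ i ∈ Finset.range (⌊q * J + D⌋₊ + 1), v i ≤
            ∑ i ∈ Finset.range (⌊q * J + D⌋₊ + 1), C * Real.exp (g * (q * J + D)) := by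
              apply Finset.sum_le_sum
              intro i hi
              rw [Finset.mem_range] at hi
              have hi1 : (i : ℝ) ≤ ⌊q * J + D⌋₊ := by exact_mod_cast Nat.lt_succ_iff.mp hi
              have hi2 : (i : ℝ) < J := by linarith
              have hi3 : i < J := by exact_mod_cast hi2
              refine (ih i hi3).trans (mul_le_mul_of_nonneg_left (Real.exp_le_exp.mpr ?_) hC0.le)
              exact mul_le_mul_of_nonneg_left (by linarith) hg.le
          _ = (⌊q * J + D⌋₊ + 1 : ℝ) * (C * Real.exp (g * (q * J + D))) := by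
              rw [Finset.sum_const, Finset.card_range, nsmul_eq_mul]; push_cast; ring
          _ ≤ _ := by
              apply mul_le_mul_of_nonneg_right (by linarith)
              positivity
      have hs2 : 2 * ∑ i ∈ Finset.range (⌊q * J + D⌋₊ + 1), v i ≤ C * Real.exp (g * J) / 3 := by
        have : C * (6 * (q * J + D + 1) * Real.exp (g * (q * J + D))) ≤ C * Real.exp (g * J) :=
          mul_le_mul_of_nonneg_left a2 hC0.le
        nlinarith [this, hs]
      have h0 : C₀ * Real.exp (h * J) ≤ C * Real.exp (g * J) / 3 := by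
        have t1 : Real.exp (h * J) ≤ Real.exp (g * J) :=
          Real.exp_le_exp.mpr (mul_le_mul_of_nonneg_right hh hJ0)
        have t2 : C₀ * Real.exp (h * J) ≤ C₀ * Real.exp (g * J) :=
          mul_le_mul_of_nonneg_left t1 hC₀.le
        have t3 : (3 * C₀) * Real.exp (g * J) ≤ C * Real.exp (g * J) :=
          mul_le_mul_of_nonneg_right hC1 (Real.exp_pos _).le
        linarith
      have h2 : 2 * (J : ℝ) ≤ C * Real.exp (g * J) / 3 := by
        have t1 : g * J ≤ Real.exp (g * J) := by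
          have := Real.add_one_le_exp (g * J); linarith
        have t3 : (6 / g) * Real.exp (g * J) ≤ C * Real.exp (g * J) :=
          mul_le_mul_of_nonneg_right hC2 (Real.exp_pos _).le
        have t4 : (6 / g) * (g * J) ≤ (6 / g) * Real.exp (g * J) :=
          mul_le_mul_of_nonneg_left t1 (by positivity)
        have t5 : (6 / g) * (g * J) = 6 * J := by field_simp
        linarith
      have := hrec J
      linarith

end Pool.Agent.Work.MP_a11cf9_nt.Win

end

section

/-!
# ITEM Blk2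
-/


open Finset

namespace Pool.Agent.Work.MP_a11cf9_nt.Win

open Pool.Agent.Work.MP_a11cf9_nt

theorem Blk2_rho : rho * Real.log 3 = Real.log 2 := by
  unfold rho
  exact div_mul_cancel₀ _ log_three_pos.ne'

theorem Blk2_l32 : Real.log 2 ≤ Real.log 3 ∧ Real.log 3 ≤ 2 * Real.log 2 := by
  constructor
  · exact Real.log_le_log (by norm_num) (by norm_num)
  · have : 2 * Real.log 2 = Real.log 4 := by
      rw [show (4 : ℝ) = 2 ^ 2 by norm_num, Real.log_pow]
      norm_num
    rw [this]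
    exact Real.log_le_log (by norm_num) (by norm_num)

/-- the number of indices whose shift lies in a lower block -/
theorem Blk2_shift (n s t u N : ℕ) :
    ((Ico s t).filter (fun i => i + u < t ∧ Nat.log 2 (T^[i + u] n) ≤ N)).card ≤
      ∑ l ∈ range (N + 1), blk n s t l := by
  have hB1 : ((Ico s t).filter (fun i => i + u < t ∧ Nat.log 2 (T^[i + u] n) ≤ N)).card ≤
      ((Ico s t).filter (fun i => Nat.log 2 (T^[i] n) ∈ range (N + 1))).card := by
    refine card_le_card_of_injOn (fun i => i + u) (fun i hi => ?_)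
      (fun i _ j _ hij => by simpa using hij)
    rw [mem_coe, mem_filter, mem_Ico] at hi
    rw [mem_coe, mem_filter, mem_Ico, mem_range]
    exact ⟨⟨by show s ≤ i + u; omega, hi.2.1⟩, Nat.lt_succ_of_le hi.2.2⟩
  refine le_trans hB1 ?_
  have hmaps : ∀ i ∈ (Ico s t).filter
      (fun i => Nat.log 2 (T^[i] n) ∈ range (N + 1)),
      (fun i => Nat.log 2 (T^[i] n)) i ∈ range (N + 1) :=
    fun i hi => (mem_filter.1 hi).2
  rw [card_eq_sum_card_fiberwise hmaps]
  refine sum_le_sum (fun l _ => card_le_card (fun i hi => ?_))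
  rw [mem_filter, mem_filter] at hi
  exact mem_filter.2 ⟨hi.1.1, hi.2⟩

/-- case (2) -/
theorem Blk2_two {m J : ℕ} {ε : ℝ} (hε : 0 < ε) (hm : m < 2 ^ (J + 1)) (hm1 : 1 ≤ m)
    (ho : (odds m J : ℝ) < (rho - ε) * J) :
    (Nat.log 2 (T^[J] m) : ℝ) ≤ (1 - ε) * J + 2 := by
  have hlt := iter_lt hm
  have hpos := iter_pos hm1 J
  have h2 : (2 : ℝ) ^ Nat.log 2 (T^[J] m) ≤ (T^[J] m : ℝ) := by
    exact_mod_cast Nat.pow_log_le_self 2 (by omega)
  have h3 : (T^[J] m : ℝ) ≤ 3 ^ (odds m J + 1) := by exact_mod_cast hlt.le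
  have h4 := Real.log_le_log (by positivity) (le_trans h2 h3)
  rw [Real.log_pow, Real.log_pow] at h4
  push_cast at h4
  obtain ⟨l1, l2⟩ := Blk2_l32
  have hr := Blk2_rho
  have hL2 := log_two_pos
  have hL3 := log_three_pos
  have hJ : (0 : ℝ) ≤ J := Nat.cast_nonneg _
  have h5 : ((odds m J : ℝ) + 1) * Real.log 3 ≤ ((rho - ε) * J + 1) * Real.log 3 :=
    mul_le_mul_of_nonneg_right (by linarith) hL3.le
  have h6 : ((rho - ε) * J + 1) * Real.log 3 = J * Real.log 2 - ε * J * Real.log 3 + Real.log 3 := by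
    rw [← hr]; ring
  have h7 : ε * J * Real.log 2 ≤ ε * J * Real.log 3 :=
    mul_le_mul_of_nonneg_left l1 (by positivity)
  have h8 : (Nat.log 2 (T^[J] m) : ℝ) * Real.log 2 ≤ ((1 - ε) * J + 2) * Real.log 2 := by
    have : ((1 - ε) * J + 2) * Real.log 2 = J * Real.log 2 - ε * J * Real.log 2 +
        2 * Real.log 2 := by ring
    rw [this]
    linarith
  exact le_of_mul_le_mul_right h8 hL2

/-- case (3) -/
theorem Blk2_three {m J K : ℕ} {δ ε : ℝ} (hδ : 0 < δ) (hδ' : δ ≤ 1 / 1000)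
    (hε' : ε ≤ δ / 20000) (hK : K = ⌊δ * J⌋₊) (hm : m < 2 ^ (J + 1)) (hm1 : 1 ≤ m)
    (ho : (odds m J : ℝ) < (rho + ε) * J)
    (ho2 : (odds (T^[J] m) K : ℝ) < (rho - 1 / 10000) * K) :
    (Nat.log 2 (T^[K] (T^[J] m)) : ℝ) ≤ (1 - δ / 20000) * J + 4 := by
  have hlt := iter_lt hm
  have hpos := iter_pos hm1 J
  set y := T^[J] m with hy
  have hpos2 := iter_pos hpos K
  set l := Nat.log 2 (T^[K] y) with hl
  obtain ⟨l1, l2⟩ := Blk2_l32
  have hr := Blk2_rho
  have hL2 := log_two_pos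
  have hL3 := log_three_pos
  have hJ : (0 : ℝ) ≤ J := Nat.cast_nonneg _
  have hK0 : (0 : ℝ) ≤ K := Nat.cast_nonneg _
  have hKle : (K : ℝ) ≤ δ * J := by rw [hK]; exact Nat.floor_le (by positivity)
  have hKge : δ * J - 1 ≤ (K : ℝ) := by
    rw [hK]; have := Nat.lt_floor_add_one (δ * J); linarith
  have h2 : 2 ^ l ≤ T^[K] y := Nat.pow_log_le_self 2 (by omega)
  have h3 := two_pow_mul_iter_le y K
  have h4 : 2 ^ (K + l) ≤ 3 ^ odds y K * (y + 2 ^ K) := by
    calc 2 ^ (K + l) = 2 ^ K * 2 ^ l := by rw [pow_add]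
      _ ≤ 2 ^ K * T^[K] y := Nat.mul_le_mul_left _ h2
      _ ≤ _ := le_trans (Nat.le_add_right _ _) h3
  have hdJ : δ * J ≤ 1 / 1000 * J := mul_le_mul_of_nonneg_right hδ' hJ
  have hεJ : ε * J ≤ δ / 20000 * J := mul_le_mul_of_nonneg_right hε' hJ
  have ho3 : (odds y K : ℝ) * Real.log 3 ≤ K * Real.log 2 - K / 10000 * Real.log 3 := by
    have := mul_le_mul_of_nonneg_right ho2.le hL3.le
    have e : (rho - 1 / 10000) * (K : ℝ) * Real.log 3 = K * Real.log 2 - K / 10000 * Real.log 3 := by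
      rw [← hr]; ring
    rw [e] at this
    exact this
  apply le_of_mul_le_mul_right _ hL2
  rcases le_total (2 ^ K) y with hc | hc
  · have h5 : 2 ^ (K + l) ≤ 3 ^ odds y K * (2 * 3 ^ (odds m J + 1)) :=
      le_trans h4 (Nat.mul_le_mul_left _ (by omega))
    have h6 : (2 : ℝ) ^ (K + l) ≤ 3 ^ odds y K * (2 * 3 ^ (odds m J + 1)) := by exact_mod_cast h5
    have h7 := Real.log_le_log (by positivity) h6
    rw [Real.log_pow, Real.log_mul (by positivity) (by positivity),
      Real.log_mul (by norm_num) (by positivity), Real.log_pow, Real.log_pow] at h7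
    push_cast at h7
    have h8 : ((odds m J : ℝ) + 1) * Real.log 3 ≤ J * Real.log 2 + ε * J * Real.log 3 +
        Real.log 3 := by
      have := mul_le_mul_of_nonneg_right ho.le hL3.le
      have e : (rho + ε) * (J : ℝ) * Real.log 3 = J * Real.log 2 + ε * J * Real.log 3 := by
        rw [← hr]; ring
      rw [e] at this
      linarith
    -- l log 2 ≤ log 2 + J log 2 + (ε J - K / 10000 + 1) log 3
    have h9 : (l : ℝ) * Real.log 2 ≤ Real.log 2 + J * Real.log 2 +
        (ε * J - K / 10000 + 1) * Real.log 3 := by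
      have : (ε * J - K / 10000 + 1) * Real.log 3 = ε * J * Real.log 3 - K / 10000 * Real.log 3 +
        Real.log 3 := by ring
      rw [this]
      have h7' : ((K : ℝ) + l) * Real.log 2 = K * Real.log 2 + l * Real.log 2 := by ring
      rw [h7'] at h7
      linarith
    have h10 : ε * J - K / 10000 + 1 ≤ 1 + 1 / 10000 - δ / 20000 * J := by linarith
    have h11 : (ε * J - K / 10000 + 1) * Real.log 3 ≤
        (1 + 1 / 10000 - δ / 20000 * J) * Real.log 3 :=
      mul_le_mul_of_nonneg_right h10 hL3.le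
    have h12 : δ / 20000 * J * Real.log 2 ≤ δ / 20000 * J * Real.log 3 :=
      mul_le_mul_of_nonneg_left l1 (by positivity)
    have e : ((1 - δ / 20000) * J + 4) * Real.log 2 = J * Real.log 2 - δ / 20000 * J * Real.log 2 +
        4 * Real.log 2 := by ring
    rw [e]
    have e2 : (1 + 1 / 10000 - δ / 20000 * J) * Real.log 3 = (1 + 1 / 10000) * Real.log 3 -
        δ / 20000 * J * Real.log 3 := by ring
    rw [e2] at h11
    linarith
  · have h5 : 2 ^ (K + l) ≤ 3 ^ odds y K * (2 * 2 ^ K) :=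
      le_trans h4 (Nat.mul_le_mul_left _ (by omega))
    have h6 : (2 : ℝ) ^ (K + l) ≤ 3 ^ odds y K * (2 * 2 ^ K) := by exact_mod_cast h5
    have h7 := Real.log_le_log (by positivity) h6
    rw [Real.log_pow, Real.log_mul (by positivity) (by positivity),
      Real.log_mul (by norm_num) (by positivity), Real.log_pow, Real.log_pow] at h7
    push_cast at h7
    have h7' : ((K : ℝ) + l) * Real.log 2 = K * Real.log 2 + l * Real.log 2 := by ring
    rw [h7'] at h7
    have h8 : 0 ≤ K / 10000 * Real.log 3 := by positivity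
    have h9 : (l : ℝ) * Real.log 2 ≤ (K + 1) * Real.log 2 := by
      have e : ((K : ℝ) + 1) * Real.log 2 = K * Real.log 2 + Real.log 2 := by ring
      rw [e]
      linarith
    refine le_trans h9 (mul_le_mul_of_nonneg_right ?_ hL2.le)
    have h10 : δ / 20000 * J ≤ 1 / 1000 * J := by
      refine mul_le_mul_of_nonneg_right ?_ hJ
      linarith
    have e : (1 - δ / 20000) * (J : ℝ) = J - δ / 20000 * J := by ring
    rw [e]
    linarith

theorem pr_Blk2 (h1 : S_NB) : S_Blk2 := by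
  classical
  obtain ⟨δ, ε₁, ε₂, η, C, hδ, hδ', hε₁, hε₂, hε', hη, hC, hNB⟩ := h1
  refine ⟨max (1 - ε₁) (1 - δ / 20000), 4, η, C, ?_, ?_, by norm_num, hη, hC, ?_⟩
  · exact le_trans (by linarith) (le_max_right _ _)
  · exact max_lt (by linarith) (by linarith)
  intro n s t hn hinj J
  set q : ℝ := max (1 - ε₁) (1 - δ / 20000) with hq
  have hq0 : 0 ≤ q := le_trans (by linarith) (le_max_right _ _)
  have hJ : (0 : ℝ) ≤ J := Nat.cast_nonneg _
  set N : ℕ := ⌊q * J + 4⌋₊ with hN
  set K : ℕ := ⌊δ * J⌋₊ with hK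
  set F := (Ico s t).filter (fun i => Nat.log 2 (T^[i] n) = J) with hF
  set Q : ℕ → Prop := fun m => (rho - ε₁) * J ≤ (odds m J : ℝ) ∧
    ((rho + ε₂) * J ≤ (odds m J : ℝ) ∨ (rho - 1 / 10000) * (K : ℝ) ≤
      (odds (T^[J] m) K : ℝ)) with hQ
  have hcover : F ⊆ F.filter (fun i => Q (T^[i] n)) ∪
      ((Ico s t).filter (fun i => i + J < t ∧ Nat.log 2 (T^[i + J] n) ≤ N) ∪
        ((Ico s t).filter (fun i => i + (J + K) < t ∧ Nat.log 2 (T^[i + (J + K)] n) ≤ N) ∪
          F.filter (fun i => t ≤ i + (J + K)))) := by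
    intro i hi
    have hi' := hi
    rw [hF, mem_filter] at hi'
    obtain ⟨hiI, hlog⟩ := hi'
    have hblk := (log_eq_iff' (iter_pos hn i)).1 hlog
    simp only [mem_union]
    by_cases hd : t ≤ i + (J + K)
    · exact Or.inr (Or.inr (Or.inr (mem_filter.2 ⟨hi, hd⟩)))
    by_cases ha : Q (T^[i] n)
    · exact Or.inl (mem_filter.2 ⟨hi, ha⟩)
    right
    by_cases hb : (odds (T^[i] n) J : ℝ) < (rho - ε₁) * J
    · left
      refine mem_filter.2 ⟨hiI, by omega, ?_⟩
      have h2 := Blk2_two hε₁ hblk.2 (iter_pos hn i) hb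
      rw [← Function.iterate_add_apply, add_comm J i] at h2
      refine Nat.le_floor (le_trans h2 ?_)
      have : (1 - ε₁) * (J : ℝ) ≤ q * J := mul_le_mul_of_nonneg_right (le_max_left _ _) hJ
      linarith
    · right; left
      rw [hQ] at ha
      simp only [not_and_or, not_or, not_le] at ha
      rcases ha with ha | ⟨ha, ha'⟩
      · exact absurd ha hb
      · refine mem_filter.2 ⟨hiI, by omega, ?_⟩
        have h2 := Blk2_three hδ hδ' hε' hK hblk.2 (iter_pos hn i) ha ha'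
        rw [← Function.iterate_add_apply, ← Function.iterate_add_apply,
          show K + J + i = i + (J + K) by ring] at h2
        refine Nat.le_floor (le_trans h2 ?_)
        have : (1 - δ / 20000) * (J : ℝ) ≤ q * J := mul_le_mul_of_nonneg_right (le_max_right _ _) hJ
        linarith
  have hA : ((F.filter (fun i => Q (T^[i] n))).card : ℝ) ≤ C * Real.exp ((hh - η) * J) := by
    refine le_trans ?_ (hNB J)
    have : (F.filter (fun i => Q (T^[i] n))).card ≤ ((Blk J).filter fun m => Q m).card := by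
      refine card_le_card_of_injOn (fun i => T^[i] n) (fun i hi => ?_)
        (fun i hi j hj hij => ?_)
      · rw [mem_coe, mem_filter, hF, mem_filter] at hi
        rw [mem_coe, mem_filter]
        refine ⟨?_, hi.2⟩
        unfold Blk
        rw [mem_Ico]
        exact (log_eq_iff' (iter_pos hn i)).1 hi.1.2
      · rw [mem_coe, mem_filter, hF, mem_filter] at hi hj
        exact hinj (mem_coe.2 hi.1.1) (mem_coe.2 hj.1.1) hij
    exact_mod_cast this
  have hB := Blk2_shift n s t J N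
  have hB2 := Blk2_shift n s t (J + K) N
  have hKJ : K ≤ J := by
    have h1 : (K : ℝ) ≤ δ * J := Nat.floor_le (by positivity)
    have h2 : δ * J ≤ 1 * J := mul_le_mul_of_nonneg_right (by linarith) hJ
    have : (K : ℝ) ≤ J := by linarith
    exact_mod_cast this
  have hD : (F.filter (fun i => t ≤ i + (J + K))).card ≤ 2 * J := by
    have : F.filter (fun i => t ≤ i + (J + K)) ⊆ Ico (t - (J + K)) t := by
      intro i hi
      rw [mem_filter, hF, mem_filter, mem_Ico] at hi
      rw [mem_Ico]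
      omega
    have h2 := card_le_card this
    rw [Nat.card_Ico] at h2
    omega
  have h2 := card_le_card hcover
  have h3 := le_trans h2 (card_union_le _ _)
  have h4 := card_union_le
    ((Ico s t).filter (fun i => i + J < t ∧ Nat.log 2 (T^[i + J] n) ≤ N))
    (((Ico s t).filter (fun i => i + (J + K) < t ∧ Nat.log 2 (T^[i + (J + K)] n) ≤ N) ∪
          F.filter (fun i => t ≤ i + (J + K))))
  have h5 := card_union_le
    ((Ico s t).filter (fun i => i + (J + K) < t ∧ Nat.log 2 (T^[i + (J + K)] n) ≤ N))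
    (F.filter (fun i => t ≤ i + (J + K)))
  have h6 : F.card ≤ (F.filter (fun i => Q (T^[i] n))).card +
      2 * ∑ l ∈ range (N + 1), blk n s t l + 2 * J := by omega
  have h7 : (F.card : ℝ) ≤ ((F.filter (fun i => Q (T^[i] n))).card : ℝ) +
      2 * ∑ l ∈ range (N + 1), (blk n s t l : ℝ) + 2 * J := by exact_mod_cast h6
  have h8 : (blk n s t J : ℝ) = (F.card : ℝ) := rfl
  rw [h8]
  linarith

end Pool.Agent.Work.MP_a11cf9_nt.Win

end

section

namespace Pool.Agent.Work.MP_a11cf9_nt.Win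

open Pool.Agent.Work.MP_a11cf9_nt

theorem pr_Key2 (h1 : S_Blk2) (h2 : S_Grow2) (h3 : S_ZZ) : S_Key2 := by
  classical
  have hl2 := log_two_pos
  have hl3 := log_three_pos
  obtain ⟨q, D, η, C0, hq0, hq1, hD, hη, hC0, hblk⟩ := h1
  have hhh0 : hh = Real.binEntropy (Real.log 2 / Real.log 3) := rfl
  have hhpos : 0 < hh := by
    rw [hhh0]
    exact Real.binEntropy_pos (by positivity) rho_lt_one
  set g : ℝ := max (hh - η) (hh / 2) with hg
  have hgpos : 0 < g := lt_of_lt_of_le (by linarith) (le_max_right _ _)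
  have hglt : g < hh := max_lt (by linarith) (by linarith)
  obtain ⟨C1, hC1, hgrow⟩ := h2 q D (hh - η) g C0 hq0 hq1 hD hgpos (le_max_left _ _) hC0
  set c : ℝ := 1 - g / Real.log 2 with hc
  have hce : cexp < c := by
    have h4 : g / Real.log 2 < hh / Real.log 2 := div_lt_div_of_pos_right hglt hl2
    have h5 : cexp = 1 - hh / Real.log 2 := rfl
    rw [h5, hc]
    linarith
  have hc0 : 0 < c := lt_trans (lt_trans (by norm_num) cexp_gt) hce
  have hgc : g = (1 - c) * Real.log 2 := by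
    rw [hc]
    field_simp
    ring
  refine ⟨c, hce, ?_⟩
  set r : ℝ := Real.exp (-(c * Real.log 2)) with hr
  have hr0 : 0 < r := Real.exp_pos _
  have hr1 : r < 1 := by
    rw [hr, Real.exp_lt_one_iff]
    have : 0 < c * Real.log 2 := by positivity
    linarith
  refine ⟨C1 * (Real.exp (c * Real.log 2) / (1 - r)), by
    have : 0 < 1 - r := by linarith
    positivity, fun n s t m hn hm hinj hge => ?_⟩
  set M : ℕ := (Finset.Ico s t).sup (fun i => Nat.log 2 (T^[i] n)) + 1 with hM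
  have hmaps : ∀ i ∈ Finset.Ico s t,
      (fun i => Nat.log 2 (T^[i] n)) i ∈ Finset.Ico (Nat.log 2 m) M := by
    intro i hi
    rw [Finset.mem_Ico]
    refine ⟨Nat.log_mono_right (hge i hi), ?_⟩
    rw [hM, Nat.lt_succ_iff]
    exact Finset.le_sup (f := fun i => Nat.log 2 (T^[i] n)) hi
  rw [← Finset.sum_fiberwise_of_maps_to hmaps]
  have hv := hgrow (fun J => (blk n s t J : ℝ))
    (fun J => by exact_mod_cast blk_le_two_pow hn hinj J)
    (fun J => hblk n s t hn hinj J)
  have hterm : ∀ J ∈ Finset.Ico (Nat.log 2 m) M,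
      ∑ i ∈ (Finset.Ico s t).filter (fun i => Nat.log 2 (T^[i] n) = J), 1 / (T^[i] n : ℝ) ≤
        C1 * r ^ J := by
    intro J _
    have h2J : (0 : ℝ) < 2 ^ J := by positivity
    calc ∑ i ∈ (Finset.Ico s t).filter (fun i => Nat.log 2 (T^[i] n) = J), 1 / (T^[i] n : ℝ)
        ≤ ∑ i ∈ (Finset.Ico s t).filter (fun i => Nat.log 2 (T^[i] n) = J), 1 / (2 : ℝ) ^ J := by
          refine Finset.sum_le_sum (fun i hi => ?_)
          have h1 := ((log_eq_iff' (iter_pos hn i)).1 (Finset.mem_filter.1 hi).2).1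
          refine one_div_le_one_div_of_le h2J ?_
          exact_mod_cast h1
      _ = (blk n s t J : ℝ) * (1 / (2 : ℝ) ^ J) := by
          rw [Finset.sum_const, nsmul_eq_mul]
          rfl
      _ ≤ C1 * Real.exp (g * J) * (1 / (2 : ℝ) ^ J) :=
          mul_le_mul_of_nonneg_right (hv J) (by positivity)
      _ = C1 * r ^ J := by
          have h3 : (2 : ℝ) ^ J = Real.exp (Real.log 2 * J) := by
            rw [← Real.rpow_natCast, Real.rpow_def_of_pos (by norm_num)]
          have h4 : r ^ J = Real.exp (-(c * Real.log 2) * J) := by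
            rw [hr, ← Real.exp_nat_mul, mul_comm]
          rw [h3, h4, mul_assoc, one_div, ← Real.exp_neg, ← Real.exp_add]
          congr 2
          rw [hgc]
          ring
  refine le_trans (Finset.sum_le_sum hterm) ?_
  rw [← Finset.mul_sum, mul_assoc]
  refine mul_le_mul_of_nonneg_left ?_ hC1.le
  refine le_trans (geom_sum_Ico_le_of_lt_one hr0.le hr1) ?_
  rw [div_mul_eq_mul_div]
  refine div_le_div_of_nonneg_right ?_ (by linarith)
  have hmpos : (0 : ℝ) < m := by exact_mod_cast hm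
  have hml : Real.log m ≤ (Nat.log 2 m + 1) * Real.log 2 := by
    have h1 : m < 2 ^ (Nat.log 2 m + 1) := Nat.lt_pow_succ_log_self (by norm_num) m
    have h2 : (m : ℝ) ≤ 2 ^ (Nat.log 2 m + 1) := by exact_mod_cast h1.le
    have h3 := Real.log_le_log hmpos h2
    rw [Real.log_pow] at h3
    push_cast at h3
    exact h3
  rw [hr, ← Real.exp_nat_mul, Real.rpow_def_of_pos hmpos, ← Real.exp_add, Real.exp_le_exp]
  nlinarith [mul_le_mul_of_nonneg_left hml hc0.le]

end Pool.Agent.Work.MP_a11cf9_nt.Win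

end

section

namespace Pool.Agent.Work.MP_a11cf9_nt.Win

open Pool.Agent.Work.MP_a11cf9_nt

/-- from the multiplicative form to the inequality -/
theorem FinB_log {j : ℕ} {o : ℕ} {S C c : ℝ} {n : ℕ}
    (h1 : (2 : ℝ) ^ j ≤ 3 ^ o * Real.exp (S / 3)) (hS : S ≤ C * (n : ℝ) ^ (-c)) :
    j * Real.log 2 - o * Real.log 3 ≤ C / 3 * (n : ℝ) ^ (-c) := by
  have h3 := Real.log_le_log (by positivity) h1
  rw [Real.log_mul (by positivity) (Real.exp_pos _).ne', Real.log_pow, Real.log_pow,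
    Real.log_exp] at h3
  linarith

theorem pr_FinB (h1 : S_Key2) : S_FinB := by
  obtain ⟨c, hc, C, hC, hkey⟩ := h1
  -- the case `j = kappa n`
  have main : ∀ n k : ℕ, 2 ≤ n → kappa n = k → sigma n ≠ k →
      k * Real.log 2 - odds n k * Real.log 3 ≤ C / 3 * (n : ℝ) ^ (-c) := by
    intro n k hn hk hs
    have hge := counterexample_ge hk hs
    obtain ⟨⟨hk1, hk2⟩, hk3⟩ := (kappa_eq_iff n k).1 hk
    obtain ⟨s, hsk, hinj, hse, hs2⟩ := exists_piece hk1 hk3 hge
    have hn1 : 1 ≤ n := by omega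
    have hS := hkey n s k n hn1 hn1 hinj (fun i hi => by
      rw [Finset.mem_Ico] at hi
      rcases Nat.eq_zero_or_pos i with h | h
      · rw [h]; rfl
      · exact hge i h hi.2.le)
    set S := ∑ i ∈ Finset.Ico s k, 1 / (T^[i] n : ℝ) with hSdef
    have hprod := prod_ineq hn1 s (k - s)
    have hsk' : s + (k - s) = k := by omega
    rw [hsk', ← hSdef] at hprod
    have hxk : (0 : ℝ) < (T^[k] n : ℝ) := by exact_mod_cast iter_pos hn1 k
    have h1 : (2 : ℝ) ^ (k - s) ≤ 3 ^ odds (T^[s] n) (k - s) * Real.exp (S / 3) := by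
      have h2 : (2 : ℝ) ^ (k - s) * (T^[k] n : ℝ) ≤
          3 ^ odds (T^[s] n) (k - s) * Real.exp (S / 3) * (T^[k] n : ℝ) := by
        refine le_trans hprod ?_
        have h3 : (T^[s] n : ℝ) ≤ (T^[k] n : ℝ) := by exact_mod_cast hse
        calc 3 ^ odds (T^[s] n) (k - s) * (T^[s] n : ℝ) * Real.exp (S / 3)
            = 3 ^ odds (T^[s] n) (k - s) * Real.exp (S / 3) * (T^[s] n : ℝ) := by ring
          _ ≤ 3 ^ odds (T^[s] n) (k - s) * Real.exp (S / 3) * (T^[k] n : ℝ) :=
              mul_le_mul_of_nonneg_left h3 (by positivity)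
      exact le_of_mul_le_mul_right h2 hxk
    have h2 : (2 : ℝ) ^ k ≤ 3 ^ odds n k * Real.exp (S / 3) := by
      have h3 : (2 : ℝ) ^ s ≤ 3 ^ odds n s := by exact_mod_cast hs2
      have h4 : odds n k = odds n s + odds (T^[s] n) (k - s) := by
        rw [← odds_add, hsk']
      calc (2 : ℝ) ^ k = 2 ^ s * 2 ^ (k - s) := by rw [← pow_add, hsk']
        _ ≤ 3 ^ odds n s * (3 ^ odds (T^[s] n) (k - s) * Real.exp (S / 3)) :=
            mul_le_mul h3 h1 (by positivity) (by positivity)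
        _ = 3 ^ odds n k * Real.exp (S / 3) := by rw [h4, pow_add]; ring
    exact FinB_log h2 hS
  refine ⟨c, hc, C / 3, fun n hn => ⟨fun j hj hjs hor => ?_, fun hne => ?_⟩⟩
  · have hn1 : 1 ≤ n := by omega
    have hn0 : (1 : ℝ) ≤ n := by exact_mod_cast hn1
    have hpow : 0 < (n : ℝ) ^ (-c) := Real.rpow_pos_of_pos (by linarith) _
    rcases hor with hor | hor
    · obtain ⟨s, hs, -⟩ := exists_lt_of_sigma_ne_top hor
      rw [hs] at hjs
      have hjs' : j < s := by exact_mod_cast hjs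
      have hinj := injOn_of_sigma hs hjs'
      have hge : ∀ i, 1 ≤ i → i ≤ j → n ≤ T^[i] n := fun i hi hij =>
        ((sigma_eq_iff n s).1 hs).2 i hi (lt_of_le_of_lt hij hjs')
      have hS := hkey n 0 j n hn1 hn1 hinj (fun i hi => by
        rw [Finset.mem_Ico] at hi
        rcases Nat.eq_zero_or_pos i with h | h
        · rw [h]; rfl
        · exact hge i h hi.2.le)
      set S := ∑ i ∈ Finset.Ico 0 j, 1 / (T^[i] n : ℝ) with hSdef
      have hprod := prod_ineq hn1 0 j
      rw [zero_add, ← hSdef, Function.iterate_zero_apply] at hprod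
      have hTj : (n : ℝ) ≤ (T^[j] n : ℝ) := by exact_mod_cast hge j hj le_rfl
      have h1 : (2 : ℝ) ^ j ≤ 3 ^ odds n j * Real.exp (S / 3) := by
        have h2 : (2 : ℝ) ^ j * n ≤ (3 ^ odds n j * Real.exp (S / 3)) * n := by
          calc (2 : ℝ) ^ j * n ≤ 2 ^ j * (T^[j] n : ℝ) :=
                mul_le_mul_of_nonneg_left hTj (by positivity)
            _ ≤ 3 ^ odds n j * (n : ℝ) * Real.exp (S / 3) := hprod
            _ = (3 ^ odds n j * Real.exp (S / 3)) * n := by ring
        exact le_of_mul_le_mul_right h2 (by linarith)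
      exact FinB_log h1 hS
    · by_cases hlt : (j : ℕ∞) < kappa n
      · have h1 : 2 ^ j ≤ 3 ^ odds n j := by
          by_contra hcon
          have h2 : kappa n ≤ j := sInf_le ⟨j, ⟨hj, not_le.1 hcon⟩, rfl⟩
          exact absurd hlt (not_lt.2 h2)
        have h2 : (2 : ℝ) ^ j ≤ 3 ^ odds n j := by exact_mod_cast h1
        have h3 := Real.log_le_log (by positivity) h2
        rw [Real.log_pow, Real.log_pow] at h3
        have h4 : 0 ≤ C / 3 * (n : ℝ) ^ (-c) := by positivity
        linarith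
      · have hk : kappa n = j := le_antisymm (not_lt.1 hlt) hor
        exact main n j hn hk hjs.ne'
  · obtain ⟨k, hk, hs⟩ := exists_of_ne hne
    exact ⟨k, hk, ((kappa_eq_iff n k).1 hk).1.2, main n k hn hk hs⟩

end Pool.Agent.Work.MP_a11cf9_nt.Win

end
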