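import Mathlib
import Pool.Agent.Work.MP_a11cf9_nt.Key

/-!
# Beyond the first window: definitions

`T`, `odds` are those of `Pool/Agent/Work/MP_a11cf9_nt/Defs.lean`. We study the next `K` parities
after the first `J = K + L` ones for `m` in the block `[2 ^ J, 2 ^ (J + 1))`.
-/

set_option autoImplicit false

open Finset

namespace Pool.Agent.Work.MP_a11cf9_nt.Win

open Pool.Agent.Work.MP_a11cf9_nt

/-- `2 ^ k * T^[k] x = 3 ^ odds x k * x + rem x k` -/
def rem (x : ℕ) : ℕ → ℕ
  | 0 => 0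
  | k + 1 => if T^[k] x % 2 = 1 then 3 * rem x k + 2 ^ k else rem x k

/-- Hamming distance of the parity words of length `K` of `x` and `y`. -/
def ham (x y K : ℕ) : ℕ := ((range K).filter (fun j => T^[j] x % 2 ≠ T^[j] y % 2)).card

/-- the block -/
def Blk (J : ℕ) : Finset ℕ := Ico (2 ^ J) (2 ^ (J + 1))

/-- typical first word of length `K` (depends on `x` modulo `2 ^ K` only) -/
def Typ (K l : ℕ) (P : ℝ) (x : ℕ) : Prop :=
  (∀ j ≤ K, (2 : ℝ) ^ j ≤ P * 3 ^ odds x j) ∧ (3 : ℝ) ^ odds x K ≤ P * 2 ^ K ∧ l ≤ odds x K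

/-- bad corner -/
def Bad (K l i M : ℕ) : Prop :=
  ∃ c E F : ℤ, c ≠ 0 ∧ |c| < 3 ^ l ∧ 3 ^ i * E = c + 2 ^ M * F ∧ |E| < 2 ^ (M - K)

/-- the corner of `m` at the time `t` is bad -/
def BadAt (K L l m t : ℕ) : Prop :=
  Bad K l (odds m K + odds (T^[K] m) (t + l)) (K + L - t)

open Classical in
/-- the set counted by the Cauchy-Schwarz argument -/
noncomputable def Sab (K L l : ℕ) (P : ℝ) (g a b : ℕ) : Finset ℕ :=
  (Blk (K + L)).filter fun m => Typ K l P m ∧ odds m K = a ∧ odds (T^[K] m) L = b ∧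
    g ≤ odds (T^[K + L] m) K

open Classical in
/-- fibre over the first word, the weight of the middle word and the end value -/
noncomputable def Fib (K L l : ℕ) (P : ℝ) (u b y : ℕ) : Finset ℕ :=
  (Blk (K + L)).filter fun m => Typ K l P m ∧ m % 2 ^ K = u ∧ odds (T^[K] m) L = b ∧
    T^[K + L] m % 2 ^ K = y

open Classical in
/-- fibre over the middle word and the end value -/
noncomputable def Fib2 (K L l : ℕ) (P : ℝ) (a s y : ℕ) : Finset ℕ :=
  (Blk (K + L)).filter fun m => Typ K l P m ∧ odds m K = a ∧ T^[K] m % 2 ^ L = s ∧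
    T^[K + L] m % 2 ^ K = y

/-- pairs of bad residues with Hamming distance at least `h` -/
def CorrSet (K D g h : ℕ) : Finset ℕ :=
  (range (2 ^ K)).filter fun y => g ≤ odds y K ∧ g ≤ odds (y + D) K ∧ h ≤ ham y (y + D) K

/-- residues with Hamming distance `< h` -/
def Ball (K h x : ℕ) : Finset ℕ := (range (2 ^ K)).filter fun y => ham x y K < h

/-- number of words of length `k` and weight `a` -/
def Wt (k a : ℕ) : Finset ℕ := (range (2 ^ k)).filter fun x => odds x k = a

/-! ## Pade approximants of `(1 - X) ^ k` -/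

open Polynomial in
/-- denominator -/
noncomputable def Qp (k N : ℕ) : ℤ[X] :=
  ∑ j ∈ range (N + 1), C (((k - N + j - 1).choose j * (2 * N - j).choose N : ℕ) : ℤ) * X ^ j

open Polynomial in
/-- numerator -/
noncomputable def Pp (k N : ℕ) : ℤ[X] :=
  ∑ i ∈ range (N + 1), C ((-1) ^ i * (((k + N).choose i * (2 * N - i).choose N : ℕ) : ℤ)) * X ^ i

open Polynomial in
/-- remainder -/
noncomputable def Rp (k N : ℕ) : ℤ[X] :=
  ∑ i ∈ Icc (2 * N + 1) (k + N),
    C ((-1) ^ (N + i) * (((k + N).choose i * (i - N - 1).choose N : ℕ) : ℤ)) * X ^ i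

/-- denominator at `1 / 9` -/
def qz (k N : ℕ) : ℤ :=
  ∑ j ∈ range (N + 1), (((k - N + j - 1).choose j * (2 * N - j).choose N : ℕ) : ℤ) * 9 ^ (N - j)

/-- numerator at `1 / 9` -/
def pz (k N : ℕ) : ℤ :=
  ∑ i ∈ range (N + 1), (-1) ^ i * (((k + N).choose i * (2 * N - i).choose N : ℕ) : ℤ) * 9 ^ (N - i)

/-- remainder at `1 / 9` -/
def rz (k N : ℕ) : ℤ :=
  ∑ i ∈ Icc (2 * N + 1) (k + N),
    (-1) ^ (N + i) * (((k + N).choose i * (i - N - 1).choose N : ℕ) : ℤ) * 9 ^ (k + N - i)

/-! ## Constants -/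

/-- `log 2 / log 3` -/
noncomputable def rho : ℝ := Real.log 2 / Real.log 3

/-- the weight of a one -/
noncomputable def zz : ℝ := rho / (1 - rho)

/-- the gain for a pair of different parities -/
noncomputable def qq : ℝ := 2 * √zz / (1 + zz)

/-- the entropy (natural logarithms) -/
noncomputable def hh : ℝ := Real.binEntropy rho

end Pool.Agent.Work.MP_a11cf9_nt.Win
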