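import Pool.Agent.Work.MP_a11cf9_nt.Win.B1
import Pool.Agent.Work.MP_a11cf9_nt.Win.B2
import Pool.Agent.Work.MP_a11cf9_nt.Win.B3
import Pool.Agent.Work.MP_a11cf9_nt.Win.B4

/-!
# Beyond the first window: assembly
-/

set_option autoImplicit false

namespace Pool.Agent.Work.MP_a11cf9_nt.Win

theorem t_Inj : S_Inj := pr_Inj pr_Aff
theorem t_Par : S_Par := pr_Par pr_Shift t_Inj
theorem t_BlkInj : S_BlkInj := pr_BlkInj t_Par
theorem t_BlkSum : S_BlkSum := pr_BlkSum t_BlkInj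
theorem t_Two : S_Two := pr_Two pr_Aff pr_Shift
theorem t_Mult : S_Mult :=
  pr_Mult pr_Aff pr_RemAdd pr_RemLe pr_Shift t_Inj pr_RemTyp t_BlkInj
theorem t_CorrSum : S_CorrSum := pr_CorrSum pr_Shift
theorem t_Corr : S_Corr := pr_Corr t_CorrSum
theorem t_Ball : S_Ball := pr_Ball (pr_BallSum pr_Shift)
theorem t_InjC : S_InjC := pr_InjC pr_Aff pr_RemLe pr_Shift t_Inj t_Par
theorem t_SpreadT : S_SpreadT := pr_SpreadT t_InjC
theorem t_Spread : S_Spread := pr_Spread t_SpreadT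
theorem t_Chain : S_Chain := pr_Chain pr_Step
theorem t_PadeNum : S_PadeNum := pr_PadeNum pr_PadeId
theorem t_PadeDet : S_PadeDet := pr_PadeDet pr_PadeId
theorem t_W : S_W := pr_W t_PadeNum t_PadeDet pr_PadeQ pr_PadeR
theorem t_NoBad : S_NoBad := pr_NoBad t_Chain t_W
theorem t_SabLe : S_SabLe := pr_SabLe t_BlkInj
theorem t_Far : S_Far := pr_Far t_BlkInj t_Two t_Par
theorem t_Near : S_Near := pr_Near t_Par
theorem t_Core : S_Core :=
  pr_Core pr_CSa t_SabLe t_Far t_Near t_Corr t_Mult t_Ball t_Spread pr_Wt pr_ZZ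
theorem t_Chern : S_Chern := pr_Chern pr_ZZ
theorem t_TypU : S_TypU := pr_TypU t_Chern pr_ZZ
theorem t_E : S_E := pr_E t_NoBad t_BlkSum t_TypU t_Core pr_Small pr_ZZ t_Par
theorem t_NA : S_NA := pr_NA t_E pr_ZZ
theorem t_FinA : S_FinA := pr_FinA t_NA pr_SigK pr_ZZ
theorem t_NB : S_NB := pr_NB t_E pr_ZZ
theorem t_Blk2 : S_Blk2 := pr_Blk2 t_NB
theorem t_Key2 : S_Key2 := pr_Key2 t_Blk2 pr_Grow2 pr_ZZ
theorem t_FinB : S_FinB := pr_FinB t_Key2

end Pool.Agent.Work.MP_a11cf9_nt.Win
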